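import Pool.Agent.Lib.MP_e9abfe_ag_GSF.Defs
import Pool.Agent.Lib.MP_e9abfe_ag_DMC.Expa

/-!
# Project GSF (MP_e9abfe_ag), module G10: expansions with a bounded coordinate
-/

set_option autoImplicit false

namespace Pool.Agent.GSF

open MvPolynomial
open Pool.Agent.DMC
open Pool.Agent.MP_e9abfe (Phi pull)

variable {L : Type} [NormedField L] [IsUltrametricDist L] [CharZero L]

/-- sequences with an expansion up to the order `j` in `u`, with coefficients which are
polynomials in `s`, periodic modulo `N` -/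
def BdExp_App (s u : ℕ → L) (N j : ℕ) (f : ℕ → L) : Prop :=
  ∃ (F : ℕ → Polynomial (Polynomial L)) (C : ℝ), 0 ≤ C ∧ (∀ n, F (n + N) = F n) ∧
    ∀ n, ‖f n - Polynomial.evalEval (s n) (u n) (F n)‖ ≤ C * ‖u n‖ ^ j

omit [IsUltrametricDist L] [CharZero L] in
theorem BdExp_mono (m : ℕ) (a : Polynomial L) (s u : L) :
    Polynomial.evalEval s u (Polynomial.monomial m a) = a.eval s * u ^ m := by
  simp [Polynomial.evalEval, Polynomial.eval_monomial]

omit [IsUltrametricDist L] [CharZero L] in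
theorem BdExp_bd (P : Polynomial (Polynomial L)) : ∃ B : ℝ, 0 ≤ B ∧
    ∀ s u : L, ‖s‖ ≤ 1 → ‖u‖ ≤ 1 → ‖Polynomial.evalEval s u P‖ ≤ B := by
  induction P using Polynomial.induction_on' with
  | add p q hp hq =>
    obtain ⟨B₁, h₁, h₁b⟩ := hp
    obtain ⟨B₂, h₂, h₂b⟩ := hq
    refine ⟨B₁ + B₂, add_nonneg h₁ h₂, fun s u hs hu => ?_⟩
    rw [Polynomial.evalEval_add]
    exact (norm_add_le _ _).trans (add_le_add (h₁b s u hs hu) (h₂b s u hs hu))
  | monomial m a =>
    obtain ⟨B, hB, hb⟩ := Expa_bd a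
    refine ⟨B, hB, fun s u hs hu => ?_⟩
    rw [BdExp_mono, norm_mul, norm_pow]
    exact (mul_le_of_le_one_right (norm_nonneg _) (pow_le_one₀ (norm_nonneg _) hu)).trans
      (hb s hs)

omit [IsUltrametricDist L] [CharZero L] in
theorem BdExp_unif {N : ℕ} (hN : 0 < N) {F : ℕ → Polynomial (Polynomial L)}
    (hF : ∀ n, F (n + N) = F n) : ∃ B : ℝ, 0 ≤ B ∧
    ∀ (n : ℕ) (s u : L), ‖s‖ ≤ 1 → ‖u‖ ≤ 1 → ‖Polynomial.evalEval s u (F n)‖ ≤ B := by
  choose B hB hb using BdExp_bd (L := L)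
  obtain ⟨D, hD, hd⟩ := Expa_per (f := fun n => B (F n)) hN fun n => by simp only [hF n]
  exact ⟨D, hD, fun n s u hs hu => (hb _ s u hs hu).trans (hd n)⟩

section app

variable {s u : ℕ → L} {N : ℕ}

omit [IsUltrametricDist L] [CharZero L] in
theorem BdExp_bdd (hs : ∀ n, ‖s n‖ ≤ 1) (hu : ∀ n, ‖u n‖ ≤ 1) (hN : 0 < N) {j : ℕ}
    {f : ℕ → L} (hf : BdExp_App s u N j f) : ∃ M : ℝ, 0 ≤ M ∧ ∀ n, ‖f n‖ ≤ M := by
  obtain ⟨F, C, hC, hF, h⟩ := hf
  obtain ⟨B, hB, hb⟩ := BdExp_unif hN hF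
  refine ⟨C + B, add_nonneg hC hB, fun n => ?_⟩
  have h1 : f n = (f n - Polynomial.evalEval (s n) (u n) (F n)) +
    Polynomial.evalEval (s n) (u n) (F n) := by ring
  rw [h1]
  refine (norm_add_le _ _).trans (add_le_add ?_ (hb n _ _ (hs n) (hu n)))
  exact (h n).trans (mul_le_of_le_one_right hC (pow_le_one₀ (norm_nonneg _) (hu n)))

omit [IsUltrametricDist L] [CharZero L] in
theorem BdExp_add {j : ℕ} {f g : ℕ → L} (hf : BdExp_App s u N j f)
    (hg : BdExp_App s u N j g) : BdExp_App s u N j fun n => f n + g n := by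
  obtain ⟨F, C, hC, hF, h⟩ := hf
  obtain ⟨G, D, hD, hG, h'⟩ := hg
  refine ⟨fun n => F n + G n, C + D, add_nonneg hC hD, fun n => by simp only [hF n, hG n],
    fun n => ?_⟩
  rw [Polynomial.evalEval_add, add_sub_add_comm, add_mul]
  exact (norm_add_le _ _).trans (add_le_add (h n) (h' n))

omit [IsUltrametricDist L] [CharZero L] in
theorem BdExp_mul (hs : ∀ n, ‖s n‖ ≤ 1) (hu : ∀ n, ‖u n‖ ≤ 1) (hN : 0 < N) {j : ℕ}
    {f g : ℕ → L} (hf : BdExp_App s u N j f) (hg : BdExp_App s u N j g) :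
    BdExp_App s u N j fun n => f n * g n := by
  obtain ⟨M, hM, hm⟩ := BdExp_bdd hs hu hN hg
  obtain ⟨F, C, hC, hF, h⟩ := hf
  obtain ⟨G, D, hD, hG, h'⟩ := hg
  obtain ⟨B, hB, hb⟩ := BdExp_unif hN hF
  refine ⟨fun n => F n * G n, C * M + B * D, by positivity, fun n => by simp only [hF n, hG n],
    fun n => ?_⟩
  rw [Polynomial.evalEval_mul]
  have h1 : f n * g n - Polynomial.evalEval (s n) (u n) (F n) *
      Polynomial.evalEval (s n) (u n) (G n) =
      (f n - Polynomial.evalEval (s n) (u n) (F n)) * g n +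
      Polynomial.evalEval (s n) (u n) (F n) *
        (g n - Polynomial.evalEval (s n) (u n) (G n)) := by ring
  rw [h1]
  refine (norm_add_le _ _).trans ?_
  rw [norm_mul, norm_mul, add_mul]
  refine add_le_add ?_ ?_
  · calc _ ≤ C * ‖u n‖ ^ j * M := mul_le_mul (h n) (hm n) (norm_nonneg _) (by positivity)
      _ = _ := by ring
  · calc _ ≤ B * (D * ‖u n‖ ^ j) :=
          mul_le_mul (hb n _ _ (hs n) (hu n)) (h' n) (norm_nonneg _) hB
      _ = _ := by ring

omit [IsUltrametricDist L] [CharZero L] in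
theorem BdExp_const (s u : ℕ → L) (j : ℕ) {c : ℕ → L} (hc : ∀ n, c (n + N) = c n) :
    BdExp_App s u N j c := by
  refine ⟨fun n => Polynomial.C (Polynomial.C (c n)), 0, le_rfl, fun n => by simp only [hc n],
    fun n => ?_⟩
  rw [Polynomial.evalEval_C, Polynomial.eval_C, sub_self, norm_zero, zero_mul]

omit [IsUltrametricDist L] [CharZero L] in
theorem BdExp_s (s u : ℕ → L) (N j : ℕ) : BdExp_App s u N j s := by
  refine ⟨fun _ => Polynomial.C Polynomial.X, 0, le_rfl, fun n => rfl, fun n => ?_⟩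
  rw [Polynomial.evalEval_C, Polynomial.eval_X, sub_self, norm_zero, zero_mul]

omit [IsUltrametricDist L] [CharZero L] in
theorem BdExp_u (s u : ℕ → L) (N j : ℕ) : BdExp_App s u N j u := by
  refine ⟨fun _ => Polynomial.X, 0, le_rfl, fun n => rfl, fun n => ?_⟩
  rw [Polynomial.evalEval_X, sub_self, norm_zero, zero_mul]

omit [IsUltrametricDist L] [CharZero L] in
theorem BdExp_le (hu : ∀ n, ‖u n‖ ≤ 1) {j j' : ℕ} (hj : j ≤ j') {f : ℕ → L}
    (hf : BdExp_App s u N j' f) : BdExp_App s u N j f := by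
  obtain ⟨F, C, hC, hF, h⟩ := hf
  exact ⟨F, C, hC, hF, fun n => (h n).trans (mul_le_mul_of_nonneg_left
    (pow_le_pow_of_le_one (norm_nonneg _) (hu n) hj) hC)⟩

omit [IsUltrametricDist L] [CharZero L] in
theorem BdExp_umul {j : ℕ} {f : ℕ → L} (hf : BdExp_App s u N j f) :
    BdExp_App s u N (j + 1) fun n => u n * f n := by
  obtain ⟨F, C, hC, hF, h⟩ := hf
  refine ⟨fun n => Polynomial.X * F n, C, hC, fun n => by simp only [hF n], fun n => ?_⟩
  rw [Polynomial.evalEval_mul, Polynomial.evalEval_X, ← mul_sub, norm_mul]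
  calc _ ≤ ‖u n‖ * (C * ‖u n‖ ^ j) := mul_le_mul_of_nonneg_left (h n) (norm_nonneg _)
    _ = _ := by ring

omit [IsUltrametricDist L] [CharZero L] in
theorem BdExp_pow (hs : ∀ n, ‖s n‖ ≤ 1) (hu : ∀ n, ‖u n‖ ≤ 1) (hN : 0 < N) {j : ℕ}
    {f : ℕ → L} (hf : BdExp_App s u N j f) (m : ℕ) :
    BdExp_App s u N j fun n => f n ^ m := by
  induction m with
  | zero =>
    simp only [pow_zero]
    exact BdExp_const s u j (c := fun _ => 1) fun _ => rfl
  | succ m ih =>
    simp only [pow_succ]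
    exact BdExp_mul hs hu hN ih hf

omit [IsUltrametricDist L] [CharZero L] in
theorem BdExp_eval (hs : ∀ n, ‖s n‖ ≤ 1) (hu : ∀ n, ‖u n‖ ≤ 1) (hN : 0 < N) {j : ℕ}
    {g : ℕ → L} (hg : BdExp_App s u N j g) (a : Polynomial L) :
    BdExp_App s u N j fun n => a.eval (g n) := by
  induction a using Polynomial.induction_on' with
  | add p q hp hq =>
    simp only [Polynomial.eval_add]
    exact BdExp_add hp hq
  | monomial m c =>
    simp only [Polynomial.eval_monomial]
    exact BdExp_mul hs hu hN (BdExp_const s u j (c := fun _ => c) fun _ => rfl)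
      (BdExp_pow hs hu hN hg m)

omit [IsUltrametricDist L] [CharZero L] in
theorem BdExp_evalEval (hs : ∀ n, ‖s n‖ ≤ 1) (hu : ∀ n, ‖u n‖ ≤ 1) (hN : 0 < N) {j : ℕ}
    {g h : ℕ → L} (hg : BdExp_App s u N j g) (hh : BdExp_App s u N j h)
    (P : Polynomial (Polynomial L)) :
    BdExp_App s u N j fun n => Polynomial.evalEval (g n) (h n) P := by
  induction P using Polynomial.induction_on' with
  | add p q hp hq =>
    simp only [Polynomial.evalEval_add]
    exact BdExp_add hp hq
  | monomial m a =>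
    simp only [BdExp_mono]
    exact BdExp_mul hs hu hN (BdExp_eval hs hu hN hg a) (BdExp_pow hs hu hN hh m)

omit [IsUltrametricDist L] [CharZero L] in
theorem BdExp_sum {ι : Type} (T : Finset ι) {j : ℕ} {f : ι → ℕ → L}
    (hf : ∀ i ∈ T, BdExp_App s u N j (f i)) :
    BdExp_App s u N j fun n => ∑ i ∈ T, f i n := by
  classical
  induction T using Finset.induction_on with
  | empty =>
    simp only [Finset.sum_empty]
    exact BdExp_const s u j (c := fun _ => 0) fun _ => rfl
  | insert i T hi ih =>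
    simp only [Finset.sum_insert hi]
    exact BdExp_add (hf i (Finset.mem_insert_self i T))
      (ih fun i' hi' => hf i' (Finset.mem_insert_of_mem hi'))

omit [IsUltrametricDist L] [CharZero L] in
theorem BdExp_per (hs : ∀ n, ‖s n‖ ≤ 1) (hu : ∀ n, ‖u n‖ ≤ 1) (hN : 0 < N) {j : ℕ}
    {g h : ℕ → L} (hg : BdExp_App s u N j g) (hh : BdExp_App s u N j h)
    {A : ℕ → Polynomial (Polynomial L)} (hA : ∀ n, A (n + N) = A n) :
    BdExp_App s u N j fun n => Polynomial.evalEval (g n) (h n) (A n) := by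
  have h1 : (fun n => Polynomial.evalEval (g n) (h n) (A n)) = fun n =>
      ∑ r ∈ Finset.range N, (if n % N = r then 1 else 0) *
        Polynomial.evalEval (g n) (h n) (A r) := by
    funext n
    rw [Finset.sum_eq_single (n % N)]
    · rw [if_pos rfl, one_mul, Function.Periodic.map_mod_nat hA n]
    · intro r _ hr
      rw [if_neg (Ne.symm hr), zero_mul]
    · intro hn
      exact absurd (Finset.mem_range.2 (Nat.mod_lt _ hN)) hn
  rw [h1]
  refine BdExp_sum _ fun r _ => BdExp_mul hs hu hN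
    (BdExp_const s u j (c := fun n => if n % N = r then 1 else 0) fun n => ?_)
    (BdExp_evalEval hs hu hN hg hh (A r))
  simp only [Nat.add_mod_right]

omit [IsUltrametricDist L] [CharZero L] in
theorem BdExp_shift (hs : ∀ n, ‖s n‖ ≤ 1) (hu : ∀ n, ‖u n‖ ≤ 1) (hN : 0 < N)
    (hus : ∀ n, u (n + 1) = u n ^ 2) {j : ℕ}
    (hss : BdExp_App s u N j fun n => s (n + 1)) {f : ℕ → L} (hf : BdExp_App s u N j f) :
    BdExp_App s u N j fun n => f (n + 1) := by
  obtain ⟨F, C, hC, hF, h⟩ := hf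
  have hu2 : BdExp_App s u N j fun n => u (n + 1) := by
    simp only [hus]
    exact BdExp_pow hs hu hN (BdExp_u s u N j) 2
  have h1 : BdExp_App s u N j fun n =>
      Polynomial.evalEval (s (n + 1)) (u (n + 1)) (F (n + 1)) :=
    BdExp_per hs hu hN hss hu2 (A := fun n => F (n + 1)) fun n => by
      have h2 : n + N + 1 = n + 1 + N := by ring
      rw [h2, hF]
  obtain ⟨G, D, hD, hG, h'⟩ := h1
  refine ⟨G, C + D, add_nonneg hC hD, hG, fun n => ?_⟩
  have h2 : f (n + 1) - Polynomial.evalEval (s n) (u n) (G n) =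
      (f (n + 1) - Polynomial.evalEval (s (n + 1)) (u (n + 1)) (F (n + 1))) +
      (Polynomial.evalEval (s (n + 1)) (u (n + 1)) (F (n + 1)) -
        Polynomial.evalEval (s n) (u n) (G n)) := by ring
  rw [h2, add_mul]
  refine (norm_add_le _ _).trans (add_le_add ((h (n + 1)).trans ?_) (h' n))
  refine mul_le_mul_of_nonneg_left ?_ hC
  rw [hus, norm_pow, ← pow_mul]
  exact pow_le_pow_of_le_one (norm_nonneg _) (hu n) (by omega)

end app

theorem Bd.expand (h2 : ‖(2 : L)‖ < 1) {x y z V b : ℕ → L} {t N : ℕ} (h : Bd x y z V b t N)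
    (k : ℕ) : ∃ (F G : ℕ → Polynomial (Polynomial L)) (C : ℝ),
      (∀ n, F (n + N) = F n) ∧ (∀ n, G (n + N) = G n) ∧
      (∀ n, ‖x n / V n ^ (2 * t) - Polynomial.evalEval (z n / V n ^ t) (V n)⁻¹ (F n)‖ ≤
        C / ‖V n‖ ^ k) ∧
      (∀ n, ‖y n / V n ^ (2 * t) - Polynomial.evalEval (z n / V n ^ t) (V n)⁻¹ (G n)‖ ≤
        C / ‖V n‖ ^ k) := by
  have _ := h2
  have h1V : ∀ n, 1 < ‖V n‖ := Expa_one_lt h.sq
  have hV0 : ∀ n, V n ≠ 0 := fun n => norm_pos_iff.1 (zero_lt_one.trans (h1V n))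
  have hN := h.N_pos
  obtain ⟨r, hr⟩ : ∃ r, t = r + 1 := ⟨t - 1, by have := h.t_pos; omega⟩
  -- the sequences
  set s : ℕ → L := fun n => z n / V n ^ t with hsdef
  set u : ℕ → L := fun n => (V n)⁻¹ with hudef
  set φ : ℕ → L := fun n => (x n / V n ^ (2 * t) - 1) * V n with hφ
  set ψ : ℕ → L := fun n => (y n / V n ^ (2 * t) - b n) * V n with hψ
  have hs : ∀ n, ‖s n‖ ≤ 1 := fun n => by
    rw [hsdef]
    simp only
    rw [norm_div, norm_pow]
    exact div_le_one_of_le₀ (h.hz n) (by positivity)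
  have hu : ∀ n, ‖u n‖ ≤ 1 := fun n => by
    rw [hudef]
    simp only
    rw [norm_inv]
    exact inv_le_one_of_one_le₀ (h1V n).le
  have hus : ∀ n, u (n + 1) = u n ^ 2 := fun n => by
    simp only [hudef]
    rw [h.sq.succ, inv_pow]
  have huV : ∀ n, u n * V n = 1 := fun n => inv_mul_cancel₀ (hV0 n)
  have hx : ∀ n, x n / V n ^ (2 * t) = 1 + u n * φ n := fun n => by
    simp only [hφ]
    linear_combination (-(x n / V n ^ (2 * t) - 1)) * huV n
  have hy : ∀ n, y n / V n ^ (2 * t) = b n + u n * ψ n := fun n => by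
    simp only [hψ]
    linear_combination (-(y n / V n ^ (2 * t) - b n)) * huV n
  -- recursions
  have rs : ∀ n, s (n + 1) = s n ^ 2 + (1 + u n * φ n) := fun n => by
    rw [← hx n]
    simp only [hsdef]
    rw [h.orb.z_succ, h.sq.succ, add_div, div_pow, ← pow_mul, ← pow_mul, mul_comm t 2]
  have rx : ∀ n, φ n = 2⁻¹ * (u n * (φ (n + 1) + (-1) * φ n ^ 2 +
      (-1) * ((b n + u n * ψ n) * u n ^ (2 * r)))) := fun n => by
    have e1 := hx (n + 1)
    rw [h.orb.x_succ, h.sq.succ, hus] at e1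
    have e2 : (x n ^ 2 + y n) / (V n ^ 2) ^ (2 * t) =
        (x n / V n ^ (2 * t)) ^ 2 + y n / V n ^ (2 * t) * u n ^ (2 * t) := by
      rw [add_div, div_pow, ← pow_mul, ← pow_mul, mul_comm (2 * t) 2]
      congr 1
      simp only [hudef]
      rw [inv_pow, two_mul (2 * t), pow_add]
      have := pow_ne_zero (2 * t) (hV0 n)
      field_simp
    rw [e2, hx n, hy n] at e1
    have e3 : u n ^ (2 * t) = u n * (u n * u n ^ (2 * r)) := by
      rw [hr]
      ring
    rw [e3] at e1
    have hun : u n ≠ 0 := inv_ne_zero (hV0 n)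
    have h20 : (2 : L) ≠ 0 := two_ne_zero
    have e4 : u n * (2 * φ n - u n * (φ (n + 1) + (-1) * φ n ^ 2 +
      (-1) * ((b n + u n * ψ n) * u n ^ (2 * r)))) = 0 := by
      linear_combination e1
    have e5 := (mul_eq_zero.1 e4).resolve_left hun
    field_simp
    linear_combination e5
  have hb0 : ∀ n, b n ≠ 0 := fun n => by
    rw [← norm_pos_iff, h.b_norm]
    exact one_pos
  have ry : ∀ n, ψ n = 2⁻¹ * (b n)⁻¹ * (u n * (ψ (n + 1) + (-1) * ψ n ^ 2 +
      (-1) * (s n * u n ^ (3 * r + 1)))) := fun n => by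
    have e1 := hy (n + 1)
    rw [h.orb.y_succ, h.sq.succ, hus, h.b_succ] at e1
    have e2 : (y n ^ 2 + z n) / (V n ^ 2) ^ (2 * t) =
        (y n / V n ^ (2 * t)) ^ 2 + s n * u n ^ (3 * t) := by
      rw [add_div, div_pow, ← pow_mul, ← pow_mul, mul_comm (2 * t) 2]
      congr 1
      simp only [hudef, hsdef]
      rw [inv_pow]
      have h3 : V n ^ (2 * (2 * t)) = V n ^ t * V n ^ (3 * t) := by
        rw [← pow_add]
        congr 1
        ring
      rw [h3]
      have := pow_ne_zero (3 * t) (hV0 n)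
      have := pow_ne_zero t (hV0 n)
      field_simp
    rw [e2, hy n] at e1
    have e3 : u n ^ (3 * t) = u n * (u n * u n ^ (3 * r + 1)) := by
      rw [hr]
      ring
    rw [e3] at e1
    have hun : u n ≠ 0 := inv_ne_zero (hV0 n)
    have h20 : (2 : L) ≠ 0 := two_ne_zero
    have e4 : u n * (2 * b n * ψ n - u n * (ψ (n + 1) + (-1) * ψ n ^ 2 +
      (-1) * (s n * u n ^ (3 * r + 1)))) = 0 := by
      linear_combination e1
    have e5 := (mul_eq_zero.1 e4).resolve_left hun
    have := hb0 n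
    field_simp
    linear_combination e5
  -- the induction
  have key : ∀ j, BdExp_App s u N j φ ∧ BdExp_App s u N j ψ := by
    intro j
    induction j with
    | zero =>
      obtain ⟨C, hC⟩ := h.hx
      obtain ⟨D, hD⟩ := h.hy
      refine ⟨⟨fun _ => 0, |C|, abs_nonneg _, fun _ => rfl, fun n => ?_⟩,
        ⟨fun _ => 0, |D|, abs_nonneg _, fun _ => rfl, fun n => ?_⟩⟩
      · rw [Polynomial.evalEval_zero, sub_zero, pow_zero, mul_one]
        simp only [hφ]
        rw [norm_mul, ← le_div_iff₀ (zero_lt_one.trans (h1V n))]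
        exact (hC n).trans (div_le_div_of_nonneg_right (le_abs_self _) (norm_nonneg _))
      · rw [Polynomial.evalEval_zero, sub_zero, pow_zero, mul_one]
        simp only [hψ]
        rw [norm_mul, ← le_div_iff₀ (zero_lt_one.trans (h1V n))]
        exact (hD n).trans (div_le_div_of_nonneg_right (le_abs_self _) (norm_nonneg _))
    | succ j ih =>
      obtain ⟨hφj, hψj⟩ := ih
      have c0 : ∀ (c : L), BdExp_App s u N j fun _ => c := fun c =>
        BdExp_const s u j (c := fun _ => c) fun _ => rfl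
      have hbj : BdExp_App s u N j b := BdExp_const s u j h.b_per
      have huj := BdExp_u s u N j
      have hss : BdExp_App s u N j fun n => s (n + 1) := by
        simp only [rs]
        exact BdExp_add (BdExp_pow hs hu hN (BdExp_s s u N j) 2)
          (BdExp_add (c0 1) (BdExp_mul hs hu hN huj hφj))
      constructor
      · have e := BdExp_mul hs hu hN (BdExp_const s u (j + 1) (c := fun _ => (2 : L)⁻¹)
          fun _ => rfl) (BdExp_umul (BdExp_add (BdExp_add
            (BdExp_shift hs hu hN hus hss hφj)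
            (BdExp_mul hs hu hN (c0 (-1)) (BdExp_pow hs hu hN hφj 2)))
            (BdExp_mul hs hu hN (c0 (-1)) (BdExp_mul hs hu hN
              (BdExp_add hbj (BdExp_mul hs hu hN huj hψj))
              (BdExp_pow hs hu hN huj (2 * r))))))
        have e' : φ = fun n => 2⁻¹ * (u n * (φ (n + 1) + (-1) * φ n ^ 2 +
            (-1) * ((b n + u n * ψ n) * u n ^ (2 * r)))) := funext rx
        rw [e']
        exact e
      · have e := BdExp_mul hs hu hN (BdExp_const s u (j + 1)
          (c := fun n => (2 : L)⁻¹ * (b n)⁻¹) fun n => by simp only [h.b_per n])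
          (BdExp_umul (BdExp_add (BdExp_add
            (BdExp_shift hs hu hN hus hss hψj)
            (BdExp_mul hs hu hN (c0 (-1)) (BdExp_pow hs hu hN hψj 2)))
            (BdExp_mul hs hu hN (c0 (-1)) (BdExp_mul hs hu hN
              (BdExp_s s u N j) (BdExp_pow hs hu hN huj (3 * r + 1))))))
        have e' : ψ = fun n => 2⁻¹ * (b n)⁻¹ * (u n * (ψ (n + 1) + (-1) * ψ n ^ 2 +
            (-1) * (s n * u n ^ (3 * r + 1)))) := funext ry
        rw [e']
        exact e
  obtain ⟨hφk, hψk⟩ := key k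
  have fx : BdExp_App s u N k fun n => x n / V n ^ (2 * t) := by
    simp only [hx]
    exact BdExp_add (BdExp_const s u k (c := fun _ => 1) fun _ => rfl)
      (BdExp_mul hs hu hN (BdExp_u s u N k) hφk)
  have fy : BdExp_App s u N k fun n => y n / V n ^ (2 * t) := by
    simp only [hy]
    exact BdExp_add (BdExp_const s u k h.b_per)
      (BdExp_mul hs hu hN (BdExp_u s u N k) hψk)
  obtain ⟨F, C, hC, hF, hFC⟩ := fx
  obtain ⟨G, D, hD, hG, hGD⟩ := fy
  have hpow : ∀ (n : ℕ) (E : ℝ), E * ‖u n‖ ^ k = E / ‖V n‖ ^ k := fun n E => by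
    simp only [hudef]
    rw [norm_inv, inv_pow, div_eq_mul_inv]
  refine ⟨F, G, C + D, hF, hG, fun n => ?_, fun n => ?_⟩
  · refine (hFC n).trans ?_
    rw [hpow]
    exact div_le_div_of_nonneg_right (le_add_of_nonneg_right hD) (by positivity)
  · refine (hGD n).trans ?_
    rw [hpow]
    exact div_le_div_of_nonneg_right (le_add_of_nonneg_left hC) (by positivity)

end Pool.Agent.GSF
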