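import Pool.Agent.Lib.MP_e9abfe_ag_GSF.Defs
import Pool.Agent.Lib.MP_e9abfe_ag_DMC.Per
import Pool.Agent.Lib.MP_e9abfe_ag_DMC.Nz

/-!
# Module G11 (project GSF): the coefficient sequence is asymptotic to a cycle
-/

set_option autoImplicit false

namespace Pool.Agent.GSF

open MvPolynomial
open Pool.Agent.DMC
open Pool.Agent.MP_e9abfe (Phi pull)

variable {L : Type} [NormedField L] [IsUltrametricDist L] [CharZero L]

omit [IsUltrametricDist L] [CharZero L] in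
private theorem cyc_V {V : ℕ → L} (hV : Sq V) (n : ℕ) : ‖V n‖ = ‖V 0‖ ^ 2 ^ n := by
  induction n with
  | zero => simp
  | succ n ih => rw [hV.succ, norm_pow, ih, ← pow_mul, pow_succ]

omit [IsUltrametricDist L] [CharZero L] in
private theorem cyc_V_lt {V : ℕ → L} (hV : Sq V) (n : ℕ) : 1 < ‖V n‖ := by
  rw [cyc_V hV]
  exact one_lt_pow₀ hV.one_lt (pow_ne_zero _ two_ne_zero)

omit [IsUltrametricDist L] [CharZero L] in
private theorem cyc_V_mono {V : ℕ → L} (hV : Sq V) {n m : ℕ} (h : n ≤ m) : ‖V n‖ ≤ ‖V m‖ := by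
  rw [cyc_V hV n, cyc_V hV m]
  exact pow_le_pow_right₀ hV.one_lt.le (Nat.pow_le_pow_right (by norm_num) h)

omit [IsUltrametricDist L] [CharZero L] in
private theorem cyc_small {V : ℕ → L} (hV : Sq V) {C : ℝ} (hC : 0 < C) {ε : ℝ} (hε : 0 < ε) :
    ∃ n₀ : ℕ, ∀ n, n₀ ≤ n → C / ‖V n‖ < ε := by
  have h0 : 0 < ‖V 0‖ := zero_lt_one.trans hV.one_lt
  obtain ⟨n₀, h⟩ := per_small hC (inv_pos.2 h0) (inv_lt_one_of_one_lt₀ hV.one_lt) hε
  refine ⟨n₀, fun n hn => ?_⟩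
  rw [cyc_V hV, div_eq_mul_inv, ← inv_pow]
  exact h n hn

omit [CharZero L] in
private theorem cyc_add {a b : L} {r : ℝ} (ha : ‖a‖ < r) (hb : ‖b‖ < r) : ‖a + b‖ < r :=
  (IsUltrametricDist.norm_add_le_max _ _).trans_lt (max_lt ha hb)

omit [CharZero L] in
private theorem cyc_add_le {a b : L} {r : ℝ} (ha : ‖a‖ ≤ r) (hb : ‖b‖ ≤ r) : ‖a + b‖ ≤ r :=
  (IsUltrametricDist.norm_add_le_max _ _).trans (max_le ha hb)

omit [CharZero L] in
private theorem cyc_pow {a b : L} (ha : ‖a‖ ≤ 1) (hb : ‖b‖ ≤ 1) (h : ‖a - b‖ < 1) (k : ℕ) :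
    ‖a ^ k - b ^ k‖ < 1 := by
  induction k with
  | zero => simp
  | succ k ih =>
    have e : a ^ (k + 1) - b ^ (k + 1) = a ^ k * (a - b) + (a ^ k - b ^ k) * b := by ring
    rw [e]
    refine cyc_add ?_ ?_
    · rw [norm_mul, norm_pow]
      exact (mul_le_of_le_one_left (norm_nonneg _) (pow_le_one₀ (norm_nonneg _) ha)).trans_lt h
    · rw [norm_mul]
      exact (mul_le_of_le_one_right (norm_nonneg _) hb).trans_lt ih

omit [CharZero L] in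
/-- the reduction: every second iterate is the fourth power modulo the maximal ideal -/
private theorem cyc_red (h2 : ‖(2 : L)‖ < 1) {s ξ : ℕ → L} (hs : ∀ n, ‖s n‖ ≤ 1)
    (hrec : ∀ n, s (n + 1) = s n ^ 2 + ξ n) {n₀ : ℕ} (hξ : ∀ n, n₀ ≤ n → ‖ξ n - 1‖ < 1) (j : ℕ) :
    ‖s (n₀ + 2 * j) - s n₀ ^ 4 ^ j‖ < 1 := by
  induction j with
  | zero => simp
  | succ j ih =>
    obtain ⟨m, hm⟩ : ∃ m, m = n₀ + 2 * j := ⟨_, rfl⟩
    rw [← hm] at ih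
    have hmn : n₀ ≤ m := by omega
    have e0 : n₀ + 2 * (j + 1) = m + 1 + 1 := by omega
    obtain ⟨u, hu⟩ : ∃ u, u = s m := ⟨_, rfl⟩
    obtain ⟨x, hx⟩ : ∃ x, x = ξ m - 1 := ⟨_, rfl⟩
    obtain ⟨y, hy⟩ : ∃ y, y = ξ (m + 1) - 1 := ⟨_, rfl⟩
    have hx1 : ‖x‖ < 1 := by rw [hx]; exact hξ m hmn
    have hy1 : ‖y‖ < 1 := by rw [hy]; exact hξ (m + 1) (by omega)
    have hu1 : ‖u‖ ≤ 1 := by rw [hu]; exact hs m
    have e1 : s (m + 1 + 1) = (u ^ 2 + (x + 1)) ^ 2 + (y + 1) := by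
      rw [hrec, hrec, hx, hy, hu]
      ring
    have e2 : s (m + 1 + 1) - s n₀ ^ 4 ^ (j + 1) =
        (u ^ 4 - (s n₀ ^ 4 ^ j) ^ 4) + (2 * (u ^ 2 + 1) + (x * (2 * u ^ 2 + 2 + x) + y)) := by
      rw [e1, pow_succ 4 j, pow_mul]
      ring
    rw [e0, e2]
    have hp : ‖s n₀ ^ 4 ^ j‖ ≤ 1 := by
      rw [norm_pow]
      exact pow_le_one₀ (norm_nonneg _) (hs n₀)
    have hone : ‖(1 : L)‖ ≤ 1 := norm_one.le
    have hu2 : ‖u ^ 2‖ ≤ 1 := by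
      rw [norm_pow]
      exact pow_le_one₀ (norm_nonneg _) hu1
    refine cyc_add ?_ (cyc_add ?_ (cyc_add ?_ hy1))
    · exact cyc_pow hu1 hp (by rw [hu]; exact ih) 4
    · rw [norm_mul]
      exact (mul_le_of_le_one_right (norm_nonneg _) (cyc_add_le hu2 hone)).trans_lt h2
    · rw [norm_mul]
      refine (mul_le_of_le_one_right (norm_nonneg _) ?_).trans_lt hx1
      refine cyc_add_le (cyc_add_le ?_ h2.le) hx1.le
      rw [norm_mul]
      exact mul_le_one₀ h2.le (norm_nonneg _) hu2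

omit [CharZero L] in
/-- a period for the reduction -/
private theorem cyc_period (h2 : ‖(2 : L)‖ < 1)
    (hfr : ∀ u : L, ‖u‖ = 1 → ∃ f : ℕ, 0 < f ∧ ‖u ^ (2 ^ f - 1) - 1‖ < 1) {s ξ : ℕ → L}
    (hs : ∀ n, ‖s n‖ ≤ 1) (hrec : ∀ n, s (n + 1) = s n ^ 2 + ξ n) {n₀ : ℕ}
    (hξ : ∀ n, n₀ ≤ n → ‖ξ n - 1‖ < 1) : ∃ M, 0 < M ∧ ‖s (n₀ + M) - s n₀‖ < 1 := by
  obtain ⟨u, hu⟩ : ∃ u, u = s n₀ := ⟨_, rfl⟩
  have hu1 : ‖u‖ ≤ 1 := by rw [hu]; exact hs n₀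
  rcases lt_or_eq_of_le hu1 with h1 | h1
  · refine ⟨2 * 1, by norm_num, ?_⟩
    have h3 := cyc_red h2 hs hrec hξ 1
    rw [← hu] at h3 ⊢
    have e : s (n₀ + 2 * 1) - u = (s (n₀ + 2 * 1) - u ^ 4 ^ 1) + (u ^ 4 + -u) := by ring
    rw [e]
    refine cyc_add h3 (cyc_add ?_ (by rw [norm_neg]; exact h1))
    rw [norm_pow]
    exact pow_lt_one₀ (norm_nonneg _) h1 (by norm_num)
  · obtain ⟨f, hf, hf2⟩ := hfr u h1
    refine ⟨2 * f, by omega, ?_⟩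
    have h3 := cyc_red h2 hs hrec hξ f
    rw [← hu] at h3 ⊢
    have h4 : ‖u ^ 2 ^ f - u‖ < 1 := by
      have e : u ^ 2 ^ f - u = u * (u ^ (2 ^ f - 1) - 1) := by
        have : 2 ^ f = 2 ^ f - 1 + 1 := by
          have := Nat.one_le_two_pow (n := f)
          omega
        conv_lhs => rw [this, pow_succ]
        ring
      rw [e, norm_mul, h1, one_mul]
      exact hf2
    have h5 : ‖u ^ 2 ^ f‖ ≤ 1 := by
      rw [norm_pow]
      exact pow_le_one₀ (norm_nonneg _) hu1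
    have h6 := cyc_pow h5 hu1 h4 (2 ^ f)
    have e : s (n₀ + 2 * f) - u = (s (n₀ + 2 * f) - u ^ 4 ^ f) +
        (((u ^ 2 ^ f) ^ 2 ^ f - u ^ 2 ^ f) + (u ^ 2 ^ f - u)) := by
      have : (u ^ 2 ^ f) ^ 2 ^ f = u ^ 4 ^ f := by
        rw [← pow_mul, ← mul_pow, show 2 * 2 = 4 from rfl]
      rw [this]
      ring
    rw [e]
    exact cyc_add h3 (cyc_add h6 h4)

omit [CharZero L] in
/-- the differences at distance `M` tend to zero -/
private theorem cyc_diff (h2 : ‖(2 : L)‖ < 1) {s ξ V : ℕ → L} (hV : Sq V) (hs : ∀ n, ‖s n‖ ≤ 1)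
    (hrec : ∀ n, s (n + 1) = s n ^ 2 + ξ n) {C : ℝ} (hC : 0 < C)
    (hξ : ∀ n, ‖ξ n - 1‖ ≤ C / ‖V n‖) {n₀ M : ℕ} (hn₀ : ∀ n, n₀ ≤ n → C / ‖V n‖ < 1)
    (hM : ‖s (n₀ + M) - s n₀‖ < 1) {ε : ℝ} (hε : 0 < ε) :
    ∃ N, ∀ n, N ≤ n → ‖s (n + M) - s n‖ ≤ ε := by
  have hmono : ∀ {n m : ℕ}, n ≤ m → C / ‖V m‖ ≤ C / ‖V n‖ := by
    intro n m h
    exact div_le_div_of_nonneg_left hC.le (zero_lt_one.trans (cyc_V_lt hV n)) (cyc_V_mono hV h)
  obtain ⟨θ, hθ⟩ : ∃ θ : ℝ, θ = max ‖(2 : L)‖ (max ‖s (n₀ + M) - s n₀‖ (C / ‖V n₀‖)) := ⟨_, rfl⟩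
  have hθ1 : θ < 1 := by
    rw [hθ]
    exact max_lt h2 (max_lt hM (hn₀ n₀ le_rfl))
  have hθ2 : ‖(2 : L)‖ ≤ θ := by rw [hθ]; exact le_max_left _ _
  have hθ3 : ‖s (n₀ + M) - s n₀‖ ≤ θ := by
    rw [hθ]; exact (le_max_left _ _).trans (le_max_right _ _)
  have hθ4 : C / ‖V n₀‖ ≤ θ := by
    rw [hθ]; exact (le_max_right _ _).trans (le_max_right _ _)
  have hθ0 : 0 ≤ θ := (norm_nonneg _).trans hθ2
  have hstep : ∀ n, ‖s (n + M) - s n‖ ≤ θ →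
      ‖s (n + 1 + M) - s (n + 1)‖ ≤ max (θ * ‖s (n + M) - s n‖) (C / ‖V n‖) := by
    intro n hn
    have e : s (n + 1 + M) - s (n + 1) = (s (n + M) - s n) * (2 * s n + (s (n + M) - s n)) +
        ((ξ (n + M) - 1) + -(ξ n - 1)) := by
      rw [show n + 1 + M = n + M + 1 by ring, hrec, hrec]
      ring
    rw [e]
    refine (IsUltrametricDist.norm_add_le_max _ _).trans (max_le_max ?_ ?_)
    · rw [norm_mul, mul_comm]
      refine mul_le_mul_of_nonneg_right (cyc_add_le ?_ hn) (norm_nonneg _)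
      rw [norm_mul]
      exact (mul_le_of_le_one_right (norm_nonneg _) (hs n)).trans hθ2
    · refine cyc_add_le ((hξ _).trans (hmono (Nat.le_add_right _ _))) ?_
      rw [norm_neg]
      exact hξ n
  have hle : ∀ k, ‖s (n₀ + k + M) - s (n₀ + k)‖ ≤ θ := by
    intro k
    induction k with
    | zero => exact hθ3
    | succ k ih =>
      refine (hstep (n₀ + k) ih).trans (max_le ?_ ?_)
      · exact (mul_le_of_le_one_left (norm_nonneg _) hθ1.le).trans ih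
      · exact (hmono (Nat.le_add_right _ _)).trans hθ4
  obtain ⟨n₁, hn₁⟩ := cyc_small hV hC hε
  obtain ⟨k₀, hk₀⟩ := exists_pow_lt_of_lt_one hε hθ1
  obtain ⟨m, hm⟩ : ∃ m, m = max n₀ n₁ := ⟨_, rfl⟩
  have key : ∀ k, ‖s (m + k + M) - s (m + k)‖ ≤ max (θ ^ k) ε := by
    intro k
    induction k with
    | zero =>
      rw [pow_zero]
      refine le_trans ?_ (le_max_left _ _)
      obtain ⟨i, hi⟩ : ∃ i, m = n₀ + i := ⟨m - n₀, by omega⟩
      rw [add_zero, hi]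
      exact (hle i).trans hθ1.le
    | succ k ih =>
      obtain ⟨i, hi⟩ : ∃ i, m + k = n₀ + i := ⟨m + k - n₀, by omega⟩
      have h1 : ‖s (m + k + M) - s (m + k)‖ ≤ θ := by
        rw [hi]
        exact hle i
      have h3 := hstep (m + k) h1
      have h4 : C / ‖V (m + k)‖ ≤ ε := (hn₁ _ (by omega)).le
      refine h3.trans (max_le ?_ (h4.trans (le_max_right _ _)))
      rcases le_total (θ ^ k) ε with h5 | h5
      · rw [max_eq_right h5] at ih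
        exact ((mul_le_of_le_one_left (norm_nonneg _) hθ1.le).trans ih).trans (le_max_right _ _)
      · rw [max_eq_left h5] at ih
        refine le_trans ?_ (le_max_left _ _)
        rw [pow_succ']
        exact mul_le_mul_of_nonneg_left ih hθ0
  refine ⟨m + k₀, fun n hn => ?_⟩
  obtain ⟨i, hi⟩ : ∃ i, n = m + i := ⟨n - m, by omega⟩
  rw [hi]
  refine (key i).trans (max_le ?_ le_rfl)
  exact (pow_le_pow_of_le_one hθ0 hθ1.le (by omega)).trans hk₀.le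

omit [CharZero L] in
private theorem cyc_mul {s : ℕ → L} {M N : ℕ} {ε : ℝ} (hε : 0 ≤ ε)
    (h : ∀ n, N ≤ n → ‖s (n + M) - s n‖ ≤ ε) {n : ℕ} (hn : N ≤ n) (j : ℕ) :
    ‖s (n + j * M) - s n‖ ≤ ε := by
  induction j with
  | zero => simpa using hε
  | succ j ih =>
    have e : s (n + (j + 1) * M) - s n =
        (s (n + j * M + M) - s (n + j * M)) + (s (n + j * M) - s n) := by
      rw [show n + (j + 1) * M = n + j * M + M by ring]
      ring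
    rw [e]
    exact cyc_add_le (h _ (hn.trans (Nat.le_add_right _ _))) ih

theorem bd_cycle [CompleteSpace L] (h2 : ‖(2 : L)‖ < 1)
    (hfr : ∀ u : L, ‖u‖ = 1 → ∃ f : ℕ, 0 < f ∧ ‖u ^ (2 ^ f - 1) - 1‖ < 1) {s ξ V : ℕ → L}
    (hV : Sq V) (hs : ∀ n, ‖s n‖ ≤ 1) (hrec : ∀ n, s (n + 1) = s n ^ 2 + ξ n) {C : ℝ}
    (hξ : ∀ n, ‖ξ n - 1‖ ≤ C / ‖V n‖) :
    ∃ (M : ℕ) (σ : ℕ → L), 0 < M ∧ (∀ n, σ (n + M) = σ n) ∧ (∀ n, σ (n + 1) = σ n ^ 2 + 1) ∧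
      (∀ n, σ n ≠ 0) ∧ (∀ n, ‖σ n‖ ≤ 1) ∧
      (∀ ε : ℝ, 0 < ε → ∃ n₀ : ℕ, ∀ n, n₀ ≤ n → ‖s n - σ n‖ < ε) ∧
      ((∃ C' : ℝ, ∀ n, ‖s n - σ n‖ ≤ C' / ‖V n‖) ∨
        ∃ (θ : ℝ) (n₀ : ℕ), 0 < θ ∧ ∀ n, n₀ ≤ n → θ ^ (n + 1) ≤ ‖s n - σ n‖) := by
  -- a positive constant
  obtain ⟨K, hK⟩ : ∃ K : ℝ, K = max C 1 := ⟨_, rfl⟩
  have hK0 : 0 < K := by rw [hK]; exact lt_max_of_lt_right one_pos
  have hVpos : ∀ n, 0 < ‖V n‖ := fun n => zero_lt_one.trans (cyc_V_lt hV n)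
  have hξ' : ∀ n, ‖ξ n - 1‖ ≤ K / ‖V n‖ := by
    intro n
    refine (hξ n).trans (div_le_div_of_nonneg_right ?_ (hVpos n).le)
    rw [hK]
    exact le_max_left _ _
  obtain ⟨n₀, hn₀⟩ := cyc_small hV hK0 one_pos
  obtain ⟨M, hM0, hM⟩ := cyc_period h2 hfr hs hrec
    (fun n hn => (hξ' n).trans_lt (hn₀ n hn) : ∀ n, n₀ ≤ n → ‖ξ n - 1‖ < 1)
  have hd : ∀ ε : ℝ, 0 < ε → ∃ N, ∀ n, N ≤ n → ∀ j, ‖s (n + j * M) - s n‖ ≤ ε := by
    intro ε hε
    obtain ⟨N, hN⟩ := cyc_diff h2 hV hs hrec hK0 hξ' hn₀ hM hε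
    exact ⟨N, fun n hn j => cyc_mul hε.le hN hn j⟩
  -- the limit
  have hlim : ∀ n, ∃ x, Filter.Tendsto (fun j => s (n + j * M)) Filter.atTop (nhds x) := by
    intro n
    apply cauchySeq_tendsto_of_complete
    rw [Metric.cauchySeq_iff']
    intro ε hε
    obtain ⟨N, hN⟩ := hd (ε / 2) (half_pos hε)
    refine ⟨N, fun j hj => ?_⟩
    obtain ⟨i, rfl⟩ : ∃ i, j = N + i := ⟨j - N, by omega⟩
    have h1 := hN (n + N * M) (by nlinarith) i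
    rw [dist_eq_norm, show n + (N + i) * M = n + N * M + i * M by ring]
    linarith
  choose σ hσ using hlim
  have hper : ∀ n, σ (n + M) = σ n := by
    intro n
    have h1 := (hσ n).comp (Filter.tendsto_add_atTop_nat 1)
    refine tendsto_nhds_unique (hσ (n + M)) ?_
    refine h1.congr fun j => ?_
    rw [Function.comp_apply, show n + (j + 1) * M = n + M + j * M by ring]
  have htop : ∀ n, Filter.Tendsto (fun j : ℕ => n + j * M) Filter.atTop Filter.atTop := by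
    intro n
    refine Filter.tendsto_atTop_mono (fun j => ?_) Filter.tendsto_id
    show j ≤ n + j * M
    nlinarith
  have hξlim : ∀ n, Filter.Tendsto (fun j => ξ (n + j * M)) Filter.atTop (nhds 1) := by
    intro n
    rw [Metric.tendsto_atTop]
    intro ε hε
    obtain ⟨N, hN⟩ := cyc_small hV hK0 hε
    refine ⟨N, fun j hj => ?_⟩
    rw [dist_eq_norm]
    exact (hξ' _).trans_lt (hN _ (by nlinarith))
  have hrecσ : ∀ n, σ (n + 1) = σ n ^ 2 + 1 := by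
    intro n
    refine tendsto_nhds_unique (hσ (n + 1)) ?_
    refine (((hσ n).pow 2).add (hξlim n)).congr fun j => ?_
    rw [show n + 1 + j * M = n + j * M + 1 by ring, hrec]
  have hne : ∀ n, σ n ≠ 0 := nz_one hM0 hper hrecσ
  have hσ1 : ∀ n, ‖σ n‖ ≤ 1 := fun n =>
    le_of_tendsto (hσ n).norm (Filter.Eventually.of_forall fun j => hs _)
  have hclose : ∀ ε : ℝ, 0 < ε → ∃ N : ℕ, ∀ n, N ≤ n → ‖s n - σ n‖ < ε := by
    intro ε hε
    obtain ⟨N, hN⟩ := hd (ε / 2) (half_pos hε)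
    refine ⟨N, fun n hn => ?_⟩
    have h1 : ‖σ n - s n‖ ≤ ε / 2 :=
      le_of_tendsto ((hσ n).sub_const (s n)).norm (Filter.Eventually.of_forall fun j => hN n hn j)
    rw [norm_sub_rev]
    linarith
  refine ⟨M, σ, hM0, hper, hrecσ, hne, hσ1, hclose, ?_⟩
  -- the dichotomy
  obtain ⟨μ, hμ0, hμ⟩ : ∃ μ : ℝ, 0 < μ ∧ ∀ n, μ ≤ ‖2 * σ n‖ := by
    have h20 : (0 : ℝ) < ‖(2 : L)‖ := norm_pos_iff.2 two_ne_zero
    obtain ⟨k, -, hk⟩ := Finset.exists_min_image (Finset.range M) (fun n => ‖σ n‖)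
      ⟨0, Finset.mem_range.2 hM0⟩
    refine ⟨‖(2 : L)‖ * ‖σ k‖, mul_pos h20 (norm_pos_iff.2 (hne k)), fun n => ?_⟩
    rw [norm_mul]
    refine mul_le_mul_of_nonneg_left ?_ h20.le
    have hp : Function.Periodic σ M := hper
    rw [← hp.map_mod_nat n]
    exact hk _ (Finset.mem_range.2 (Nat.mod_lt _ hM0))
  obtain ⟨n₁, hn₁⟩ := hclose μ hμ0
  obtain ⟨n₂, hn₂⟩ := cyc_small hV one_pos hμ0
  obtain ⟨m, hm⟩ : ∃ m, m = max n₁ n₂ := ⟨_, rfl⟩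
  have hD : ∀ n, s (n + 1) - σ (n + 1) =
      (s n - σ n) * (2 * σ n + (s n - σ n)) + (ξ n - 1) := by
    intro n
    rw [hrec, hrecσ]
    ring
  have hstep : ∀ n, m ≤ n → K / ‖V n‖ < μ * ‖s n - σ n‖ →
      μ * ‖s n - σ n‖ ≤ ‖s (n + 1) - σ (n + 1)‖ ∧
      K / ‖V (n + 1)‖ < μ * ‖s (n + 1) - σ (n + 1)‖ := by
    intro n hn h1
    have h3 : ‖2 * σ n + (s n - σ n)‖ = ‖2 * σ n‖ := by
      have h4 : ‖s n - σ n‖ < ‖2 * σ n‖ := (hn₁ n (by omega)).trans_le (hμ n)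
      rw [IsUltrametricDist.norm_add_eq_max_of_norm_ne_norm h4.ne']
      exact max_eq_left h4.le
    have h5 : μ * ‖s n - σ n‖ ≤ ‖(s n - σ n) * (2 * σ n + (s n - σ n))‖ := by
      rw [norm_mul, h3, mul_comm]
      exact mul_le_mul_of_nonneg_left (hμ n) (norm_nonneg _)
    have h6 : ‖ξ n - 1‖ < ‖(s n - σ n) * (2 * σ n + (s n - σ n))‖ :=
      ((hξ' n).trans_lt h1).trans_le h5
    have h7 : ‖s (n + 1) - σ (n + 1)‖ = ‖(s n - σ n) * (2 * σ n + (s n - σ n))‖ := by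
      rw [hD, IsUltrametricDist.norm_add_eq_max_of_norm_ne_norm h6.ne']
      exact max_eq_left h6.le
    have h8 : μ * ‖s n - σ n‖ ≤ ‖s (n + 1) - σ (n + 1)‖ := by rw [h7]; exact h5
    refine ⟨h8, ?_⟩
    have h9 : 1 / ‖V n‖ < μ := hn₂ n (by omega)
    have h10 : K / ‖V (n + 1)‖ = (1 / ‖V n‖) * (K / ‖V n‖) := by
      rw [hV.succ, norm_pow]
      field_simp
    rw [h10]
    exact mul_lt_mul'' h9 (h1.trans_le h8) (by positivity) (by positivity)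
  by_cases hex : ∃ n, m ≤ n ∧ K / ‖V n‖ < μ * ‖s n - σ n‖
  · right
    obtain ⟨n, hn, h1⟩ := hex
    have hall : ∀ k, K / ‖V (n + k)‖ < μ * ‖s (n + k) - σ (n + k)‖ ∧
        μ ^ k * ‖s n - σ n‖ ≤ ‖s (n + k) - σ (n + k)‖ := by
      intro k
      induction k with
      | zero => exact ⟨h1, by rw [pow_zero, one_mul]; exact le_rfl⟩
      | succ k ih =>
        obtain ⟨h3, h4⟩ := hstep (n + k) (by omega) ih.1
        refine ⟨h4, ?_⟩
        rw [pow_succ', mul_assoc]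
        exact (mul_le_mul_of_nonneg_left ih.2 hμ0.le).trans h3
    have hDn : 0 < ‖s n - σ n‖ := by
      by_contra hcon
      have h3 : ‖s n - σ n‖ = 0 := le_antisymm (not_lt.1 hcon) (norm_nonneg _)
      rw [h3, mul_zero] at h1
      exact absurd (div_pos hK0 (hVpos n)) (not_lt.2 h1.le)
    obtain ⟨θ, hθ⟩ : ∃ θ : ℝ, θ = min μ (min 1 ‖s n - σ n‖) := ⟨_, rfl⟩
    have hθ0 : 0 < θ := by
      rw [hθ]
      exact lt_min hμ0 (lt_min one_pos hDn)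
    have hθ1 : θ ≤ 1 := by rw [hθ]; exact (min_le_right _ _).trans (min_le_left _ _)
    have hθμ : θ ≤ μ := by rw [hθ]; exact min_le_left _ _
    have hθD : θ ≤ ‖s n - σ n‖ := by rw [hθ]; exact (min_le_right _ _).trans (min_le_right _ _)
    refine ⟨θ, n, hθ0, fun k hk => ?_⟩
    obtain ⟨i, rfl⟩ : ∃ i, k = n + i := ⟨k - n, by omega⟩
    calc θ ^ (n + i + 1) ≤ θ ^ (i + 1) := pow_le_pow_of_le_one hθ0.le hθ1 (by omega)
      _ = θ ^ i * θ := pow_succ _ _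
      _ ≤ μ ^ i * ‖s n - σ n‖ := by gcongr
      _ ≤ _ := (hall i).2
  · left
    push Not at hex
    refine ⟨K / μ + ∑ i ∈ Finset.range m, ‖s i - σ i‖ * ‖V i‖, fun n => ?_⟩
    have hsum : 0 ≤ ∑ i ∈ Finset.range m, ‖s i - σ i‖ * ‖V i‖ :=
      Finset.sum_nonneg fun i _ => by positivity
    rw [le_div_iff₀ (hVpos n)]
    by_cases hn : m ≤ n
    · have h1 := hex n hn
      have h3 : ‖s n - σ n‖ * ‖V n‖ ≤ K / μ := by
        rw [le_div_iff₀ hμ0]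
        rw [le_div_iff₀ (hVpos n)] at h1
        linarith
      linarith
    · push Not at hn
      have h1 : ‖s n - σ n‖ * ‖V n‖ ≤ ∑ i ∈ Finset.range m, ‖s i - σ i‖ * ‖V i‖ :=
        Finset.single_le_sum (f := fun i => ‖s i - σ i‖ * ‖V i‖)
          (fun i _ => by positivity) (Finset.mem_range.2 hn)
      have h3 : 0 ≤ K / μ := by positivity
      linarith

end Pool.Agent.GSF
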