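import Pool.Agent.Lib.MP_e9abfe_ag_GSF.Defs
import Pool.Agent.Lib.MP_e9abfe_ag_GSF.BdExp
import Pool.Agent.Lib.MP_e9abfe_ag_GSF.Cyc
import Pool.Agent.Lib.MP_e9abfe_ag_DMC.Flat

/-!
# Project GSF (MP_e9abfe_ag), module G12: the dichotomy for orbits with a bounded coordinate
-/

set_option autoImplicit false

namespace Pool.Agent.GSF

open MvPolynomial
open Pool.Agent.DMC
open Pool.Agent.MP_e9abfe (Phi pull)

variable {L : Type} [NormedField L] [IsUltrametricDist L] [CharZero L]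

theorem BdDich_lim (b q : ℝ) (hb : 0 < b) (hq : 0 ≤ q) (hq1 : q < 1)
    (δ K : ℝ) (hδ : 0 < δ) (hK : 0 ≤ K) :
    ∃ n₀ : ℕ, ∀ n, n₀ ≤ n → K * q ^ 2 ^ n ≤ δ * b ^ n := by
  obtain ⟨j, hj⟩ := pow_unbounded_of_one_lt (b⁻¹) (one_lt_two (α := ℝ))
  have h1 : 1 ≤ b * 2 ^ j := by
    rw [← inv_mul_le_iff₀ hb, mul_one]
    exact hj.le
  have ht1 : Filter.Tendsto (fun n : ℕ => (n : ℝ) ^ j * q ^ n) Filter.atTop (nhds 0) :=
    tendsto_pow_const_mul_const_pow_of_abs_lt_one j (by rwa [abs_of_nonneg hq])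
  have ht2 : Filter.Tendsto (fun n : ℕ => 2 ^ n) Filter.atTop Filter.atTop :=
    tendsto_pow_atTop_atTop_of_one_lt (by norm_num)
  have ht3 := (ht1.comp ht2).const_mul K
  rw [mul_zero] at ht3
  obtain ⟨n₀, hn₀⟩ := Filter.eventually_atTop.mp (ht3.eventually_le_const hδ)
  refine ⟨n₀, fun n hn => ?_⟩
  have h3 := hn₀ n hn
  simp only [Function.comp_apply, Nat.cast_pow, Nat.cast_ofNat] at h3
  have h4 : 1 ≤ b ^ n * ((2 : ℝ) ^ n) ^ j := by
    have := one_le_pow₀ h1 (n := n)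
    rw [mul_pow, ← pow_mul, mul_comm j n, pow_mul 2 n j] at this
    exact this
  have hqn : 0 ≤ q ^ 2 ^ n := pow_nonneg hq _
  calc K * q ^ 2 ^ n = K * q ^ 2 ^ n * 1 := (mul_one _).symm
    _ ≤ K * q ^ 2 ^ n * (b ^ n * ((2 : ℝ) ^ n) ^ j) :=
        mul_le_mul_of_nonneg_left h4 (mul_nonneg hK hqn)
    _ = K * (((2 : ℝ) ^ n) ^ j * q ^ 2 ^ n) * b ^ n := by ring
    _ ≤ δ * b ^ n := mul_le_mul_of_nonneg_right h3 (pow_nonneg hb.le _)

omit [IsUltrametricDist L] [CharZero L] in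
theorem BdDich_big {V : ℕ → L} (hV : Sq V) (K : ℝ) :
    ∃ n₀ : ℕ, ∀ n, n₀ ≤ n → K ≤ ‖V n‖ := by
  obtain ⟨m, hm⟩ := pow_unbounded_of_one_lt K hV.one_lt
  refine ⟨m, fun n hn => ?_⟩
  rw [Expa_norm hV]
  exact hm.le.trans (pow_le_pow_right₀ hV.one_lt.le (hn.trans Nat.lt_two_pow_self.le))

/-- the alternative of order `k` for `w` along a class -/
def BdDich_Ord (u : ℕ → L) (M r k : ℕ) (w : ℕ → L) : Prop :=
  (∃ C : ℝ, ∀ n, n % M = r → ‖w n‖ ≤ C * ‖u n‖ ^ k) ∨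
    ∃ (j : ℕ) (B c θ : ℝ) (n₀ : ℕ), 0 < c ∧ 0 < θ ∧
      (∀ n, n % M = r → ‖w n‖ ≤ B * ‖u n‖ ^ j) ∧
      ∀ n, n₀ ≤ n → n % M = r → c * θ ^ n * ‖u n‖ ^ j ≤ ‖w n‖

omit [IsUltrametricDist L] [CharZero L] in
theorem BdDich_dich {V : ℕ → L} (hV : Sq V) {M r : ℕ} {w : ℕ → L}
    (h : ∀ k, BdDich_Ord (fun n => (V n)⁻¹) M r k w) (D : ℕ) :
    Dich M r fun n => w n * V n ^ D := by
  intro ρ hρ
  set v : ℝ := ‖V 0‖ with hvdef
  have hv : 1 < v := hV.one_lt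
  have hv0 : 0 < v := one_pos.trans hv
  have hval : ∀ n i, ‖(V n)⁻¹‖ ^ i * ‖V n‖ ^ D = (v⁻¹ ^ i * v ^ D) ^ 2 ^ n := by
    intro n i
    rw [norm_inv, Expa_norm hV, ← hvdef, mul_pow, ← pow_mul, ← pow_mul, ← inv_pow, ← pow_mul,
      ← pow_mul, mul_comm i, mul_comm D]
  have hup : ∀ (i : ℕ) (C : ℝ), (∀ n, n % M = r → ‖w n‖ ≤ C * ‖(V n)⁻¹‖ ^ i) →
      v⁻¹ ^ i * v ^ D ≤ ρ → ∃ C' : ℝ, ∀ n, n % M = r → ‖w n * V n ^ D‖ ≤ C' * ρ ^ 2 ^ n := by
    intro i C hC hi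
    refine ⟨|C|, fun n hn => ?_⟩
    rw [norm_mul, norm_pow]
    have h1 : ‖w n‖ * ‖V n‖ ^ D ≤ |C| * ‖(V n)⁻¹‖ ^ i * ‖V n‖ ^ D := by
      refine mul_le_mul_of_nonneg_right ((hC n hn).trans ?_) (pow_nonneg (norm_nonneg _) _)
      exact mul_le_mul_of_nonneg_right (le_abs_self C) (pow_nonneg (norm_nonneg _) _)
    refine h1.trans ?_
    rw [mul_assoc, hval]
    refine mul_le_mul_of_nonneg_left ?_ (abs_nonneg C)
    exact pow_le_pow_left₀ (by positivity) hi _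
  obtain ⟨k, hk⟩ := pow_unbounded_of_one_lt (v ^ D / ρ) hv
  have hk' : v⁻¹ ^ k * v ^ D ≤ ρ := by
    rw [div_lt_iff₀ hρ] at hk
    rw [inv_pow, inv_mul_le_iff₀ (pow_pos hv0 k)]
    exact hk.le
  rcases h k with ⟨C, hC⟩ | ⟨j, B, c, θ, n₀, hc, hθ, hB, hlow⟩
  · exact Or.inl (hup k C hC hk')
  by_cases hj : v⁻¹ ^ j * v ^ D ≤ ρ
  · exact Or.inl (hup j B hB hj)
  right
  rw [not_le] at hj
  set lam : ℝ := v⁻¹ ^ j * v ^ D with hlam
  have hlam0 : 0 < lam := hρ.trans hj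
  have hρ' : 0 ≤ (lam + ρ) / 2 := by linarith
  obtain ⟨n₁, hn₁⟩ := BdDich_lim θ ((lam + ρ) / 2 / lam) hθ (div_nonneg hρ' hlam0.le)
    (by rw [div_lt_one hlam0]; linarith) c 1 hc zero_le_one
  refine ⟨(lam + ρ) / 2, by linarith, max n₀ n₁, fun n hn hr => ?_⟩
  have h1 := hlow n ((le_max_left _ _).trans hn) hr
  have h2 := hn₁ n ((le_max_right _ _).trans hn)
  have hlamn : 0 < lam ^ 2 ^ n := pow_pos hlam0 _
  rw [one_mul, div_pow, div_le_iff₀ hlamn] at h2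
  refine h2.trans ?_
  show c * θ ^ n * lam ^ 2 ^ n ≤ ‖w n * V n ^ D‖
  rw [hlam, ← hval, norm_mul, norm_pow, ← mul_assoc]
  exact mul_le_mul_of_nonneg_right h1 (pow_nonneg (norm_nonneg _) _)

omit [IsUltrametricDist L] [CharZero L] in
theorem BdDich_divX (P : Polynomial (Polynomial L)) (s u : L) :
    Polynomial.evalEval s u P =
      (P.coeff 0).eval s + u * Polynomial.evalEval s u P.divX := by
  conv_lhs => rw [← Polynomial.divX_mul_X_add P]
  rw [Polynomial.evalEval_add, Polynomial.evalEval_mul, Polynomial.evalEval_X,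
    Polynomial.evalEval_C]
  ring

omit [IsUltrametricDist L] [CharZero L] in
theorem BdDich_poly {V s w : ℕ → L} (hV : Sq V) (hs : ∀ n, ‖s n‖ ≤ 1) {M r k : ℕ}
    (H : Polynomial (Polynomial L))
    (hlow : ∀ a : Polynomial L, a ≠ 0 → ∀ i, a = H.coeff i → ∃ (c θ : ℝ) (n₀ : ℕ),
      0 < c ∧ 0 < θ ∧ ∀ n, n₀ ≤ n → n % M = r → c * θ ^ n ≤ ‖a.eval (s n)‖)
    {C : ℝ} (hC : ∀ n, n % M = r →
      ‖w n - Polynomial.evalEval (s n) (V n)⁻¹ H‖ ≤ C * ‖(V n)⁻¹‖ ^ k) :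
    BdDich_Ord (fun n => (V n)⁻¹) M r k w := by
  have hv : 1 < ‖V 0‖ := hV.one_lt
  have h1V : ∀ n, 1 < ‖V n‖ := Expa_one_lt hV
  have hu : ∀ n, ‖(V n)⁻¹‖ ≤ 1 := fun n => by
    rw [norm_inv]
    exact inv_le_one_of_one_le₀ (h1V n).le
  have hC' : ∀ n, n % M = r →
      ‖w n - Polynomial.evalEval (s n) (V n)⁻¹ H‖ ≤ |C| * ‖(V n)⁻¹‖ ^ k := fun n hn =>
    (hC n hn).trans (mul_le_mul_of_nonneg_right (le_abs_self C) (pow_nonneg (norm_nonneg _) _))
  by_cases hd : Polynomial.X ^ k ∣ H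
  · left
    obtain ⟨Q, rfl⟩ := hd
    obtain ⟨B, hB, hb⟩ := BdExp_bd Q
    refine ⟨|C| + B, fun n hn => ?_⟩
    have h1 := hC' n hn
    have h2 : ‖Polynomial.evalEval (s n) (V n)⁻¹ (Polynomial.X ^ k * Q)‖ ≤
        B * ‖(V n)⁻¹‖ ^ k := by
      rw [Polynomial.evalEval_mul, Polynomial.evalEval_pow, Polynomial.evalEval_X, norm_mul,
        norm_pow, mul_comm]
      exact mul_le_mul_of_nonneg_right (hb _ _ (hs n) (hu n)) (pow_nonneg (norm_nonneg _) _)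
    have h3 := norm_add_le (w n - Polynomial.evalEval (s n) (V n)⁻¹ (Polynomial.X ^ k * Q))
      (Polynomial.evalEval (s n) (V n)⁻¹ (Polynomial.X ^ k * Q))
    rw [sub_add_cancel] at h3
    rw [add_mul]
    linarith
  · right
    -- the first order which does not divide
    obtain ⟨j, hjk, Q, hQ, hQ0⟩ : ∃ j, j + 1 ≤ k ∧ ∃ Q, H = Polynomial.X ^ j * Q ∧
        Q.coeff 0 ≠ 0 := by
      classical
      have hex : ∃ m, ¬ (Polynomial.X ^ m : Polynomial (Polynomial L)) ∣ H := ⟨k, hd⟩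
      have h0 : Nat.find hex ≠ 0 := by
        intro h0
        have := Nat.find_spec hex
        rw [h0, pow_zero] at this
        exact this (one_dvd H)
      obtain ⟨j, hj⟩ := Nat.exists_eq_succ_of_ne_zero h0
      have hjd : (Polynomial.X ^ j : Polynomial (Polynomial L)) ∣ H := by
        by_contra hcon
        have := Nat.find_min' hex hcon
        omega
      obtain ⟨Q, hQ⟩ := hjd
      refine ⟨j, ?_, Q, hQ, fun hQ0 => ?_⟩
      · have := Nat.find_min' hex hd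
        omega
      · have h1 := Nat.find_spec hex
        rw [hj] at h1
        apply h1
        obtain ⟨R, hR⟩ := Polynomial.X_dvd_iff.2 hQ0
        rw [hQ, hR]
        exact ⟨R, by rw [Nat.succ_eq_add_one, pow_succ, mul_assoc]⟩
    obtain ⟨c, θ, n₀, hc, hθ, hlo⟩ := hlow (Q.coeff 0) hQ0 j (by
      rw [hQ, ← Polynomial.coeff_X_pow_mul Q j 0, zero_add])
    obtain ⟨B, hB, hb⟩ := BdExp_bd Q
    obtain ⟨B', hB', hb'⟩ := BdExp_bd Q.divX
    have hq0 : 0 ≤ ‖V 0‖⁻¹ := inv_nonneg.2 (norm_nonneg _)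
    have hq1 : ‖V 0‖⁻¹ < 1 := inv_lt_one_of_one_lt₀ hv
    obtain ⟨n₁, hn₁⟩ := BdDich_lim θ ‖V 0‖⁻¹ hθ hq0 hq1 (c / 2) (B' + |C|) (half_pos hc)
      (add_nonneg hB' (abs_nonneg C))
    have hH : ∀ n, Polynomial.evalEval (s n) (V n)⁻¹ H =
        (V n)⁻¹ ^ j * Polynomial.evalEval (s n) (V n)⁻¹ Q := fun n => by
      rw [hQ, Polynomial.evalEval_mul, Polynomial.evalEval_pow, Polynomial.evalEval_X]
    have hkj : ∀ n, ‖(V n)⁻¹‖ ^ k ≤ ‖(V n)⁻¹‖ ^ (j + 1) := fun n =>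
      pow_le_pow_of_le_one (norm_nonneg _) (hu n) hjk
    have hkj' : ∀ n, ‖(V n)⁻¹‖ ^ k ≤ ‖(V n)⁻¹‖ ^ j := fun n =>
      pow_le_pow_of_le_one (norm_nonneg _) (hu n) (by omega)
    refine ⟨j, |C| + B, c / 2, θ, max n₀ n₁, half_pos hc, hθ, fun n hn => ?_,
      fun n hn hr => ?_⟩
    · have h1 := hC' n hn
      have h2 : ‖Polynomial.evalEval (s n) (V n)⁻¹ H‖ ≤ B * ‖(V n)⁻¹‖ ^ j := by
        rw [hH, norm_mul, norm_pow, mul_comm]
        exact mul_le_mul_of_nonneg_right (hb _ _ (hs n) (hu n)) (pow_nonneg (norm_nonneg _) _)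
      have h3 := norm_add_le (w n - Polynomial.evalEval (s n) (V n)⁻¹ H)
        (Polynomial.evalEval (s n) (V n)⁻¹ H)
      rw [sub_add_cancel] at h3
      have h4 := mul_le_mul_of_nonneg_left (hkj' n) (abs_nonneg C)
      show ‖w n‖ ≤ (|C| + B) * ‖(V n)⁻¹‖ ^ j
      rw [add_mul]
      linarith
    · have h1 := hC' n hr
      have h2 := hlo n ((le_max_left _ _).trans hn) hr
      have h3 := hn₁ n ((le_max_right _ _).trans hn)
      have hun : ‖(V n)⁻¹‖ = ‖V 0‖⁻¹ ^ 2 ^ n := by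
        rw [norm_inv, Expa_norm hV, inv_pow]
      rw [← hun] at h3
      set U : ℝ := ‖(V n)⁻¹‖ with hU
      have hU0 : 0 ≤ U := norm_nonneg _
      have h4 : ‖(Q.coeff 0).eval (s n)‖ ≤ ‖Polynomial.evalEval (s n) (V n)⁻¹ Q‖ + B' * U := by
        have h5 : (Q.coeff 0).eval (s n) = Polynomial.evalEval (s n) (V n)⁻¹ Q -
            (V n)⁻¹ * Polynomial.evalEval (s n) (V n)⁻¹ Q.divX := by
          rw [BdDich_divX Q]
          ring
        rw [h5]
        refine (norm_sub_le _ _).trans ?_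
        rw [norm_mul, mul_comm ‖(V n)⁻¹‖]
        have := mul_le_mul_of_nonneg_right (hb' _ _ (hs n) (hu n)) hU0
        linarith
      have h5 : U ^ j * ‖Polynomial.evalEval (s n) (V n)⁻¹ Q‖ ≤ ‖w n‖ + |C| * U ^ (j + 1) := by
        have h6 : (V n)⁻¹ ^ j * Polynomial.evalEval (s n) (V n)⁻¹ Q =
            w n - (w n - Polynomial.evalEval (s n) (V n)⁻¹ H) := by
          rw [hH]
          ring
        have h7 : U ^ j * ‖Polynomial.evalEval (s n) (V n)⁻¹ Q‖ =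
            ‖w n - (w n - Polynomial.evalEval (s n) (V n)⁻¹ H)‖ := by
          rw [← h6, norm_mul, norm_pow]
        rw [h7]
        refine (norm_sub_le _ _).trans ?_
        have := mul_le_mul_of_nonneg_left (hkj n) (abs_nonneg C)
        linarith
      have hUj : 0 ≤ U ^ j := pow_nonneg hU0 j
      have h6 : U ^ j * (c * θ ^ n) ≤
          U ^ j * ‖Polynomial.evalEval (s n) (V n)⁻¹ Q‖ + U ^ j * (B' * U) := by
        rw [← mul_add]
        exact mul_le_mul_of_nonneg_left (h2.trans h4) hUj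
      have h7 : U ^ j * ((B' + |C|) * U) ≤ U ^ j * (c / 2 * θ ^ n) :=
        mul_le_mul_of_nonneg_left h3 hUj
      have h8 : |C| * U ^ (j + 1) = U ^ j * (|C| * U) := by ring
      have h9 : U ^ j * ((B' + |C|) * U) = U ^ j * (B' * U) + U ^ j * (|C| * U) := by ring
      have h10 : c / 2 * θ ^ n * U ^ j = U ^ j * (c * θ ^ n) - U ^ j * (c / 2 * θ ^ n) := by
        ring
      show c / 2 * θ ^ n * U ^ j ≤ ‖w n‖
      rw [h10]
      linarith

omit [IsUltrametricDist L] [CharZero L] in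
theorem BdDich_aeval {ι : Type} (g : ι → Polynomial (Polynomial L)) (P : MvPolynomial ι L)
    (s u : L) : Polynomial.evalEval s u (aeval g P) =
      eval (fun i => Polynomial.evalEval s u (g i)) P := by
  induction P using MvPolynomial.induction_on with
  | C a =>
    rw [aeval_C, eval_C]
    have h1 : algebraMap L (Polynomial (Polynomial L)) a =
        Polynomial.C (Polynomial.C a) := rfl
    rw [h1, Polynomial.evalEval_C, Polynomial.eval_C]
  | add p q hp hq => rw [map_add, Polynomial.evalEval_add, hp, hq, map_add]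
  | mul_X p i hp => rw [map_mul, Polynomial.evalEval_mul, hp, aeval_X, map_mul, eval_X]

omit [IsUltrametricDist L] [CharZero L] in
/-- composition with a polynomial -/
theorem BdDich_comp {V s : ℕ → L} (hV : Sq V) (hs : ∀ n, ‖s n‖ ≤ 1) {M r k : ℕ}
    (P : MvPolynomial (Fin 4) L) (W : ℕ → Fin 3 → L) (K : Fin 3 → Polynomial (Polynomial L))
    (H : Polynomial (Polynomial L))
    (hH : ∀ s u : L, Polynomial.evalEval s u H =
      eval (Fin.cons u fun i => Polynomial.evalEval s u (K i) : Fin 4 → L) P)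
    (hlow : ∀ a : Polynomial L, a ≠ 0 → ∀ i, a = H.coeff i → ∃ (c θ : ℝ) (n₀ : ℕ),
      0 < c ∧ 0 < θ ∧ ∀ n, n₀ ≤ n → n % M = r → c * θ ^ n ≤ ‖a.eval (s n)‖)
    {C : ℝ} (hC0 : 0 ≤ C) (hC : ∀ n, n % M = r → ∀ i,
      ‖W n i - Polynomial.evalEval (s n) (V n)⁻¹ (K i)‖ ≤ C * ‖(V n)⁻¹‖ ^ k) :
    BdDich_Ord (fun n => (V n)⁻¹) M r k fun n =>
      eval (Fin.cons (V n)⁻¹ fun i => W n i : Fin 4 → L) P := by
  have h1V : ∀ n, 1 < ‖V n‖ := Expa_one_lt hV
  have hu : ∀ n, ‖(V n)⁻¹‖ ≤ 1 := fun n => by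
    rw [norm_inv]
    exact inv_le_one_of_one_le₀ (h1V n).le
  choose Bd hBd0 hBd using fun i => BdExp_bd (K i)
  have hsum : ∀ i, Bd i ≤ ∑ j, Bd j := fun i =>
    Finset.single_le_sum (f := Bd) (fun j _ => hBd0 j) (Finset.mem_univ i)
  have hsum0 : 0 ≤ ∑ j, Bd j := Finset.sum_nonneg fun j _ => hBd0 j
  have hB : 0 ≤ ∑ j, Bd j + C + 1 := by positivity
  obtain ⟨C₁, hC₁, -, hlip⟩ := Flat_lip hB P
  refine BdDich_poly hV hs H hlow (C := C₁ * C) fun n hn => ?_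
  have hle : C * ‖(V n)⁻¹‖ ^ k ≤ C :=
    mul_le_of_le_one_right hC0 (pow_le_one₀ (norm_nonneg _) (hu n))
  have h0 : 0 ≤ C * ‖(V n)⁻¹‖ ^ k := mul_nonneg hC0 (pow_nonneg (norm_nonneg _) _)
  have hKb : ∀ i, ‖Polynomial.evalEval (s n) (V n)⁻¹ (K i)‖ ≤ ∑ j, Bd j := fun i =>
    (hBd i _ _ (hs n) (hu n)).trans (hsum i)
  rw [hH, mul_assoc]
  refine hlip _ _ _ h0 ?_ ?_ ?_
  · intro i
    refine Fin.cases ?_ (fun i => ?_) i
    · rw [Fin.cons_zero]
      linarith [hu n]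
    · rw [Fin.cons_succ]
      have h1 : W n i = (W n i - Polynomial.evalEval (s n) (V n)⁻¹ (K i)) +
          Polynomial.evalEval (s n) (V n)⁻¹ (K i) := by ring
      rw [h1]
      refine (norm_add_le _ _).trans ?_
      linarith [hC n hn i, hKb i]
  · intro i
    refine Fin.cases ?_ (fun i => ?_) i
    · rw [Fin.cons_zero]
      linarith [hu n]
    · rw [Fin.cons_succ]
      linarith [hKb i]
  · intro i
    refine Fin.cases ?_ (fun i => ?_) i
    · rw [Fin.cons_zero, Fin.cons_zero, sub_self, norm_zero]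
      exact h0
    · rw [Fin.cons_succ, Fin.cons_succ]
      exact hC n hn i

omit [IsUltrametricDist L] [CharZero L] in
/-- polynomials are not small along a sequence which does not approach its limit too fast -/
theorem BdDich_low {s : ℕ → L} {M r : ℕ} {σ : L}
    (hlim : ∀ ε : ℝ, 0 < ε → ∃ n₀ : ℕ, ∀ n, n₀ ≤ n → n % M = r → ‖s n - σ‖ < ε)
    {θ : ℝ} (hθ : 0 < θ) {n₀ : ℕ}
    (hlo : ∀ n, n₀ ≤ n → n % M = r → θ ^ (n + 1) ≤ ‖s n - σ‖)
    (a : Polynomial L) (ha : a ≠ 0) : ∃ (c θ : ℝ) (n₀ : ℕ),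
      0 < c ∧ 0 < θ ∧ ∀ n, n₀ ≤ n → n % M = r → c * θ ^ n ≤ ‖a.eval (s n)‖ := by
  obtain ⟨q, hq, hqd⟩ := Polynomial.exists_eq_pow_rootMultiplicity_mul_and_not_dvd a ha σ
  set i := Polynomial.rootMultiplicity σ a with hi
  have hqσ : q.eval σ ≠ 0 := fun h => hqd (Polynomial.dvd_iff_isRoot.2 h)
  have hqσ' : 0 < ‖q.eval σ‖ := norm_pos_iff.2 hqσ
  obtain ⟨δ, hδ, hδ'⟩ := Metric.continuous_iff.1 q.continuous σ (‖q.eval σ‖ / 2)
    (half_pos hqσ')
  obtain ⟨n₁, hn₁⟩ := hlim δ hδ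
  refine ⟨θ ^ i * (‖q.eval σ‖ / 2), θ ^ i, max n₀ n₁,
    mul_pos (pow_pos hθ _) (half_pos hqσ'), pow_pos hθ _, fun n hn hr => ?_⟩
  have h1 := hlo n ((le_max_left _ _).trans hn) hr
  have h2 := hn₁ n ((le_max_right _ _).trans hn) hr
  have h3 := hδ' (s n) (by rw [dist_eq_norm]; exact h2)
  rw [dist_eq_norm] at h3
  have h4 : ‖q.eval σ‖ / 2 ≤ ‖q.eval (s n)‖ := by
    have h5 := norm_sub_norm_le (q.eval σ) (q.eval (s n))
    rw [norm_sub_rev] at h5
    linarith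
  have h6 : a.eval (s n) = (s n - σ) ^ i * q.eval (s n) := by
    conv_lhs => rw [hq]
    rw [Polynomial.eval_mul, Polynomial.eval_pow, Polynomial.eval_sub, Polynomial.eval_X,
      Polynomial.eval_C]
  rw [h6, norm_mul, norm_pow]
  calc θ ^ i * (‖q.eval σ‖ / 2) * (θ ^ i) ^ n = (θ ^ (n + 1)) ^ i * (‖q.eval σ‖ / 2) := by
        rw [← pow_mul, ← pow_mul, add_mul, one_mul, pow_add, mul_comm n i]
        ring
    _ ≤ ‖s n - σ‖ ^ i * ‖q.eval (s n)‖ :=
        mul_le_mul (pow_le_pow_left₀ (pow_nonneg hθ.le _) h1 _) h4 (half_pos hqσ').le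
          (pow_nonneg (norm_nonneg _) _)

omit [IsUltrametricDist L] [CharZero L] in
theorem BdDich_s {x y z V b : ℕ → L} {t N : ℕ} (h : Bd x y z V b t N) (n : ℕ) :
    ‖z n / V n ^ t‖ ≤ 1 := by
  rw [norm_div, norm_pow]
  exact div_le_one_of_le₀ (h.hz n) (by positivity)

omit [IsUltrametricDist L] [CharZero L] in
theorem BdDich_rec {x y z V b : ℕ → L} {t N : ℕ} (h : Bd x y z V b t N) (n : ℕ) :
    z (n + 1) / V (n + 1) ^ t = (z n / V n ^ t) ^ 2 + x n / V n ^ (2 * t) := by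
  rw [h.orb.z_succ, h.sq.succ, add_div, div_pow, ← pow_mul, ← pow_mul, mul_comm t 2]

omit [IsUltrametricDist L] [CharZero L] in
theorem BdDich_mod {α : Type*} {f : ℕ → α} {N M₀ : ℕ} (hf : ∀ n, f (n + N) = f n) {n r : ℕ}
    (h : n % (N * M₀) = r) : f n = f r := by
  have h1 : ∀ m, f (m % N) = f m := Function.Periodic.map_mod_nat hf
  rw [← h1 n, ← h1 r, ← h, Nat.mod_mul_right_mod]

omit [IsUltrametricDist L] [CharZero L] in
theorem BdDich_mod' {α : Type*} {f : ℕ → α} {N M₀ : ℕ} (hf : ∀ n, f (n + M₀) = f n) {n r : ℕ}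
    (h : n % (N * M₀) = r) : f n = f r := by
  rw [mul_comm] at h
  exact BdDich_mod hf h

omit [IsUltrametricDist L] [CharZero L] in
theorem BdDich_mul {α : Type*} {f : ℕ → α} {N : ℕ} (hf : ∀ n, f (n + N) = f n) (m n : ℕ) :
    f (n + N * m) = f n := by
  induction m with
  | zero => rw [mul_zero, add_zero]
  | succ m ih => rw [mul_add, mul_one, ← add_assoc, hf, ih]

theorem bd_dich [CompleteSpace L] [IsAlgClosed L] (h2 : ‖(2 : L)‖ < 1)
    (hfr : ∀ u : L, ‖u‖ = 1 → ∃ f : ℕ, 0 < f ∧ ‖u ^ (2 ^ f - 1) - 1‖ < 1)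
    {x y z V b : ℕ → L} {t N : ℕ} (h : Bd x y z V b t N) :
    ∃ M : ℕ, 0 < M ∧ ∀ (P : MvPolynomial (Fin 3) L) (r : ℕ),
      Dich M r fun n => eval ![x n, y n, z n] P := by
  have hV := h.sq
  have h1V : ∀ n, 1 < ‖V n‖ := Expa_one_lt hV
  have hV0 : ∀ n, V n ≠ 0 := fun n => norm_pos_iff.1 (one_pos.trans (h1V n))
  have hs := BdDich_s h
  obtain ⟨Cx, hCx⟩ := h.hx
  obtain ⟨M₀, σ, hM₀, hσp, hσs, hσ0, hσ1, hσl, hcase⟩ :=
    bd_cycle h2 hfr hV hs (BdDich_rec h) hCx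
  refine ⟨N * M₀, Nat.mul_pos h.N_pos hM₀, fun P r => ?_⟩
  obtain ⟨D, P', hP'⟩ := Flat_hom ![2 * t, 2 * t, t] P
  have hw : ∀ n i, ![x n, y n, z n] i / V n ^ (![2 * t, 2 * t, t] : Fin 3 → ℕ) i =
      ![x n / V n ^ (2 * t), y n / V n ^ (2 * t), z n / V n ^ t] i := by
    intro n i
    fin_cases i <;> rfl
  have hEq : (fun n => eval ![x n, y n, z n] P) = fun n =>
      eval (Fin.cons (V n)⁻¹ fun i =>
        ![x n / V n ^ (2 * t), y n / V n ^ (2 * t), z n / V n ^ t] i : Fin 4 → L) P' *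
        V n ^ D := by
    funext n
    rw [← hP' ![x n, y n, z n] (V n) (hV0 n)]
    congr 2
    congr 1
    congr 1
    funext i
    exact hw n i
  rw [hEq]
  refine BdDich_dich hV (fun k => ?_) D
  have hpow : ∀ (n : ℕ) (E : ℝ), E / ‖V n‖ ^ k = E * ‖(V n)⁻¹‖ ^ k := fun n E => by
    rw [norm_inv, inv_pow, div_eq_mul_inv]
  rcases hcase with ⟨Cs, hCs⟩ | ⟨θ, n₀, hθ, hlo⟩
  · -- all coordinates have expansions in one variable
    have hAsy : Asy x y z V (2 * t) (2 * t) t (N * M₀) b σ :=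
      { orb := h.orb
        sq := hV
        q_pos := Nat.mul_pos two_pos h.t_pos
        s_pos := h.t_pos
        q_le := le_rfl
        s_le := by omega
        p_le := le_rfl
        N_pos := Nat.mul_pos h.N_pos hM₀
        b_per := fun n => BdDich_mul h.b_per M₀ n
        c_per := fun n => by
          rw [mul_comm]
          exact BdDich_mul hσp N n
        b_ne := fun n => by
          rw [← norm_pos_iff, h.b_norm]
          exact one_pos
        c_ne := hσ0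
        hx := h.hx
        hy := h.hy
        hz := ⟨Cs, hCs⟩ }
    obtain ⟨G, C₀, hG, hC₀⟩ := expand hAsy k
    have hG1 : ∀ m, G (m % (N * M₀)) = G m := Function.Periodic.map_mod_nat hG
    have hGr : ∀ n, n % (N * M₀) = r → G n = G r := fun n hn => by
      rw [← hn]
      exact (hG1 n).symm
    set T : Polynomial L := aeval (Fin.cons Polynomial.X (G r) : Fin 4 → Polynomial L) P'
      with hT
    refine BdDich_comp hV hs P' _ (fun i => (G r i).map Polynomial.C) (T.map Polynomial.C)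
      ?_ ?_ (C := |C₀|) (abs_nonneg _) ?_
    · intro s u
      rw [Polynomial.evalEval_map_C, hT, Flat_eval]
      congr 1
      congr 1
      funext i
      refine Fin.cases ?_ (fun i => ?_) i
      · rw [Fin.cons_zero, Fin.cons_zero, Polynomial.eval_X]
      · rw [Fin.cons_succ, Fin.cons_succ, Polynomial.evalEval_map_C]
    · intro a ha i hai
      rw [Polynomial.coeff_map] at hai
      have h0 : T.coeff i ≠ 0 := by
        intro h0
        rw [h0, map_zero] at hai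
        exact ha hai
      refine ⟨‖T.coeff i‖, 1, 0, norm_pos_iff.2 h0, one_pos, fun n _ _ => ?_⟩
      rw [hai, Polynomial.eval_C, one_pow, mul_one]
    · intro n hn i
      rw [Polynomial.evalEval_map_C, ← hGr n hn, ← hpow]
      refine (hC₀ n i).trans ?_
      exact div_le_div_of_nonneg_right (le_abs_self _) (pow_nonneg (norm_nonneg _) _)
  · -- two variables
    obtain ⟨F, G, C₀, hF, hG, hFC, hGC⟩ := Bd.expand h2 h k
    have hσr : ∀ n, n % (N * M₀) = r → σ n = σ r := fun n hn => BdDich_mod' hσp hn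
    refine BdDich_comp hV hs P' _ ![F r, G r, Polynomial.C Polynomial.X]
      (aeval (Fin.cons Polynomial.X ![F r, G r, Polynomial.C Polynomial.X] :
        Fin 4 → Polynomial (Polynomial L)) P') ?_ ?_ (C := |C₀|) (abs_nonneg _) ?_
    · intro s u
      rw [BdDich_aeval]
      congr 1
      congr 1
      funext i
      refine Fin.cases ?_ (fun i => ?_) i
      · rw [Fin.cons_zero, Fin.cons_zero, Polynomial.evalEval_X]
      · rw [Fin.cons_succ, Fin.cons_succ]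
    · intro a ha i _
      refine BdDich_low (σ := σ r) (θ := θ) (n₀ := n₀) (fun ε hε => ?_) hθ
        (fun n hn hr => ?_) a ha
      · obtain ⟨n₁, hn₁⟩ := hσl ε hε
        refine ⟨n₁, fun n hn hr => ?_⟩
        rw [← hσr n hr]
        exact hn₁ n hn
      · rw [← hσr n hr]
        exact hlo n hn
    · intro n hn i
      rw [← hpow]
      have h3 : C₀ / ‖V n‖ ^ k ≤ |C₀| / ‖V n‖ ^ k :=
        div_le_div_of_nonneg_right (le_abs_self _) (pow_nonneg (norm_nonneg _) _)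
      fin_cases i
      · show ‖x n / V n ^ (2 * t) - Polynomial.evalEval (z n / V n ^ t) (V n)⁻¹ (F r)‖ ≤ _
        rw [← BdDich_mod hF hn]
        exact (hFC n).trans h3
      · show ‖y n / V n ^ (2 * t) - Polynomial.evalEval (z n / V n ^ t) (V n)⁻¹ (G r)‖ ≤ _
        rw [← BdDich_mod hG hn]
        exact (hGC n).trans h3
      · show ‖z n / V n ^ t - Polynomial.evalEval (z n / V n ^ t) (V n)⁻¹
          (Polynomial.C Polynomial.X)‖ ≤ _
        rw [Polynomial.evalEval_C, Polynomial.eval_X, sub_self, norm_zero]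
        exact div_nonneg (abs_nonneg _) (pow_nonneg (norm_nonneg _) _)

theorem bd_jac [CompleteSpace L] (h2 : ‖(2 : L)‖ < 1)
    (hfr : ∀ u : L, ‖u‖ = 1 → ∃ f : ℕ, 0 < f ∧ ‖u ^ (2 ^ f - 1) - 1‖ < 1)
    {x y z V b : ℕ → L} {t N : ℕ} (h : Bd x y z V b t N) :
    ∃ n₁ : ℕ, ∀ n, n₁ ≤ n → 1 ≤ ‖1 + 8 * (x n * y n * z n)‖ := by
  have hV := h.sq
  have h1V : ∀ n, 1 < ‖V n‖ := Expa_one_lt hV
  have hV0 : ∀ n, V n ≠ 0 := fun n => norm_pos_iff.1 (one_pos.trans (h1V n))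
  have hs := BdDich_s h
  obtain ⟨Cx, hCx⟩ := h.hx
  obtain ⟨Cy, hCy⟩ := h.hy
  obtain ⟨M₀, σ, hM₀, hσp, hσs, hσ0, hσ1, hσl, -⟩ :=
    bd_cycle h2 hfr hV hs (BdDich_rec h) hCx
  -- a lower bound for the cycle
  obtain ⟨m, hm, hmσ⟩ : ∃ m : ℝ, 0 < m ∧ ∀ n, m ≤ ‖σ n‖ := by
    obtain ⟨B, hB, hb⟩ := Expa_per (f := fun n => ‖σ n‖⁻¹) hM₀ fun n => by simp only [hσp n]
    refine ⟨(B + 1)⁻¹, by positivity, fun n => ?_⟩
    have h0 : 0 < ‖σ n‖ := norm_pos_iff.2 (hσ0 n)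
    have h1 : ‖σ n‖⁻¹ ≤ B + 1 := (hb n).trans (by linarith)
    exact inv_le_of_inv_le₀ h0 h1
  have h80 : (0 : ℝ) < ‖(8 : L)‖ := by
    rw [norm_pos_iff]
    exact OfNat.ofNat_ne_zero 8
  obtain ⟨n₁, hn₁⟩ := hσl (m / 2) (half_pos hm)
  obtain ⟨n₂, hn₂⟩ := BdDich_big hV (2 * |Cx| + 2 * |Cy| + 16 / (‖(8 : L)‖ * m))
  refine ⟨max n₁ n₂, fun n hn => ?_⟩
  have e1 := hn₁ n ((le_max_left _ _).trans hn)
  have e2 := hn₂ n ((le_max_right _ _).trans hn)
  have hVn : 0 < ‖V n‖ := one_pos.trans (h1V n)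
  have hax := abs_nonneg Cx
  have hay := abs_nonneg Cy
  have h8m : 0 < ‖(8 : L)‖ * m := mul_pos h80 hm
  have h16 : 0 < 16 / (‖(8 : L)‖ * m) := div_pos (by norm_num) h8m
  have hxn : 1 / 2 ≤ ‖x n / V n ^ (2 * t)‖ := by
    have h3 : ‖x n / V n ^ (2 * t) - 1‖ ≤ 1 / 2 := by
      refine (hCx n).trans ?_
      rw [div_le_iff₀ hVn]
      linarith [le_abs_self Cx]
    have h4 := norm_sub_norm_le (1 : L) (x n / V n ^ (2 * t))
    rw [norm_sub_rev, norm_one] at h4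
    linarith
  have hyn : 1 / 2 ≤ ‖y n / V n ^ (2 * t)‖ := by
    have h3 : ‖y n / V n ^ (2 * t) - b n‖ ≤ 1 / 2 := by
      refine (hCy n).trans ?_
      rw [div_le_iff₀ hVn]
      linarith [le_abs_self Cy]
    have h4 := norm_sub_norm_le (b n) (y n / V n ^ (2 * t))
    rw [norm_sub_rev, h.b_norm] at h4
    linarith
  have hzn : m / 2 ≤ ‖z n / V n ^ t‖ := by
    have h4 := norm_sub_norm_le (σ n) (z n / V n ^ t)
    rw [norm_sub_rev] at h4
    have h5 := hmσ n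
    linarith
  have hprod : x n * y n * z n = x n / V n ^ (2 * t) * (y n / V n ^ (2 * t)) *
      (z n / V n ^ t) * V n ^ (5 * t) := by
    have h3 : V n ^ (5 * t) = V n ^ (2 * t) * V n ^ (2 * t) * V n ^ t := by
      rw [← pow_add, ← pow_add]
      congr 1
      ring
    have h4 := pow_ne_zero (2 * t) (hV0 n)
    have h5 := pow_ne_zero t (hV0 n)
    rw [h3]
    field_simp
  have hbig : ‖V n‖ ≤ ‖V n ^ (5 * t)‖ := by
    rw [norm_pow]
    refine le_self_pow₀ (h1V n).le ?_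
    have := h.t_pos
    omega
  have hlow : 2 ≤ ‖8 * (x n * y n * z n)‖ := by
    rw [hprod, norm_mul, norm_mul, norm_mul, norm_mul]
    have h3 : 1 / 2 * (1 / 2) ≤ ‖x n / V n ^ (2 * t)‖ * ‖y n / V n ^ (2 * t)‖ :=
      mul_le_mul hxn hyn (by norm_num) (norm_nonneg _)
    have h4 : 1 / 2 * (1 / 2) * (m / 2) ≤
        ‖x n / V n ^ (2 * t)‖ * ‖y n / V n ^ (2 * t)‖ * ‖z n / V n ^ t‖ :=
      mul_le_mul h3 hzn (half_pos hm).le (mul_nonneg (norm_nonneg _) (norm_nonneg _))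
    have h5 : 1 / 2 * (1 / 2) * (m / 2) * (16 / (‖(8 : L)‖ * m)) ≤
        ‖x n / V n ^ (2 * t)‖ * ‖y n / V n ^ (2 * t)‖ * ‖z n / V n ^ t‖ *
          ‖V n ^ (5 * t)‖ := by
      refine mul_le_mul h4 ?_ h16.le (by positivity)
      linarith
    have h6 := mul_le_mul_of_nonneg_left h5 h80.le
    have h7 : ‖(8 : L)‖ * (1 / 2 * (1 / 2) * (m / 2) * (16 / (‖(8 : L)‖ * m))) = 2 := by
      have := h80.ne'
      have := hm.ne'
      field_simp
      norm_num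
    rw [h7] at h6
    exact h6
  have h3 := norm_sub_norm_le (8 * (x n * y n * z n)) (-1 : L)
  rw [norm_neg, norm_one, sub_neg_eq_add, add_comm (8 * (x n * y n * z n)) 1] at h3
  linarith

end Pool.Agent.GSF
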