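import Pool.Agent.Lib.MP_e9abfe_ag_DMC.Defs
import Pool.Agent.Lib.MP_e9abfe_ag.Etale

/-!
# Dynamical Mordell-Lang for generic surfaces, map `(x² + y, y² + z, z² + x)`: vocabulary

Sequences in a field `L` with a nonarchimedean absolute value.
-/

set_option autoImplicit false

namespace Pool.Agent.GSF

open MvPolynomial
open Pool.Agent.DMC
open Pool.Agent.MP_e9abfe (Phi pull)

variable {L : Type} [NormedField L]

/-- dichotomy along the residue class `r` modulo `N`: at every level `ρ`, the sequence is either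
`O(ρ ^ 2 ^ n)` or eventually at least `ρ' ^ 2 ^ n` for some `ρ' > ρ` -/
def Dich (N r : ℕ) (g : ℕ → L) : Prop :=
  ∀ ρ : ℝ, 0 < ρ → (∃ C : ℝ, ∀ n, n % N = r → ‖g n‖ ≤ C * ρ ^ 2 ^ n) ∨
    ∃ ρ' : ℝ, ρ < ρ' ∧ ∃ n₀ : ℕ, ∀ n, n₀ ≤ n → n % N = r → ρ' ^ 2 ^ n ≤ ‖g n‖

/-- an exact squaring sequence tending to `1` -/
structure One (κ : ℕ → L) : Prop where
  succ : ∀ n, κ (n + 1) = κ n ^ 2
  lim : ∀ ε : ℝ, 0 < ε → ∃ n₀ : ℕ, ∀ n, n₀ ≤ n → ‖κ n - 1‖ < ε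

/-- characters: the Laurent monomial with exponents `m` at the point `a` -/
noncomputable def chi (a : Fin 3 → L) (m : Fin 3 → ℤ) : L := ∏ i, a i ^ m i

/-- finite sums of the exact squaring sequences `n ↦ chi a m ^ 2 ^ n` -/
def EE (a : Fin 3 → L) : Submodule L (ℕ → L) :=
  Submodule.span L (Set.range fun (m : Fin 3 → ℤ) (n : ℕ) => chi a m ^ 2 ^ n)

/-- sequences which can be approximated by elements of `EE a` at every level -/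
def AA (a : Fin 3 → L) (g : ℕ → L) : Prop :=
  ∀ ρ : ℝ, 0 < ρ → ∃ e ∈ EE a, ∃ C : ℝ, ∀ n, ‖g n - e n‖ ≤ C * ρ ^ 2 ^ n

/-- an orbit of `Φ` all of whose coordinates are dominated by their own squares -/
structure Free (x y z : ℕ → L) : Prop where
  x_succ : ∀ n, x (n + 1) = x n ^ 2 + y n
  y_succ : ∀ n, y (n + 1) = y n ^ 2 + z n
  z_succ : ∀ n, z (n + 1) = z n ^ 2 + x n
  one_lt : 1 < ‖x 0‖
  hx : ‖y 0‖ < ‖x 0‖ ^ 2
  hy : ‖z 0‖ < ‖y 0‖ ^ 2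
  hz : ‖x 0‖ < ‖z 0‖ ^ 2

/-- an orbit with `x n = V n ^ (2 * t) * (1 + small)`, `y n = V n ^ (2 * t) * (b n + small)` for
a periodic sequence `b` of roots of unity, and `z n = V n ^ t * (bounded)` -/
structure Bd (x y z V b : ℕ → L) (t N : ℕ) : Prop where
  orb : Orb x y z
  sq : Sq V
  t_pos : 0 < t
  N_pos : 0 < N
  b_per : ∀ n, b (n + N) = b n
  b_succ : ∀ n, b (n + 1) = b n ^ 2
  b_norm : ∀ n, ‖b n‖ = 1
  hx : ∃ C : ℝ, ∀ n, ‖x n / V n ^ (2 * t) - 1‖ ≤ C / ‖V n‖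
  hy : ∃ C : ℝ, ∀ n, ‖y n / V n ^ (2 * t) - b n‖ ≤ C / ‖V n‖
  hz : ∀ n, ‖z n‖ ≤ ‖V n‖ ^ t

end Pool.Agent.GSF
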