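import Pool.Agent.Lib.MP_e9abfe_ag_GSF.Defs
import Pool.Agent.Lib.MP_e9abfe_ag_DMC.Emb

/-!
# Embedding of a finite set of complex numbers into `ℂ_[2]` (project GSF, module G15)
-/

set_option autoImplicit false

namespace Pool.Agent.GSF

open MvPolynomial
open Pool.Agent.DMC

theorem exists_emb2 {s : Set ℂ} (hs : s.Finite) : ∃ K : Subfield ℂ, s ⊆ K ∧
    Nonempty (K →+* PadicComplex 2) := by
  have h : Nonempty (ℂ ≃+* PadicComplex 2) :=
    IsAlgClosed.ringEquiv_of_equiv_of_charZero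
      (by rw [Cardinal.mk_complex]; exact Cardinal.aleph0_lt_continuum)
      (Cardinal.eq.1 emb_mk.symm)
  obtain ⟨e⟩ := h
  exact ⟨⊤, fun _ _ => trivial, ⟨(e : ℂ →+* PadicComplex 2).comp (⊤ : Subfield ℂ).subtype⟩⟩

end Pool.Agent.GSF
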