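import Pool.Agent.Lib.MP_e9abfe_ag_GSF.Defs

/-!
The map `Φ` is étale at the generic point of a subvariety which is not contained in the zero set
of the Jacobian determinant: the version for a pair of prime ideals.
-/

set_option autoImplicit false

namespace Pool.Agent.GSF

open MvPolynomial
open Pool.Agent.DMC
open Pool.Agent.MP_e9abfe (Phi pull)

theorem etale_pair (k : Type*) [Field k] (𝔅 𝔅' : Ideal (MvPolynomial (Fin 3) k))
    [𝔅.IsPrime] [𝔅'.IsPrime] (hcomap : 𝔅.comap (pull k) = 𝔅')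
    (hJ : (1 + 8 * (X 0 * X 1 * X 2)) ∉ 𝔅) :
    ∃ h : MvPolynomial (Fin 3) k, h ∉ 𝔅 ∧ ∀ g ∈ 𝔅, h * g ∈ Ideal.map (pull k) 𝔅' := by
  classical
  let A := MvPolynomial (Fin 3) k
  let D := A ⧸ 𝔅
  let D' := A ⧸ 𝔅'
  let K := FractionRing D
  let K' := FractionRing D'
  let mk : A →+* D := Ideal.Quotient.mk 𝔅
  let mk' : A →+* D' := Ideal.Quotient.mk 𝔅'
  let ι : D →+* K := algebraMap D K
  let ι' : D' →+* K' := algebraMap D' K'
  have hι : Function.Injective ι := IsFractionRing.injective D K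
  have hι' : Function.Injective ι' := IsFractionRing.injective D' K'
  have hmkι : ∀ a : A, ι (mk a) = 0 ↔ a ∈ 𝔅 := by
    intro a
    rw [map_eq_zero_iff ι hι]
    exact Ideal.Quotient.eq_zero_iff_mem
  -- the induced map on the quotients and on the fraction fields
  let π : D' →+* D := Ideal.quotientMap 𝔅 (pull k : A →+* A) (le_of_eq hcomap.symm)
  have hπmk : ∀ a, π (mk' a) = mk (pull k a) := fun a => Ideal.quotientMap_mk
  have hπ : Function.Injective π := by
    rw [injective_iff_map_eq_zero]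
    intro d hd
    obtain ⟨a, rfl⟩ := Ideal.Quotient.mk_surjective d
    have h1 : mk (pull k a) = 0 := by rw [← hπmk]; exact hd
    have h2 : pull k a ∈ 𝔅 := Ideal.Quotient.eq_zero_iff_mem.1 h1
    have h3 : a ∈ 𝔅.comap (pull k) := h2
    rw [hcomap] at h3
    exact Ideal.Quotient.eq_zero_iff_mem.2 h3
  have hιπ : Function.Injective (ι.comp π) := hι.comp hπ
  let φ : K' →+* K := IsFractionRing.lift hιπ
  have hφ : ∀ d, φ (ι' d) = ι (π d) := fun d => IsFractionRing.lift_algebraMap hιπ d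
  have hφinj : Function.Injective φ := φ.injective
  let ε : Polynomial K' →+* K := Polynomial.eval₂RingHom φ (ι (mk (X 0)))
  have hε : ∀ G : Polynomial A, ε (G.map (ι'.comp mk')) = ι (mk (MP_e9abfe.ev k G)) := by
    intro G
    have h1 : ε.comp (Polynomial.mapRingHom (ι'.comp mk')) =
        (ι.comp mk).comp (MP_e9abfe.ev k) := by
      apply Polynomial.ringHom_ext
      · intro a
        simp only [RingHom.comp_apply, Polynomial.coe_mapRingHom, Polynomial.map_C, ε,
          Polynomial.coe_eval₂RingHom, Polynomial.eval₂_C]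
        rw [hφ, hπmk]
        exact congrArg (fun t => ι (mk t)) (MP_e9abfe.ev_C k a).symm
      · simp only [RingHom.comp_apply, Polynomial.coe_mapRingHom, Polynomial.map_X, ε,
          Polynomial.coe_eval₂RingHom, Polynomial.eval₂_X]
        exact congrArg (fun t => ι (mk t)) (MP_e9abfe.ev_X k).symm
    exact congrArg (fun f : Polynomial A →+* K => f G) h1
  let ρ : Polynomial K' := Submodule.IsPrincipal.generator (RingHom.ker ε)
  have hρ : ∀ G, ε G = 0 → ρ ∣ G := by
    intro G hG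
    rw [← Submodule.IsPrincipal.mem_iff_generator_dvd]
    exact hG
  have hρ0 : ε ρ = 0 := Submodule.IsPrincipal.generator_mem (RingHom.ker ε)
  have hF0 : ε ((MP_e9abfe.eqF k).map (ι'.comp mk')) = 0 := by
    rw [hε, MP_e9abfe.ev_eqF, map_zero, map_zero]
  obtain ⟨θ, hθ⟩ := hρ _ hF0
  have hθ0 : ε θ ≠ 0 := by
    intro h0
    have h1 : ε (Polynomial.derivative ((MP_e9abfe.eqF k).map (ι'.comp mk'))) = 0 := by
      rw [hθ, Polynomial.derivative_mul, map_add, map_mul, map_mul, hρ0, h0]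
      simp
    rw [Polynomial.derivative_map, hε, MP_e9abfe.ev_derivative_eqF, hmkι] at h1
    exact hJ h1
  obtain ⟨d, hdmem, hd⟩ := IsLocalization.integerNormalization_spec (nonZeroDivisors D') θ
  set Θ₀ := IsLocalization.integerNormalization (nonZeroDivisors D') θ with hΘ₀
  have hd0 : d ≠ 0 := nonZeroDivisors.ne_zero hdmem
  have hd' : Θ₀.map ι' = Polynomial.C (ι' d) * θ := by
    rw [show Θ₀.map ι' = Θ₀.map (algebraMap D' K') from rfl, hd, ← Polynomial.smul_eq_C_mul]
    exact (algebraMap_smul K' d θ).symm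
  obtain ⟨Θ, hΘ⟩ := Polynomial.map_surjective mk' Ideal.Quotient.mk_surjective Θ₀
  refine ⟨MP_e9abfe.ev k Θ, ?_, ?_⟩
  · intro hmem
    have h1 := (hmkι _).2 hmem
    rw [← hε, ← Polynomial.map_map, hΘ, hd', map_mul] at h1
    rcases mul_eq_zero.1 h1 with h2 | h2
    · simp only [ε, Polynomial.coe_eval₂RingHom, Polynomial.eval₂_C] at h2
      have h3 : ι' d = 0 := by rwa [map_eq_zero_iff φ hφinj] at h2
      rw [map_eq_zero_iff ι' hι'] at h3
      exact hd0 h3
    · exact hθ0 h2
  · intro g hg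
    obtain ⟨G, rfl⟩ := MP_e9abfe.ev_surjective k g
    have h1 : ε (G.map (ι'.comp mk')) = 0 := by rw [hε, hmkι]; exact hg
    obtain ⟨G₁, hG₁⟩ := hρ _ h1
    have hdvd : ((MP_e9abfe.eqF k).map mk').map ι' ∣ (Θ₀ * G.map mk').map ι' := by
      rw [Polynomial.map_mul, hd', Polynomial.map_map, Polynomial.map_map, hθ, hG₁]
      exact ⟨Polynomial.C (ι' d) * G₁, by ring⟩
    rw [Polynomial.map_dvd_map ι' hι' ((MP_e9abfe.eqF_monic k).map mk')] at hdvd
    obtain ⟨Q₀, hQ₀⟩ := hdvd
    obtain ⟨Q, hQ⟩ := Polynomial.map_surjective mk' Ideal.Quotient.mk_surjective Q₀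
    have h2 : (Θ * G - MP_e9abfe.eqF k * Q).map mk' = 0 := by
      rw [Polynomial.map_sub, Polynomial.map_mul, Polynomial.map_mul, hΘ, hQ, hQ₀, sub_self]
    have h3 : ∀ n, (Θ * G - MP_e9abfe.eqF k * Q).coeff n ∈ 𝔅' := by
      intro n
      have h4 := congrArg (fun P => Polynomial.coeff P n) h2
      simp only [Polynomial.coeff_map, Polynomial.coeff_zero] at h4
      exact Ideal.Quotient.eq_zero_iff_mem.1 h4
    have h4 := MP_e9abfe.ev_mem_map k 𝔅' _ h3
    rwa [map_sub, map_mul, map_mul, MP_e9abfe.ev_eqF, zero_mul, sub_zero] at h4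

end Pool.Agent.GSF
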