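import Pool.Agent.Lib.MP_e9abfe_ag_GSF.Defs

/-!
# Exact squaring sequences tending to `1`
-/

set_option autoImplicit false
set_option linter.unusedSectionVars false

namespace Pool.Agent.GSF

open MvPolynomial
open Pool.Agent.DMC
open Pool.Agent.MP_e9abfe (Phi pull)

variable {L : Type} [NormedField L] [IsUltrametricDist L] [CharZero L]

private theorem one_tau_pos : 0 < ‖(2 : L)‖ := norm_pos_iff.2 two_ne_zero

private theorem one_succ {κ : ℕ → L} (h : One κ) (n : ℕ) :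
    κ (n + 1) - 1 = (κ n - 1) * (2 + (κ n - 1)) := by
  rw [h.succ]
  ring

private theorem one_add {x y : L} (h : ‖y‖ < ‖x‖) : ‖x + y‖ = ‖x‖ := by
  rw [IsUltrametricDist.norm_add_eq_max_of_norm_ne_norm h.ne', max_eq_left h.le]

private theorem one_step {κ : ℕ → L} (h : One κ) :
    ∃ n₁ : ℕ, ∀ n, n₁ ≤ n → ‖κ n - 1‖ < ‖(2 : L)‖ ∧ ‖κ (n + 1) - 1‖ = ‖(2 : L)‖ * ‖κ n - 1‖ := by
  obtain ⟨n₁, hn⟩ := h.lim ‖(2 : L)‖ one_tau_pos
  refine ⟨n₁, fun n hn1 => ⟨hn n hn1, ?_⟩⟩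
  rw [one_succ h, norm_mul, one_add (hn n hn1), mul_comm]

private theorem one_geo {κ : ℕ → L} (h : One κ) :
    ∃ n₁ : ℕ, ∀ j, ‖κ (n₁ + j) - 1‖ = ‖(2 : L)‖ ^ j * ‖κ n₁ - 1‖ := by
  obtain ⟨n₁, hn⟩ := one_step h
  refine ⟨n₁, fun j => ?_⟩
  induction j with
  | zero => simp
  | succ j ih =>
    rw [← add_assoc, (hn (n₁ + j) (Nat.le_add_right _ _)).2, ih, pow_succ]
    ring

/-- bounds for large `n` give bounds for all `n` -/
private theorem one_absorb {f : ℕ → L} {m n₀ : ℕ} {C : ℝ}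
    (h : ∀ n, n₀ ≤ n → ‖f n‖ ≤ C * ‖(2 : L)‖ ^ (n * m)) :
    ∃ C' : ℝ, 0 ≤ C' ∧ ∀ n, ‖f n‖ ≤ C' * ‖(2 : L)‖ ^ (n * m) := by
  have ht : 0 < ‖(2 : L)‖ := one_tau_pos
  refine ⟨|C| + ∑ i ∈ Finset.range n₀, ‖f i‖ / ‖(2 : L)‖ ^ (i * m),
    add_nonneg (abs_nonneg _) (Finset.sum_nonneg fun i _ => by positivity), fun n => ?_⟩
  have hp : 0 < ‖(2 : L)‖ ^ (n * m) := by positivity
  rcases lt_or_ge n n₀ with hn | hn
  · have h1 : ‖f n‖ / ‖(2 : L)‖ ^ (n * m) ≤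
        ∑ i ∈ Finset.range n₀, ‖f i‖ / ‖(2 : L)‖ ^ (i * m) :=
      Finset.single_le_sum (f := fun i => ‖f i‖ / ‖(2 : L)‖ ^ (i * m))
        (fun i _ => by positivity) (Finset.mem_range.2 hn)
    rw [div_le_iff₀ hp] at h1
    refine h1.trans (mul_le_mul_of_nonneg_right ?_ hp.le)
    linarith [abs_nonneg C]
  · refine (h n hn).trans (mul_le_mul_of_nonneg_right ?_ hp.le)
    have h2 : 0 ≤ ∑ i ∈ Finset.range n₀, ‖f i‖ / ‖(2 : L)‖ ^ (i * m) :=
      Finset.sum_nonneg fun i _ => by positivity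
    linarith [le_abs_self C]

private theorem one_tendsto (h2 : ‖(2 : L)‖ < 1) (C : ℝ) :
    Filter.Tendsto (fun j : ℕ => C * ‖(2 : L)‖ ^ j) Filter.atTop (nhds 0) := by
  have h1 := (tendsto_pow_atTop_nhds_zero_of_lt_one (norm_nonneg (2 : L)) h2).const_mul C
  rwa [mul_zero] at h1

theorem One.eq_one (h2 : ‖(2 : L)‖ < 1) {κ : ℕ → L} (h : One κ) {C : ℝ}
    (hC : ∀ n, ‖κ n - 1‖ ≤ C * ‖(2 : L)‖ ^ (n * 2)) : ∃ n₀ : ℕ, ∀ n, n₀ ≤ n → κ n = 1 := by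
  have ht : 0 < ‖(2 : L)‖ := one_tau_pos
  obtain ⟨n₁, hn⟩ := one_geo h
  have h0 : ‖κ n₁ - 1‖ ≤ 0 := by
    refine ge_of_tendsto (one_tendsto h2 (C * ‖(2 : L)‖ ^ (n₁ * 2)))
      (Filter.Eventually.of_forall fun j => ?_)
    have h3 := hC (n₁ + j)
    rw [hn, add_mul, pow_add] at h3
    have h4 : ‖(2 : L)‖ ^ j * ‖κ n₁ - 1‖ ≤
        ‖(2 : L)‖ ^ j * (C * ‖(2 : L)‖ ^ (n₁ * 2) * ‖(2 : L)‖ ^ j) := by
      refine h3.trans (le_of_eq ?_)
      rw [show j * 2 = j + j by ring, pow_add]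
      ring
    exact le_of_mul_le_mul_left h4 (pow_pos ht j)
  refine ⟨n₁, fun n hn1 => ?_⟩
  obtain ⟨j, rfl⟩ := Nat.exists_eq_add_of_le hn1
  have h3 := hn j
  rw [le_antisymm h0 (norm_nonneg _), mul_zero, norm_eq_zero, sub_eq_zero] at h3
  exact h3

/-- the truncated exponential series -/
private noncomputable def TT (m : ℕ) (v : L) : L :=
  ∑ j ∈ Finset.range (m + 1), v ^ j / (j.factorial : L)

private theorem one_fac (j : ℕ) : (j.factorial : L) ≠ 0 :=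
  Nat.cast_ne_zero.2 (Nat.factorial_ne_zero j)

private theorem TT_two (m : ℕ) (v : L) : TT m (2 * v) =
    ∑ i ∈ Finset.range (m + 1), ∑ j ∈ Finset.range (m + 1 - i),
      v ^ i / (i.factorial : L) * (v ^ j / (j.factorial : L)) := by
  rw [← Finset.sum_range_diag_flip (m + 1)
    (fun i j => v ^ i / (i.factorial : L) * (v ^ j / (j.factorial : L)))]
  unfold TT
  refine Finset.sum_congr rfl fun s _ => ?_
  rw [two_mul, add_pow, Finset.sum_div]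
  refine Finset.sum_congr rfl fun i hi => ?_
  have hi' : i ≤ s := Nat.lt_succ_iff.1 (Finset.mem_range.1 hi)
  have h1 : ((s.choose i : ℕ) : L) * (i.factorial : L) * ((s - i).factorial : L) =
      (s.factorial : L) := by
    exact_mod_cast Nat.choose_mul_factorial_mul_factorial hi'
  rw [div_mul_div_comm, div_eq_div_iff (one_fac s) (mul_ne_zero (one_fac i) (one_fac (s - i))),
    ← h1]
  ring

private theorem TT_sq (m : ℕ) (v : L) : TT m v ^ 2 - TT m (2 * v) =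
    ∑ i ∈ Finset.range (m + 1), ∑ j ∈ Finset.Ico (m + 1 - i) (m + 1),
      v ^ i / (i.factorial : L) * (v ^ j / (j.factorial : L)) := by
  rw [TT_two, sq]
  unfold TT
  rw [Finset.sum_mul_sum, ← Finset.sum_sub_distrib]
  refine Finset.sum_congr rfl fun i hi => ?_
  rw [Finset.sum_Ico_eq_sub _ (Nat.sub_le _ _)]

private theorem TT_bd (h2 : ‖(2 : L)‖ < 1) (m : ℕ) (l : L) : ∃ B : ℝ, 0 ≤ B ∧ ∀ n : ℕ,
    ‖TT m (2 ^ n * l) ^ 2 - TT m (2 ^ (n + 1) * l)‖ ≤ B * ‖(2 : L)‖ ^ (n * (m + 1)) := by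
  refine ⟨∑ i ∈ Finset.range (m + 1), ∑ j ∈ Finset.Ico (m + 1 - i) (m + 1),
    ‖l‖ ^ (i + j) / (‖(i.factorial : L)‖ * ‖(j.factorial : L)‖),
    Finset.sum_nonneg fun i _ => Finset.sum_nonneg fun j _ => by positivity, fun n => ?_⟩
  rw [show (2 : L) ^ (n + 1) * l = 2 * (2 ^ n * l) by rw [pow_succ]; ring, TT_sq, Finset.sum_mul]
  refine (norm_sum_le _ _).trans (Finset.sum_le_sum fun i hi => ?_)
  rw [Finset.sum_mul]
  refine (norm_sum_le _ _).trans (Finset.sum_le_sum fun j hj => ?_)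
  rw [Finset.mem_range] at hi
  rw [Finset.mem_Ico] at hj
  have h1 : ‖(2 ^ n * l) ^ i / (i.factorial : L) * ((2 ^ n * l) ^ j / (j.factorial : L))‖ =
      ‖l‖ ^ (i + j) / (‖(i.factorial : L)‖ * ‖(j.factorial : L)‖) * ‖(2 : L)‖ ^ (n * (i + j)) := by
    rw [norm_mul, norm_div, norm_div, norm_pow, norm_pow, norm_mul, norm_pow, mul_pow, mul_pow,
      ← pow_mul, ← pow_mul, mul_add, pow_add, pow_add]
    ring
  rw [h1]
  refine mul_le_mul_of_nonneg_left ?_ (by positivity)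
  exact pow_le_pow_of_le_one (norm_nonneg _) h2.le (Nat.mul_le_mul_left n (by omega))

private theorem one_ind (h2 : ‖(2 : L)‖ < 1) {κ : ℕ → L} (h : One κ) (l : L) {k : ℕ} (hk : 1 ≤ k)
    {C : ℝ} (hC : ∀ n, ‖κ n - TT k (2 ^ n * l)‖ ≤ C * ‖(2 : L)‖ ^ (n * (k + 1))) :
    ∃ C : ℝ, ∀ n, ‖κ n - TT (k + 1) (2 ^ n * l)‖ ≤ C * ‖(2 : L)‖ ^ (n * (k + 1 + 1)) := by
  have ht : 0 < ‖(2 : L)‖ := one_tau_pos
  obtain ⟨e, he⟩ : ∃ e : ℕ → L, e = fun n => κ n - TT (k + 1) (2 ^ n * l) := ⟨_, rfl⟩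
  obtain ⟨B, hB0, hB⟩ := TT_bd h2 (k + 1) l
  -- the bound from the case `k`
  obtain ⟨C₁, hC₁⟩ : ∃ C₁ : ℝ, ∀ n, ‖e n‖ ≤ C₁ * ‖(2 : L)‖ ^ (n * (k + 1)) := by
    refine ⟨C + ‖l‖ ^ (k + 1) / ‖((k + 1).factorial : L)‖, fun n => ?_⟩
    have h3 : e n = (κ n - TT k (2 ^ n * l)) -
        (2 ^ n * l) ^ (k + 1) / ((k + 1).factorial : L) := by
      rw [he]
      show κ n - TT (k + 1) (2 ^ n * l) = _
      unfold TT
      rw [Finset.sum_range_succ _ (k + 1)]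
      ring
    have h4 : ‖(2 ^ n * l) ^ (k + 1) / ((k + 1).factorial : L)‖ =
        ‖l‖ ^ (k + 1) / ‖((k + 1).factorial : L)‖ * ‖(2 : L)‖ ^ (n * (k + 1)) := by
      rw [norm_div, norm_pow, norm_mul, norm_pow, mul_pow, ← pow_mul]
      ring
    rw [h3]
    refine (norm_sub_le _ _).trans ?_
    rw [h4, add_mul]
    exact add_le_add (hC n) le_rfl
  -- the recurrence
  have hrec : ∀ n, e (n + 1) = e n * (2 + (2 * (κ n - 1) - e n)) +
      (TT (k + 1) (2 ^ n * l) ^ 2 - TT (k + 1) (2 ^ (n + 1) * l)) := by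
    intro n
    rw [he]
    simp only [h.succ]
    ring
  -- large `n`
  obtain ⟨n₁, hn₁⟩ := h.lim 1 one_pos
  have hlim : Filter.Tendsto (fun n => ‖e n‖) Filter.atTop (nhds 0) := by
    refine squeeze_zero' (Filter.Eventually.of_forall fun n => norm_nonneg _)
      (Filter.Eventually.of_forall fun n => ?_) (one_tendsto h2 |C₁|)
    refine (hC₁ n).trans ?_
    refine mul_le_mul (le_abs_self _) ?_ (by positivity) (abs_nonneg _)
    exact pow_le_pow_of_le_one (norm_nonneg _) h2.le (Nat.le_mul_of_pos_right n (by omega))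
  obtain ⟨n₂, hn₂⟩ := Filter.eventually_atTop.1 (hlim.eventually_lt_const ht)
  have hfac : ∀ n, max n₁ n₂ ≤ n → ‖(2 : L) + (2 * (κ n - 1) - e n)‖ = ‖(2 : L)‖ := by
    intro n hn
    apply one_add
    have h3 : ‖2 * (κ n - 1)‖ < ‖(2 : L)‖ := by
      rw [norm_mul]
      have := hn₁ n ((le_max_left _ _).trans hn)
      nlinarith
    have h4 := hn₂ n ((le_max_right _ _).trans hn)
    calc ‖2 * (κ n - 1) - e n‖ ≤ max ‖2 * (κ n - 1)‖ ‖e n‖ := by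
          rw [sub_eq_add_neg, ← norm_neg (e n)]
          exact IsUltrametricDist.norm_add_le_max _ _
      _ < ‖(2 : L)‖ := max_lt h3 h4
  have hmain : ∀ n, max n₁ n₂ ≤ n → ‖e n‖ ≤ B / ‖(2 : L)‖ * ‖(2 : L)‖ ^ (n * (k + 1 + 1)) := by
    intro n hn
    by_contra hcon
    push Not at hcon
    have hj : ∀ j, ‖e (n + j)‖ = ‖(2 : L)‖ ^ j * ‖e n‖ := by
      intro j
      induction j with
      | zero => simp
      | succ j ih =>
        have h3 : ‖e (n + j) * (2 + (2 * (κ (n + j) - 1) - e (n + j)))‖ =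
            ‖(2 : L)‖ ^ (j + 1) * ‖e n‖ := by
          rw [norm_mul, hfac (n + j) (hn.trans (Nat.le_add_right _ _)), ih, pow_succ]
          ring
        have h4 : ‖TT (k + 1) (2 ^ (n + j) * l) ^ 2 - TT (k + 1) (2 ^ (n + j + 1) * l)‖ <
            ‖(2 : L)‖ ^ (j + 1) * ‖e n‖ := by
          refine (hB (n + j)).trans_lt ?_
          have h5 : B * ‖(2 : L)‖ ^ (n * (k + 1 + 1)) < ‖(2 : L)‖ * ‖e n‖ := by
            have h6 := mul_lt_mul_of_pos_left hcon ht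
            refine lt_of_eq_of_lt ?_ h6
            field_simp
          have h7 : ‖(2 : L)‖ ^ ((n + j) * (k + 1 + 1)) ≤
              ‖(2 : L)‖ ^ (n * (k + 1 + 1)) * ‖(2 : L)‖ ^ j := by
            rw [← pow_add]
            refine pow_le_pow_of_le_one (norm_nonneg _) h2.le ?_
            nlinarith
          calc B * ‖(2 : L)‖ ^ ((n + j) * (k + 1 + 1))
              ≤ B * (‖(2 : L)‖ ^ (n * (k + 1 + 1)) * ‖(2 : L)‖ ^ j) :=
                mul_le_mul_of_nonneg_left h7 hB0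
            _ = (B * ‖(2 : L)‖ ^ (n * (k + 1 + 1))) * ‖(2 : L)‖ ^ j := by ring
            _ < (‖(2 : L)‖ * ‖e n‖) * ‖(2 : L)‖ ^ j :=
                mul_lt_mul_of_pos_right h5 (pow_pos ht j)
            _ = ‖(2 : L)‖ ^ (j + 1) * ‖e n‖ := by
                rw [pow_succ]
                ring
        rw [← add_assoc, hrec, one_add (by rw [h3]; exact h4), h3]
    have h8 : ‖e n‖ ≤ 0 := by
      refine ge_of_tendsto (one_tendsto h2 (|C₁| * ‖(2 : L)‖ ^ (n * (k + 1))))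
        (Filter.Eventually.of_forall fun j => ?_)
      have h9 := hC₁ (n + j)
      rw [hj] at h9
      have h10 : ‖(2 : L)‖ ^ j * ‖e n‖ ≤
          ‖(2 : L)‖ ^ j * (|C₁| * ‖(2 : L)‖ ^ (n * (k + 1)) * ‖(2 : L)‖ ^ j) := by
        have h11 : ‖(2 : L)‖ ^ ((n + j) * (k + 1)) ≤
            ‖(2 : L)‖ ^ (n * (k + 1)) * (‖(2 : L)‖ ^ j * ‖(2 : L)‖ ^ j) := by
          rw [← pow_add, ← pow_add]
          refine pow_le_pow_of_le_one (norm_nonneg _) h2.le ?_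
          nlinarith
        calc ‖(2 : L)‖ ^ j * ‖e n‖ ≤ C₁ * ‖(2 : L)‖ ^ ((n + j) * (k + 1)) := h9
          _ ≤ |C₁| * ‖(2 : L)‖ ^ ((n + j) * (k + 1)) :=
              mul_le_mul_of_nonneg_right (le_abs_self _) (by positivity)
          _ ≤ |C₁| * (‖(2 : L)‖ ^ (n * (k + 1)) * (‖(2 : L)‖ ^ j * ‖(2 : L)‖ ^ j)) :=
              mul_le_mul_of_nonneg_left h11 (abs_nonneg _)
          _ = _ := by ring
      exact le_of_mul_le_mul_left h10 (pow_pos ht j)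
    have h9 : 0 ≤ B / ‖(2 : L)‖ * ‖(2 : L)‖ ^ (n * (k + 1 + 1)) := by positivity
    linarith
  obtain ⟨C', -, hC'⟩ := one_absorb hmain
  refine ⟨C', fun n => ?_⟩
  have h3 := hC' n
  rw [he] at h3
  exact h3

theorem One.expand [CompleteSpace L] (h2 : ‖(2 : L)‖ < 1) {κ : ℕ → L} (h : One κ) :
    ∃ l : L, ∀ k : ℕ, ∃ C : ℝ, ∀ n,
      ‖κ n - ∑ j ∈ Finset.range (k + 1), (2 ^ n * l) ^ j / (j.factorial : L)‖ ≤
        C * ‖(2 : L)‖ ^ (n * (k + 1)) := by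
  have ht : 0 < ‖(2 : L)‖ := one_tau_pos
  have h20 : (2 : L) ≠ 0 := two_ne_zero
  -- the case `0`
  obtain ⟨n₁, hn₁⟩ := one_geo h
  obtain ⟨C₀, hC₀0, hC₀⟩ : ∃ C : ℝ, 0 ≤ C ∧ ∀ n, ‖κ n - 1‖ ≤ C * ‖(2 : L)‖ ^ (n * 1) := by
    refine one_absorb (f := fun n => κ n - 1) (m := 1) (n₀ := n₁)
      (C := ‖κ n₁ - 1‖ / ‖(2 : L)‖ ^ n₁) fun n hn => ?_
    obtain ⟨j, rfl⟩ := Nat.exists_eq_add_of_le hn
    rw [hn₁, mul_one, pow_add]
    refine le_of_eq ?_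
    field_simp
  simp only [mul_one] at hC₀
  -- the logarithm
  obtain ⟨u, hu⟩ : ∃ u : ℕ → L, u = fun n => (κ n - 1) / 2 ^ n := ⟨_, rfl⟩
  have hu1 : ∀ n, ‖u n‖ ≤ C₀ := by
    intro n
    rw [hu]
    show ‖(κ n - 1) / 2 ^ n‖ ≤ C₀
    rw [norm_div, norm_pow, div_le_iff₀ (by positivity)]
    exact hC₀ n
  have hu2 : ∀ n, dist (u n) (u (n + 1)) ≤ (C₀ * C₀ / ‖(2 : L)‖) * ‖(2 : L)‖ ^ n := by
    intro n
    have h3 : u n - u (n + 1) = -(u n * (κ n - 1) / 2) := by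
      rw [hu]
      show (κ n - 1) / 2 ^ n - (κ (n + 1) - 1) / 2 ^ (n + 1) = -((κ n - 1) / 2 ^ n * (κ n - 1) / 2)
      rw [one_succ h, pow_succ]
      field_simp
      ring
    rw [dist_eq_norm, h3, norm_neg, norm_div, norm_mul, div_mul_eq_mul_div]
    refine div_le_div_of_nonneg_right ?_ ht.le
    rw [mul_assoc]
    exact mul_le_mul (hu1 n) (hC₀ n) (norm_nonneg _) hC₀0
  have hcau : CauchySeq u := cauchySeq_of_le_geometric _ _ h2 hu2
  obtain ⟨l, hl⟩ := cauchySeq_tendsto_of_complete hcau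
  have hul : ∀ n, ‖u n - l‖ ≤ (C₀ * C₀ / ‖(2 : L)‖) * ‖(2 : L)‖ ^ n / (1 - ‖(2 : L)‖) := by
    intro n
    rw [← dist_eq_norm]
    exact dist_le_of_le_geometric_of_tendsto _ _ h2 hu2 hl n
  -- the case `1`
  have hone : ∀ n, ‖κ n - TT 1 (2 ^ n * l)‖ ≤
      (C₀ * C₀ / ‖(2 : L)‖ / (1 - ‖(2 : L)‖)) * ‖(2 : L)‖ ^ (n * (1 + 1)) := by
    intro n
    have h3 : κ n - TT 1 (2 ^ n * l) = 2 ^ n * (u n - l) := by
      rw [hu]
      unfold TT
      simp only [Finset.sum_range_succ, Finset.sum_range_zero, pow_zero, pow_one,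
        Nat.factorial_zero, Nat.factorial_one, Nat.cast_one]
      field_simp
      ring
    rw [h3, norm_mul, norm_pow]
    refine (mul_le_mul_of_nonneg_left (hul n) (by positivity)).trans (le_of_eq ?_)
    rw [show n * (1 + 1) = n + n by ring, pow_add]
    ring
  refine ⟨l, fun k => ?_⟩
  rcases k with _ | k
  · refine ⟨C₀, fun n => ?_⟩
    simpa using hC₀ n
  · have hall : ∀ k : ℕ, ∃ C : ℝ, ∀ n,
        ‖κ n - TT (k + 1) (2 ^ n * l)‖ ≤ C * ‖(2 : L)‖ ^ (n * (k + 1 + 1)) := by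
      intro k
      induction k with
      | zero => exact ⟨_, hone⟩
      | succ k ih =>
        obtain ⟨C, hC⟩ := ih
        exact one_ind h2 h l (Nat.succ_pos k) hC
    exact hall k

end Pool.Agent.GSF
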