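import Pool.Agent.Lib.MP_e9abfe_ag_GSF.Defs

/-!
# Teichmüller sequences of a unit of finite order modulo the maximal ideal
-/

set_option autoImplicit false

namespace Pool.Agent.GSF

open MvPolynomial
open Pool.Agent.DMC
open Pool.Agent.MP_e9abfe (Phi pull)

variable {L : Type} [NormedField L] [IsUltrametricDist L] [CharZero L]

omit [CharZero L] in
/-- repeated squaring contracts the distance to `1` -/
theorem teich_pow {c : ℝ} (hc1 : c < 1) (h2 : ‖(2 : L)‖ ≤ c) {w : L} (hw : ‖w - 1‖ ≤ c) (k : ℕ) :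
    ‖w ^ 2 ^ k - 1‖ ≤ c ^ (k + 1) := by
  have hc0 : 0 ≤ c := le_trans (norm_nonneg _) h2
  induction k with
  | zero => simpa using hw
  | succ k ih =>
    have e : w ^ 2 ^ (k + 1) - 1 = (w ^ 2 ^ k - 1) * ((w ^ 2 ^ k - 1) + 2) := by
      rw [pow_succ 2 k, pow_mul]; ring
    have h3 : ‖(w ^ 2 ^ k - 1) + 2‖ ≤ c := by
      refine (IsUltrametricDist.norm_add_le_max _ _).trans (max_le ?_ h2)
      refine ih.trans ?_
      calc c ^ (k + 1) ≤ c ^ 1 := pow_le_pow_of_le_one hc0 hc1.le (by omega)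
        _ = c := pow_one c
    rw [e, norm_mul, pow_succ c (k + 1)]
    exact mul_le_mul ih h3 (norm_nonneg _) (pow_nonneg hc0 _)

omit [IsUltrametricDist L] [CharZero L] in
theorem teich_step {N : ℕ} (u : L) (m : ℕ) :
    u ^ 2 ^ (m + N) = u ^ 2 ^ m * (u ^ (2 ^ N - 1)) ^ 2 ^ m := by
  have hN : 1 ≤ 2 ^ N := Nat.one_le_two_pow
  rw [← pow_mul, ← pow_add]
  congr 1
  rw [pow_add, Nat.sub_mul, one_mul, mul_comm (2 ^ m) (2 ^ N)]
  have : 2 ^ m ≤ 2 ^ N * 2 ^ m := Nat.le_mul_of_pos_left _ (by omega)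
  omega

omit [CharZero L] in
theorem teich [CompleteSpace L] (h2 : ‖(2 : L)‖ < 1) {u : L} {N : ℕ} (hN : 0 < N)
    (hu : ‖u‖ = 1) (hw : ‖u ^ (2 ^ N - 1) - 1‖ < 1) :
    ∃ a : ℕ → L, (∀ n, a (n + N) = a n) ∧ (∀ n, a (n + 1) = a n ^ 2) ∧ (∀ n, ‖a n‖ = 1) ∧
      One fun n => u ^ 2 ^ n / a n := by
  set c : ℝ := max ‖(2 : L)‖ ‖u ^ (2 ^ N - 1) - 1‖ with hc
  have hc1 : c < 1 := max_lt h2 hw
  have hc0 : 0 ≤ c := le_trans (norm_nonneg _) (le_max_left _ _)
  have hp : ∀ k : ℕ, ‖(u ^ (2 ^ N - 1)) ^ 2 ^ k - 1‖ ≤ c ^ (k + 1) :=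
    fun k => teich_pow hc1 (le_max_left _ _) (le_max_right _ _) k
  have hun : ∀ m : ℕ, ‖u ^ 2 ^ m‖ = 1 := fun m => by rw [norm_pow, hu, one_pow]
  have hstep : ∀ m : ℕ, ‖u ^ 2 ^ (m + N) - u ^ 2 ^ m‖ ≤ c ^ (m + 1) := fun m => by
    have e : u ^ 2 ^ (m + N) - u ^ 2 ^ m = u ^ 2 ^ m * ((u ^ (2 ^ N - 1)) ^ 2 ^ m - 1) := by
      rw [teich_step]; ring
    rw [e, norm_mul, hun, one_mul]
    exact hp m
  -- the approximations
  have hlim : ∀ n : ℕ, ∃ a : L, Filter.Tendsto (fun j : ℕ => u ^ 2 ^ (n + N * j))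
      Filter.atTop (nhds a) := by
    intro n
    refine cauchySeq_tendsto_of_complete (cauchySeq_of_le_geometric c 1 hc1 fun j => ?_)
    rw [dist_comm, dist_eq_norm]
    have e : n + N * (j + 1) = (n + N * j) + N := by ring
    rw [e, one_mul]
    refine (hstep (n + N * j)).trans (pow_le_pow_of_le_one hc0 hc1.le ?_)
    have : j ≤ N * j := Nat.le_mul_of_pos_left _ hN
    omega
  choose a ha using hlim
  have hper : ∀ n, a (n + N) = a n := by
    intro n
    have h1 := ha (n + N)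
    have h3 := (ha n).comp (Filter.tendsto_add_atTop_nat 1)
    refine tendsto_nhds_unique h1 (h3.congr fun j => ?_)
    simp only [Function.comp]
    congr 2
    ring
  have hsq : ∀ n, a (n + 1) = a n ^ 2 := by
    intro n
    refine tendsto_nhds_unique (ha (n + 1)) (((ha n).pow 2).congr fun j => ?_)
    rw [← pow_mul, ← pow_succ]
    congr 2
    ring
  have hnorm : ∀ n, ‖a n‖ = 1 := by
    intro n
    refine tendsto_nhds_unique (ha n).norm ?_
    exact tendsto_const_nhds.congr fun j => (hun _).symm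
  have hne : ∀ n, a n ≠ 0 := fun n h => by
    have := hnorm n
    rw [h, norm_zero] at this
    exact zero_ne_one this
  have hclose : ∀ n, ‖u ^ 2 ^ n - a n‖ ≤ c ^ (n + 1) := by
    intro n
    have hj : ∀ j : ℕ, ‖u ^ 2 ^ n - u ^ 2 ^ (n + N * j)‖ ≤ c ^ (n + 1) := by
      intro j
      induction j with
      | zero => simpa using pow_nonneg hc0 (n + 1)
      | succ j ih =>
        have e : u ^ 2 ^ n - u ^ 2 ^ (n + N * (j + 1))
            = (u ^ 2 ^ n - u ^ 2 ^ (n + N * j))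
              + -(u ^ 2 ^ (n + N * j + N) - u ^ 2 ^ (n + N * j)) := by
          have e1 : n + N * (j + 1) = n + N * j + N := by ring
          rw [e1]; ring
        rw [e]
        refine (IsUltrametricDist.norm_add_le_max _ _).trans (max_le ih ?_)
        rw [norm_neg]
        exact (hstep _).trans (pow_le_pow_of_le_one hc0 hc1.le (by omega))
    exact le_of_tendsto ((tendsto_const_nhds.sub (ha n)).norm)
      (Filter.Eventually.of_forall fun j => hj j)
  refine ⟨a, hper, hsq, hnorm, ?_, ?_⟩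
  · intro n
    rw [hsq, pow_succ 2 n, pow_mul, div_pow]
  · intro ε hε
    obtain ⟨n₀, hn₀⟩ := exists_pow_lt_of_lt_one hε hc1
    refine ⟨n₀, fun n hn => ?_⟩
    have e : u ^ 2 ^ n / a n - 1 = (u ^ 2 ^ n - a n) / a n := by
      rw [sub_div, div_self (hne n)]
    rw [e, norm_div, hnorm, div_one]
    refine lt_of_le_of_lt ((hclose n).trans (pow_le_pow_of_le_one hc0 hc1.le ?_)) hn₀
    omega

end Pool.Agent.GSF
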