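import Pool.Agent.Lib.MP_e9abfe_ag_GSF.Defs
import Pool.Agent.Lib.MP_e9abfe_ag_GSF.Teich
import Pool.Agent.Lib.MP_e9abfe_ag_GSF.One

/-!
# Dynamical Mordell-Lang for generic surfaces: sums of units

A sum `∑ c i * u i ^ 2 ^ n` of exact squaring sequences of units is, along a residue class,
eventually zero or at least `δ * ‖2‖ ^ (n * k)`.
-/

set_option autoImplicit false

namespace Pool.Agent.GSF

variable {L : Type} [NormedField L] [IsUltrametricDist L] [CharZero L]

omit [IsUltrametricDist L] [CharZero L] in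
/-- power sums with all moments zero: the weights sum to zero over each fibre. -/
private theorem fibre_sum [DecidableEq L] {ι : Type} (s : Finset ι) (w l : ι → L)
    (h : ∀ j : ℕ, ∑ i ∈ s, w i * l i ^ j = 0) (t : L) :
    ∑ i ∈ s with l i = t, w i = 0 := by
  have hQ : ∀ Q : Polynomial L, ∑ i ∈ s, w i * Q.eval (l i) = 0 := by
    intro Q
    simp only [Polynomial.eval_eq_sum, Polynomial.sum, Finset.mul_sum]
    rw [Finset.sum_comm]
    refine Finset.sum_eq_zero fun j _ => ?_
    have h1 : ∑ i ∈ s, w i * (Q.coeff j * l i ^ j) = Q.coeff j * ∑ i ∈ s, w i * l i ^ j := by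
      rw [Finset.mul_sum]
      exact Finset.sum_congr rfl fun i _ => by ring
    rw [h1, h j, mul_zero]
  have h1 := hQ (∏ μ ∈ (s.image l).erase t, (Polynomial.X - Polynomial.C μ))
  have h2 : ∀ i ∈ s, w i * (∏ μ ∈ (s.image l).erase t, (Polynomial.X - Polynomial.C μ)).eval (l i) =
      if l i = t then w i * ∏ μ ∈ (s.image l).erase t, (t - μ) else 0 := by
    intro i hi
    rw [Polynomial.eval_prod]
    simp only [Polynomial.eval_sub, Polynomial.eval_X, Polynomial.eval_C]
    split_ifs with hit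
    · rw [hit]
    · have : ∏ μ ∈ (s.image l).erase t, (l i - μ) = 0 :=
        Finset.prod_eq_zero (i := l i)
          (Finset.mem_erase.mpr ⟨hit, Finset.mem_image_of_mem l hi⟩) (sub_self _)
      rw [this, mul_zero]
  rw [Finset.sum_congr rfl h2, ← Finset.sum_filter, ← Finset.sum_mul] at h1
  rcases mul_eq_zero.mp h1 with h3 | h3
  · exact h3
  · exfalso
    rw [Finset.prod_eq_zero_iff] at h3
    obtain ⟨μ, hμ, h4⟩ := h3
    exact (Finset.mem_erase.mp hμ).1 (sub_eq_zero.mp h4).symm

theorem unit_sum [CompleteSpace L] (h2 : ‖(2 : L)‖ < 1) {ι : Type} (s : Finset ι) (c u : ι → L)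
    {N : ℕ} (hN : 0 < N) (hu : ∀ i ∈ s, ‖u i‖ = 1) (hw : ∀ i ∈ s, ‖u i ^ (2 ^ N - 1) - 1‖ < 1)
    (r : ℕ) :
    (∃ n₀ : ℕ, ∀ n, n₀ ≤ n → n % N = r → ∑ i ∈ s, c i * u i ^ 2 ^ n = 0) ∨
      ∃ (δ : ℝ) (k n₀ : ℕ), 0 < δ ∧ ∀ n, n₀ ≤ n → n % N = r →
        δ * ‖(2 : L)‖ ^ (n * k) ≤ ‖∑ i ∈ s, c i * u i ^ 2 ^ n‖ := by
  classical
  have h2p : 0 < ‖(2 : L)‖ := norm_pos_iff.mpr two_ne_zero
  have hT := fun i (hi : i ∈ s) => teich h2 hN (hu i hi) (hw i hi)
  choose! a ha1 ha2 ha3 ha4 using hT
  have hX := fun i (hi : i ∈ s) => One.expand h2 (ha4 i hi)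
  choose! l hl using hX
  set κ : ι → ℕ → L := fun i n => u i ^ 2 ^ n / a i n with hκ
  have hκn : ∀ i ∈ s, ∀ n, ‖κ i n‖ = 1 := by
    intro i hi n
    simp only [hκ, norm_div, norm_pow, hu i hi, ha3 i hi n, one_pow, div_one]
  -- on the residue class
  have hE : ∀ n, n % N = r → ∑ i ∈ s, c i * u i ^ 2 ^ n = ∑ i ∈ s, c i * a i r * κ i n := by
    intro n hn
    refine Finset.sum_congr rfl fun i hi => ?_
    have h1 : a i n = a i r := by
      have hp : Function.Periodic (a i) N := ha1 i hi
      rw [← hp.map_mod_nat n, hn]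
    have h3 : a i r ≠ 0 := by
      rw [← norm_pos_iff, ha3 i hi r]
      exact one_pos
    simp only [hκ]
    rw [h1, mul_assoc, mul_div_cancel₀ _ h3]
  by_cases hW : ∃ j : ℕ, ∑ i ∈ s, c i * a i r * l i ^ j ≠ 0
  · right
    obtain ⟨j, hj, hjmin⟩ : ∃ j : ℕ, ∑ i ∈ s, c i * a i r * l i ^ j ≠ 0 ∧
        ∀ t, t < j → ∑ i ∈ s, c i * a i r * l i ^ t = 0 :=
      ⟨Nat.find hW, Nat.find_spec hW, fun t ht => not_not.mp (Nat.find_min hW ht)⟩
    set W : L := ∑ i ∈ s, c i * a i r * l i ^ j with hWdef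
    choose! C hC using fun i (hi : i ∈ s) => hl i hi j
    set D : ℝ := ∑ i ∈ s, ‖c i * a i r‖ * |C i| with hD
    have hD0 : 0 ≤ D := Finset.sum_nonneg fun i _ => by positivity
    have hmain : ∀ n, ∑ i ∈ s, c i * a i r *
        (∑ t ∈ Finset.range (j + 1), (2 ^ n * l i) ^ t / (t.factorial : L)) =
        (2 ^ n) ^ j / (j.factorial : L) * W := by
      intro n
      simp only [Finset.mul_sum]
      rw [Finset.sum_comm, Finset.sum_range_succ, Finset.sum_eq_zero, zero_add, hWdef,
        Finset.mul_sum]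
      · exact Finset.sum_congr rfl fun i _ => by ring
      · intro t ht
        have h3 : ∑ i ∈ s, c i * a i r * ((2 ^ n * l i) ^ t / (t.factorial : L)) =
            (2 ^ n) ^ t / (t.factorial : L) * ∑ i ∈ s, c i * a i r * l i ^ t := by
          rw [Finset.mul_sum]
          exact Finset.sum_congr rfl fun i _ => by ring
        rw [h3, hjmin t (Finset.mem_range.mp ht), mul_zero]
    have herr : ∀ n, ‖∑ i ∈ s, c i * a i r * κ i n - (2 ^ n) ^ j / (j.factorial : L) * W‖ ≤
        D * ‖(2 : L)‖ ^ (n * (j + 1)) := by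
      intro n
      rw [← hmain n, ← Finset.sum_sub_distrib, hD, Finset.sum_mul]
      refine (norm_sum_le _ _).trans (Finset.sum_le_sum fun i hi => ?_)
      rw [← mul_sub, norm_mul, mul_assoc]
      refine mul_le_mul_of_nonneg_left ((hC i hi n).trans ?_) (norm_nonneg _)
      exact mul_le_mul_of_nonneg_right (le_abs_self _) (by positivity)
    have hlow : ∀ n, ‖(2 : L)‖ ^ (n * j) * (‖W / (j.factorial : L)‖ - D * ‖(2 : L)‖ ^ n) ≤
        ‖∑ i ∈ s, c i * a i r * κ i n‖ := by
      intro n
      have h3 := herr n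
      have h4 : ‖(2 ^ n) ^ j / (j.factorial : L) * W‖ ≤
          ‖∑ i ∈ s, c i * a i r * κ i n‖ + D * ‖(2 : L)‖ ^ (n * (j + 1)) := by
        have h5 := norm_sub_norm_le ((2 ^ n) ^ j / (j.factorial : L) * W)
          (∑ i ∈ s, c i * a i r * κ i n)
        rw [norm_sub_rev] at h5
        linarith
      have h5 : ‖(2 ^ n) ^ j / (j.factorial : L) * W‖ =
          ‖(2 : L)‖ ^ (n * j) * ‖W / (j.factorial : L)‖ := by
        rw [← pow_mul, div_mul_eq_mul_div, mul_div_assoc, norm_mul, norm_pow]
      have h6 : ‖(2 : L)‖ ^ (n * (j + 1)) = ‖(2 : L)‖ ^ (n * j) * ‖(2 : L)‖ ^ n := by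
        rw [← pow_add]
        congr 1
      rw [h5, h6] at h4
      nlinarith
    have hWp : 0 < ‖W / (j.factorial : L)‖ := by
      rw [norm_pos_iff]
      exact div_ne_zero hj (Nat.cast_ne_zero.mpr (Nat.factorial_ne_zero j))
    have hlim : Filter.Tendsto (fun n : ℕ => D * ‖(2 : L)‖ ^ n) Filter.atTop (nhds 0) := by
      have := (tendsto_pow_atTop_nhds_zero_of_lt_one h2p.le h2).const_mul D
      rwa [mul_zero] at this
    obtain ⟨n₀, hn₀⟩ := Filter.eventually_atTop.mp
      (hlim.eventually (gt_mem_nhds (half_pos hWp)))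
    refine ⟨‖W / (j.factorial : L)‖ / 2, j, n₀, half_pos hWp, fun n hn hnr => ?_⟩
    rw [hE n hnr]
    refine le_trans ?_ (hlow n)
    rw [mul_comm]
    refine mul_le_mul_of_nonneg_left ?_ (by positivity)
    have := hn₀ n hn
    linarith
  · left
    push Not at hW
    have hfib := fibre_sum s (fun i => c i * a i r) l hW
    -- equal logarithms
    have heq : ∀ i ∈ s, ∀ k ∈ s, l i = l k → ∃ n₀ : ℕ, ∀ n, n₀ ≤ n → κ i n = κ k n := by
      intro i hi k hk hik
      have hOne : One fun n => κ i n / κ k n := by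
        constructor
        · intro n
          have h3 := (ha4 i hi).succ n
          have h4 := (ha4 k hk).succ n
          change κ i (n + 1) = κ i n ^ 2 at h3
          change κ k (n + 1) = κ k n ^ 2 at h4
          change κ i (n + 1) / κ k (n + 1) = (κ i n / κ k n) ^ 2
          rw [h3, h4]
          exact (div_pow (κ i n) (κ k n) 2).symm
        · intro ε hε
          obtain ⟨n₁, h3⟩ := (ha4 i hi).lim ε hε
          obtain ⟨n₂, h4⟩ := (ha4 k hk).lim ε hε
          refine ⟨max n₁ n₂, fun n hn => ?_⟩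
          have h5 : κ k n ≠ 0 := by
            rw [← norm_pos_iff, hκn k hk n]
            exact one_pos
          have h6 : κ i n / κ k n - 1 = (κ i n - κ k n) / κ k n := by
            rw [sub_div, div_self h5]
          rw [h6, norm_div, hκn k hk n, div_one]
          have h7 : κ i n - κ k n = (κ i n - 1) + (1 - κ k n) := by ring
          rw [h7]
          refine (IsUltrametricDist.norm_add_le_max _ _).trans_lt (max_lt ?_ ?_)
          · exact h3 n (le_trans (le_max_left _ _) hn)
          · rw [norm_sub_rev]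
            exact h4 n (le_trans (le_max_right _ _) hn)
      obtain ⟨C₁, hC₁⟩ := hl i hi 1
      obtain ⟨C₂, hC₂⟩ := hl k hk 1
      obtain ⟨n₀, hn₀⟩ := One.eq_one h2 hOne (C := C₁ + C₂) (by
        intro n
        have h5 : κ k n ≠ 0 := by
          rw [← norm_pos_iff, hκn k hk n]
          exact one_pos
        have h6 : κ i n / κ k n - 1 = (κ i n - κ k n) / κ k n := by
          rw [sub_div, div_self h5]
        rw [h6, norm_div, hκn k hk n, div_one]
        have h8 := hC₁ n
        have h9 := hC₂ n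
        rw [← hik] at h9
        have h7 : κ i n - κ k n =
            (κ i n - ∑ j ∈ Finset.range (1 + 1), (2 ^ n * l i) ^ j / (j.factorial : L)) -
            (κ k n - ∑ j ∈ Finset.range (1 + 1), (2 ^ n * l i) ^ j / (j.factorial : L)) := by
          ring
        rw [h7, add_mul]
        exact (norm_sub_le _ _).trans (add_le_add h8 h9))
      refine ⟨n₀, fun n hn => ?_⟩
      have h5 : κ k n ≠ 0 := by
        rw [← norm_pos_iff, hκn k hk n]
        exact one_pos
      exact (div_eq_one_iff_eq h5).mp (hn₀ n hn)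
    -- one bound for all pairs
    choose! m hm using heq
    refine ⟨s.sup fun i => s.sup fun k => m i k, fun n hn hnr => ?_⟩
    rw [hE n hnr]
    have hall : ∀ i ∈ s, ∀ k ∈ s, l i = l k → κ i n = κ k n := by
      intro i hi k hk hik
      refine hm i hi k hk hik n (le_trans ?_ hn)
      exact le_trans (Finset.le_sup (f := fun k => m i k) hk)
        (Finset.le_sup (f := fun i => s.sup fun k => m i k) hi)
    rw [← Finset.sum_fiberwise_of_maps_to (g := l) (t := s.image l)
      (fun i hi => Finset.mem_image_of_mem l hi)]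
    refine Finset.sum_eq_zero fun t ht => ?_
    obtain ⟨k, hk, rfl⟩ := Finset.mem_image.mp ht
    have h3 : ∑ i ∈ s with l i = l k, c i * a i r * κ i n =
        (∑ i ∈ s with l i = l k, c i * a i r) * κ k n := by
      rw [Finset.sum_mul]
      refine Finset.sum_congr rfl fun i hi => ?_
      rw [Finset.mem_filter] at hi
      rw [hall i hi.1 k hk hi.2]
    rw [h3, hfib, zero_mul]

end Pool.Agent.GSF
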