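import Pool.Agent.Lib.MP_e9abfe_ag_GSF.Defs
import Pool.Agent.Lib.MP_e9abfe_ag_GSF.UnitSum

/-!
# The dichotomy for sums of exact squaring sequences
-/

set_option autoImplicit false

namespace Pool.Agent.GSF

open MvPolynomial
open Pool.Agent.DMC
open Pool.Agent.MP_e9abfe (Phi pull)

variable {L : Type} [NormedField L] [IsUltrametricDist L] [CharZero L]

private theorem ExpDich_lim (b q : ℝ) (hb : 0 < b) (hq : 0 ≤ q) (hq1 : q < 1) (k : ℕ)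
    (δ K : ℝ) (hδ : 0 < δ) (hK : 0 ≤ K) :
    ∃ n₀ : ℕ, ∀ n, n₀ ≤ n → K * q ^ 2 ^ n ≤ δ * b ^ (n * k) := by
  obtain ⟨j, hj⟩ := pow_unbounded_of_one_lt ((b ^ k)⁻¹) (one_lt_two (α := ℝ))
  have hbk : 0 < b ^ k := pow_pos hb k
  have h1 : 1 ≤ b ^ k * 2 ^ j := by
    rw [← inv_mul_le_iff₀ hbk, mul_one]
    exact hj.le
  have ht1 : Filter.Tendsto (fun n : ℕ => (n : ℝ) ^ j * q ^ n) Filter.atTop (nhds 0) :=
    tendsto_pow_const_mul_const_pow_of_abs_lt_one j (by rwa [abs_of_nonneg hq])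
  have ht2 : Filter.Tendsto (fun n : ℕ => 2 ^ n) Filter.atTop Filter.atTop :=
    tendsto_pow_atTop_atTop_of_one_lt (by norm_num)
  have ht3 := (ht1.comp ht2).const_mul K
  rw [mul_zero] at ht3
  obtain ⟨n₀, hn₀⟩ := Filter.eventually_atTop.mp (ht3.eventually_le_const hδ)
  refine ⟨n₀, fun n hn => ?_⟩
  have h3 := hn₀ n hn
  simp only [Function.comp_apply, Nat.cast_pow, Nat.cast_ofNat] at h3
  have h4 : 1 ≤ b ^ (n * k) * ((2 : ℝ) ^ n) ^ j := by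
    have := one_le_pow₀ h1 (n := n)
    rw [mul_pow, ← pow_mul, ← pow_mul, mul_comm k n, mul_comm j n, pow_mul 2 n j] at this
    exact this
  have hqn : 0 ≤ q ^ 2 ^ n := pow_nonneg hq _
  calc K * q ^ 2 ^ n = K * q ^ 2 ^ n * 1 := (mul_one _).symm
    _ ≤ K * q ^ 2 ^ n * (b ^ (n * k) * ((2 : ℝ) ^ n) ^ j) :=
        mul_le_mul_of_nonneg_left h4 (mul_nonneg hK hqn)
    _ = K * (((2 : ℝ) ^ n) ^ j * q ^ 2 ^ n) * b ^ (n * k) := by ring
    _ ≤ δ * b ^ (n * k) := mul_le_mul_of_nonneg_right h3 (pow_nonneg hb.le _)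

theorem expSum_dich [CompleteSpace L] (h2 : ‖(2 : L)‖ < 1) {ι : Type} (s : Finset ι)
    (c ν : ι → L) {N : ℕ} (hN : 0 < N) (hν : ∀ i ∈ s, ν i ≠ 0)
    (hw : ∀ i ∈ s, ∀ j ∈ s, ‖ν i‖ = ‖ν j‖ → ‖(ν i / ν j) ^ (2 ^ N - 1) - 1‖ < 1) (r : ℕ) :
    Dich N r fun n => ∑ i ∈ s, c i * ν i ^ 2 ^ n := by
  classical
  intro ρ hρ
  induction hcard : s.card using Nat.strong_induction_on generalizing s with
  | _ m IH =>
  by_cases hall : ∀ i ∈ s, ‖ν i‖ ≤ ρ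
  · left
    refine ⟨∑ i ∈ s, ‖c i‖, fun n _ => ?_⟩
    refine (norm_sum_le _ _).trans ?_
    rw [Finset.sum_mul]
    apply Finset.sum_le_sum
    intro i hi
    rw [norm_mul, norm_pow]
    exact mul_le_mul_of_nonneg_left (pow_le_pow_left₀ (norm_nonneg _) (hall i hi) _)
      (norm_nonneg _)
  push Not at hall
  obtain ⟨i0, hi0, hi0ρ⟩ := hall
  obtain ⟨i1, hi1, hmax⟩ := Finset.exists_max_image s (fun i => ‖ν i‖) ⟨i0, hi0⟩
  have hMρ : ρ < ‖ν i1‖ := lt_of_lt_of_le hi0ρ (hmax i0 hi0)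
  set M : ℝ := ‖ν i1‖ with hM
  have hM0 : 0 < M := hρ.trans hMρ
  set s1 := s.filter (fun i => ‖ν i‖ = M) with hs1
  set s2 := s.filter (fun i => ¬ ‖ν i‖ = M) with hs2
  have hi1s1 : i1 ∈ s1 := by
    rw [hs1, Finset.mem_filter]
    exact ⟨hi1, rfl⟩
  have hcardlt : s2.card < m := by
    rw [← hcard]
    apply Finset.card_lt_card
    rw [hs2]
    refine ⟨Finset.filter_subset _ _, fun h => ?_⟩
    have := h hi1
    rw [Finset.mem_filter] at this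
    exact this.2 rfl
  have hsplit : ∀ n : ℕ, ∑ i ∈ s, c i * ν i ^ 2 ^ n =
      ∑ i ∈ s1, c i * ν i ^ 2 ^ n + ∑ i ∈ s2, c i * ν i ^ 2 ^ n := fun n =>
    (Finset.sum_filter_add_sum_filter_not s (fun i => ‖ν i‖ = M) _).symm
  have hν1 : ν i1 ≠ 0 := hν i1 hi1
  have htop : ∀ n : ℕ, ∑ i ∈ s1, c i * ν i ^ 2 ^ n =
      ν i1 ^ 2 ^ n * ∑ i ∈ s1, c i * (ν i / ν i1) ^ 2 ^ n := by
    intro n
    rw [Finset.mul_sum]
    apply Finset.sum_congr rfl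
    intro i _
    rw [div_pow]
    field_simp
  have hunit := unit_sum h2 s1 c (fun i => ν i / ν i1) hN
    (fun i hi => by
      rw [hs1, Finset.mem_filter] at hi
      rw [norm_div, hi.2, ← hM, div_self hM0.ne'])
    (fun i hi => by
      rw [hs1, Finset.mem_filter] at hi
      exact hw i hi.1 i1 hi1 hi.2) r
  rcases hunit with ⟨n₀, h0⟩ | ⟨δ, k, n₀, hδ, hlow⟩
  · -- the top sum vanishes
    have hs2s : ∀ i ∈ s2, i ∈ s := fun i hi => (Finset.mem_filter.mp hi).1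
    have ih := IH s2.card hcardlt s2 (fun i hi => hν i (hs2s i hi))
      (fun i hi j hj => hw i (hs2s i hi) j (hs2s j hj)) rfl
    have hz : ∀ n, n₀ ≤ n → n % N = r → ∑ i ∈ s, c i * ν i ^ 2 ^ n =
        ∑ i ∈ s2, c i * ν i ^ 2 ^ n := by
      intro n hn hr
      rw [hsplit n, htop n, h0 n hn hr, mul_zero, zero_add]
    rcases ih with ⟨C, hC⟩ | ⟨ρ', hρ', n₁, hn₁⟩
    · left
      refine ⟨|C| + ∑ n ∈ Finset.range n₀, ‖∑ i ∈ s, c i * ν i ^ 2 ^ n‖ / ρ ^ 2 ^ n, ?_⟩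
      intro n hr
      have hρn : 0 < ρ ^ 2 ^ n := pow_pos hρ _
      have hsumnn : 0 ≤ ∑ n ∈ Finset.range n₀, ‖∑ i ∈ s, c i * ν i ^ 2 ^ n‖ / ρ ^ 2 ^ n :=
        Finset.sum_nonneg fun j _ => div_nonneg (norm_nonneg _) (pow_pos hρ _).le
      by_cases hn : n₀ ≤ n
      · show ‖∑ i ∈ s, c i * ν i ^ 2 ^ n‖ ≤ _
        rw [hz n hn hr]
        refine (hC n hr).trans ?_
        apply mul_le_mul_of_nonneg_right _ hρn.le
        exact (le_abs_self C).trans (le_add_of_nonneg_right hsumnn)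
      · have hmem : n ∈ Finset.range n₀ := Finset.mem_range.mpr (not_le.mp hn)
        have h5 : ‖∑ i ∈ s, c i * ν i ^ 2 ^ n‖ / ρ ^ 2 ^ n ≤
            ∑ n ∈ Finset.range n₀, ‖∑ i ∈ s, c i * ν i ^ 2 ^ n‖ / ρ ^ 2 ^ n :=
          Finset.single_le_sum (f := fun n => ‖∑ i ∈ s, c i * ν i ^ 2 ^ n‖ / ρ ^ 2 ^ n)
            (fun j _ => div_nonneg (norm_nonneg _) (pow_pos hρ _).le) hmem
        show ‖∑ i ∈ s, c i * ν i ^ 2 ^ n‖ ≤ _
        rw [div_le_iff₀ hρn] at h5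
        refine h5.trans ?_
        apply mul_le_mul_of_nonneg_right _ hρn.le
        exact le_add_of_nonneg_left (abs_nonneg C)
    · right
      refine ⟨ρ', hρ', max n₀ n₁, fun n hn hr => ?_⟩
      show ρ' ^ 2 ^ n ≤ ‖∑ i ∈ s, c i * ν i ^ 2 ^ n‖
      rw [hz n ((le_max_left _ _).trans hn) hr]
      exact hn₁ n ((le_max_right _ _).trans hn) hr
  · -- the top sum dominates
    right
    obtain ⟨M', hM'ρ, hM'M, hM'⟩ : ∃ M' : ℝ, ρ ≤ M' ∧ M' < M ∧ ∀ i ∈ s2, ‖ν i‖ ≤ M' := by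
      by_cases hne : s2.Nonempty
      · obtain ⟨i2, hi2, hmax2⟩ := Finset.exists_max_image s2 (fun i => ‖ν i‖) hne
        refine ⟨max ρ ‖ν i2‖, le_max_left _ _, max_lt hMρ ?_, fun i hi =>
          (hmax2 i hi).trans (le_max_right _ _)⟩
        rw [hs2, Finset.mem_filter] at hi2
        exact lt_of_le_of_ne (hmax i2 hi2.1) hi2.2
      · refine ⟨ρ, le_rfl, hMρ, fun i hi => absurd ⟨i, hi⟩ hne⟩
    have hM'0 : 0 < M' := lt_of_lt_of_le hρ hM'ρ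
    set ρ' : ℝ := (M' + M) / 2 with hρ'
    have hρ'1 : M' < ρ' := by rw [hρ']; linarith
    have hρ'2 : ρ' < M := by rw [hρ']; linarith
    have hρ'0 : 0 < ρ' := hM'0.trans hρ'1
    set K : ℝ := ∑ i ∈ s2, ‖c i‖ with hK
    have hK0 : 0 ≤ K := Finset.sum_nonneg fun i _ => norm_nonneg _
    have hb : 0 < ‖(2 : L)‖ := norm_pos_iff.mpr two_ne_zero
    obtain ⟨n₁, hn₁⟩ := ExpDich_lim ‖(2 : L)‖ (ρ' / M) hb (div_nonneg hρ'0.le hM0.le)
      ((div_lt_one hM0).mpr hρ'2) k δ (K + 1) hδ (by linarith)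
    refine ⟨ρ', lt_of_le_of_lt hM'ρ hρ'1, max n₀ n₁, fun n hn hr => ?_⟩
    have e1 := hlow n ((le_max_left _ _).trans hn) hr
    have e2 := hn₁ n ((le_max_right _ _).trans hn)
    have hMn : 0 < M ^ 2 ^ n := pow_pos hM0 _
    have e3 : (K + 1) * ρ' ^ 2 ^ n ≤ ‖∑ i ∈ s1, c i * ν i ^ 2 ^ n‖ := by
      rw [htop n, norm_mul, norm_pow, ← hM]
      have : (K + 1) * ρ' ^ 2 ^ n = M ^ 2 ^ n * ((K + 1) * (ρ' / M) ^ 2 ^ n) := by
        have h6 : M * (ρ' / M) = ρ' := by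
          rw [← mul_div_assoc, mul_div_cancel_left₀ _ hM0.ne']
        rw [mul_left_comm, ← mul_pow, h6]
      rw [this]
      exact mul_le_mul_of_nonneg_left (e2.trans e1) hMn.le
    have e4 : ‖∑ i ∈ s2, c i * ν i ^ 2 ^ n‖ ≤ K * ρ' ^ 2 ^ n := by
      refine (norm_sum_le _ _).trans ?_
      rw [hK, Finset.sum_mul]
      apply Finset.sum_le_sum
      intro i hi
      rw [norm_mul, norm_pow]
      exact mul_le_mul_of_nonneg_left
        (pow_le_pow_left₀ (norm_nonneg _) ((hM' i hi).trans hρ'1.le) _) (norm_nonneg _)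
    show ρ' ^ 2 ^ n ≤ ‖∑ i ∈ s, c i * ν i ^ 2 ^ n‖
    rw [hsplit n]
    have e5 := norm_sub_le (∑ i ∈ s1, c i * ν i ^ 2 ^ n + ∑ i ∈ s2, c i * ν i ^ 2 ^ n)
      (∑ i ∈ s2, c i * ν i ^ 2 ^ n)
    rw [add_sub_cancel_right] at e5
    nlinarith [pow_pos hρ'0 (2 ^ n)]

end Pool.Agent.GSF
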