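import Pool.Agent.Lib.MP_e9abfe_ag_GSF.Defs
import Mathlib.NumberTheory.Padics.Complex
import Mathlib.NumberTheory.Padics.ProperSpace

/-!
# Units of `ℂ₂` have residue classes of finite order

Every `u` in `PadicComplex 2` with `‖u‖ = 1` satisfies `‖u ^ (2 ^ f - 1) - 1‖ < 1` for some
`f > 0`: the residue field is an algebraic extension of the field with two elements.
-/

set_option autoImplicit false

namespace Pool.Agent.GSF

section gen

variable {K : Type} [NormedField K] [IsUltrametricDist K]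

private theorem nsub (a b : K) : ‖a - b‖ ≤ max ‖a‖ ‖b‖ := by
  rw [sub_eq_add_neg, ← norm_neg b]
  exact IsUltrametricDist.norm_add_le_max a (-b)

/-- squaring is injective modulo the maximal ideal, one step -/
private theorem frob_step (h2 : ‖(2 : K)‖ < 1) {a b : K} (ha : ‖a‖ ≤ 1) (hb : ‖b‖ ≤ 1)
    (h : ‖a ^ 2 - b ^ 2‖ < 1) : ‖a - b‖ < 1 := by
  have h1 : ‖a - b‖ ≤ 1 := (nsub a b).trans (max_le ha hb)
  have h3 : (a - b) ^ 2 = (a ^ 2 - b ^ 2) - 2 * b * (a - b) := by ring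
  have h4 : ‖(a - b) ^ 2‖ < 1 := by
    rw [h3]
    refine (nsub _ _).trans_lt (max_lt h ?_)
    rw [norm_mul, norm_mul]
    calc ‖(2 : K)‖ * ‖b‖ * ‖a - b‖ ≤ ‖(2 : K)‖ * 1 * 1 := by gcongr
      _ < 1 := by simpa using h2
  rw [norm_pow] at h4
  by_contra hc
  have hc' : 1 ≤ ‖a - b‖ := not_lt.mp hc
  have : (1 : ℝ) ≤ ‖a - b‖ ^ 2 := one_le_pow₀ hc'
  linarith

/-- squaring is injective modulo the maximal ideal, iterated -/
private theorem frob_iter (h2 : ‖(2 : K)‖ < 1) (i : ℕ) {a b : K} (ha : ‖a‖ ≤ 1) (hb : ‖b‖ ≤ 1)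
    (h : ‖a ^ 2 ^ i - b ^ 2 ^ i‖ < 1) : ‖a - b‖ < 1 := by
  induction i with
  | zero => simpa using h
  | succ i ih =>
    apply ih
    refine frob_step h2 ?_ ?_ ?_
    · rw [norm_pow]; exact pow_le_one₀ (norm_nonneg _) ha
    · rw [norm_pow]; exact pow_le_one₀ (norm_nonneg _) hb
    · rw [← pow_mul, ← pow_mul, ← pow_succ]; exact h

/-- powers of close integral elements are close -/
private theorem pow_close {a b : K} (ha : ‖a‖ ≤ 1) (hb : ‖b‖ ≤ 1) (h : ‖a - b‖ < 1) (k : ℕ) :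
    ‖a ^ k - b ^ k‖ < 1 := by
  induction k with
  | zero => simp
  | succ k ih =>
    have h3 : a ^ (k + 1) - b ^ (k + 1) = a ^ k * (a - b) + (a ^ k - b ^ k) * b := by ring
    rw [h3]
    refine (IsUltrametricDist.norm_add_le_max _ _).trans_lt (max_lt ?_ ?_)
    · rw [norm_mul, norm_pow]
      calc ‖a‖ ^ k * ‖a - b‖ ≤ 1 * ‖a - b‖ := by
            gcongr; exact pow_le_one₀ (norm_nonneg _) ha
        _ < 1 := by simpa using h
    · rw [norm_mul]
      calc ‖a ^ k - b ^ k‖ * ‖b‖ ≤ ‖a ^ k - b ^ k‖ * 1 := by gcongr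
        _ < 1 := by simpa using ih

/-- two close terms in the sequence of squares give the conclusion -/
private theorem frob_of_close (h2 : ‖(2 : K)‖ < 1) {u : K} (hu : ‖u‖ = 1) {i j : ℕ} (hij : i < j)
    (h : ‖u ^ 2 ^ i - u ^ 2 ^ j‖ < 1) : ∃ f : ℕ, 0 < f ∧ ‖u ^ (2 ^ f - 1) - 1‖ < 1 := by
  refine ⟨j - i, Nat.sub_pos_of_lt hij, ?_⟩
  set f := j - i with hf
  have hj : j = f + i := by omega
  have h3 : ‖u - u ^ 2 ^ f‖ < 1 := by
    refine frob_iter h2 i hu.le ?_ ?_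
    · rw [norm_pow, hu, one_pow]
    · rw [← pow_mul, ← pow_add, ← hj]; exact h
  have h5 : 1 ≤ 2 ^ f := Nat.one_le_two_pow
  have h4 : u - u ^ 2 ^ f = -(u * (u ^ (2 ^ f - 1) - 1)) := by
    have : u ^ 2 ^ f = u * u ^ (2 ^ f - 1) := by
      rw [← pow_succ']
      congr 1
      omega
    rw [this]; ring
  rw [h4, norm_neg, norm_mul, hu, one_mul] at h3
  exact h3

end gen

section alg

variable {E : Type} [NormedField E] [IsUltrametricDist E] [NormedAlgebra ℚ_[2] E]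

/-- the algebraic case -/
private theorem frob_alg (u : E) (hu : ‖u‖ = 1) (hint : IsIntegral ℚ_[2] u) :
    ∃ f : ℕ, 0 < f ∧ ‖u ^ (2 ^ f - 1) - 1‖ < 1 := by
  have h2 : ‖(2 : E)‖ < 1 := by
    have h' : algebraMap ℚ_[2] E (2 : ℚ_[2]) = (2 : E) := map_ofNat _ 2
    have h'' : ‖(2 : ℚ_[2])‖ < 1 := by
      have := Padic.norm_p (p := 2)
      norm_num at this
      rw [this]; norm_num
    rw [← h', norm_algebraMap']
    exact h''
  let W : Submodule ℚ_[2] E :=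
    Subalgebra.toSubmodule (Algebra.adjoin ℚ_[2] ({u} : Set E))
  have hW : ∀ k : ℕ, u ^ k ∈ W := fun k =>
    Subalgebra.pow_mem _ (Algebra.subset_adjoin (Set.mem_singleton u)) k
  have hfin : FiniteDimensional ℚ_[2] W := Module.Finite.iff_fg.mpr hint.fg_adjoin_singleton
  have hprop : ProperSpace W := FiniteDimensional.proper ℚ_[2] W
  let x : ℕ → W := fun i => ⟨u ^ 2 ^ i, hW _⟩
  have hx : ∀ n, x n ∈ Metric.closedBall (0 : W) 1 := by
    intro n
    rw [mem_closedBall_zero_iff]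
    change ‖u ^ 2 ^ n‖ ≤ 1
    rw [norm_pow, hu, one_pow]
  obtain ⟨a, -, φ, hφ, hlim⟩ := (isCompact_closedBall (0 : W) 1).tendsto_subseq hx
  have hc := hlim.cauchySeq
  rw [Metric.cauchySeq_iff] at hc
  obtain ⟨n₀, hn₀⟩ := hc 1 one_pos
  have h3 := hn₀ n₀ le_rfl (n₀ + 1) (Nat.le_succ _)
  have h4 : ‖u ^ 2 ^ φ n₀ - u ^ 2 ^ φ (n₀ + 1)‖ < 1 := by
    rw [dist_eq_norm] at h3
    exact h3
  exact frob_of_close h2 hu (hφ (Nat.lt_succ_self n₀)) h4

end alg

theorem frob (u : PadicComplex 2) (hu : ‖u‖ = 1) :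
    ∃ f : ℕ, 0 < f ∧ ‖u ^ (2 ^ f - 1) - 1‖ < 1 := by
  obtain ⟨v, hv⟩ : ∃ v : PadicAlgCl 2, ‖u - (v : PadicComplex 2)‖ < 1 := by
    have hd := UniformSpace.Completion.denseRange_coe (α := PadicAlgCl 2)
    obtain ⟨v, hv⟩ := hd.exists_dist_lt u one_pos
    exact ⟨v, by rwa [dist_eq_norm] at hv⟩
  have hv1 : ‖(v : PadicComplex 2)‖ = 1 := by
    have h1 : ‖(v : PadicComplex 2)‖ ≤ 1 := by
      have h : (v : PadicComplex 2) = u - (u - v) := by ring
      rw [h]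
      exact (nsub _ _).trans (max_le hu.le hv.le)
    refine le_antisymm h1 ?_
    by_contra hc
    have hc' : ‖(v : PadicComplex 2)‖ < 1 := not_le.mp hc
    have h : u = (u - v) + v := by ring
    have h3 : ‖u‖ < 1 := by
      rw [h]
      exact (IsUltrametricDist.norm_add_le_max _ _).trans_lt (max_lt hv hc')
    linarith
  obtain ⟨f, hf, h⟩ := frob_alg v (by rw [← PadicComplex.norm_extends]; exact hv1)
    (Algebra.IsAlgebraic.isAlgebraic v).isIntegral
  refine ⟨f, hf, ?_⟩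
  have h3 : ‖u ^ (2 ^ f - 1) - (v : PadicComplex 2) ^ (2 ^ f - 1)‖ < 1 :=
    pow_close hu.le hv1.le hv _
  have h4 : ‖(v : PadicComplex 2) ^ (2 ^ f - 1) - 1‖ < 1 := by
    have h5 : ((v ^ (2 ^ f - 1) - 1 : PadicAlgCl 2) : PadicComplex 2) =
        (v : PadicComplex 2) ^ (2 ^ f - 1) - 1 := by
      rw [PadicComplex.coe_eq, PadicComplex.coe_eq]
      simp
    rw [← h5, PadicComplex.norm_extends]
    exact h
  have h6 : u ^ (2 ^ f - 1) - 1 = (u ^ (2 ^ f - 1) - (v : PadicComplex 2) ^ (2 ^ f - 1)) +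
      ((v : PadicComplex 2) ^ (2 ^ f - 1) - 1) := by ring
  rw [h6]
  exact (IsUltrametricDist.norm_add_le_max _ _).trans_lt (max_lt h3 h4)

end Pool.Agent.GSF
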