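import Pool.Agent.Lib.MP_e9abfe_ag_GSF.Orbit
import Pool.Agent.Lib.MP_e9abfe_ag_GSF.Frob
import Pool.Agent.Lib.MP_e9abfe_ag_GSF.Emb2
import Pool.Agent.Lib.MP_e9abfe_ag_DMC.Fin

/-!
# Module G16 of project GSF: the theorem over the complex numbers
-/

set_option autoImplicit false

namespace Pool.Agent.GSF

open MvPolynomial
open Pool.Agent.DMC
open Pool.Agent.MP_e9abfe (Phi Phi_iter_map)

theorem fin_eval {K L : Type} [Field K] [Field L] (φ : K →+* L) {n : ℕ}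
    (g : MvPolynomial (Fin n) K) (x : Fin n → K) :
    eval (fun i => φ (x i)) (map φ g) = φ (eval x g) := by
  rw [eval_map]
  exact (eval₂_comp_left φ (RingHom.id _) x g).symm

theorem final (α : Fin 3 → ℂ) (S : Set (MvPolynomial (Fin 3) ℂ)) (f : MvPolynomial (Fin 3) ℂ)
    (hf : ∀ i, coeff (Finsupp.single i f.totalDegree) f ≠ 0)
    (hS : ∀ v : Fin 3 → ℂ, (∀ g ∈ S, eval v g = 0) → eval v f = 0) :
    ∃ F : Finset (ℕ × ℕ),
      {n : ℕ | ∀ g ∈ S,
          eval ((fun v : Fin 3 → ℂ => ![v 0 ^ 2 + v 1, v 1 ^ 2 + v 2, v 2 ^ 2 + v 0])^[n] α) g = 0}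
        = {m : ℕ | ∃ p ∈ F, ∃ j : ℕ, m = p.1 + p.2 * j} := by
  change ∃ F : Finset (ℕ × ℕ), {n : ℕ | ∀ f ∈ S, eval (Phi^[n] α) f = 0}
        = {m : ℕ | ∃ p ∈ F, ∃ j : ℕ, m = p.1 + p.2 * j}
  by_cases hα : ∀ P : MvPolynomial (Fin 3) ℤ, 2 * aeval α P ≠ 1
  · exact Fin_integral α hα S
  push Not at hα
  obtain ⟨P, hP⟩ := hα
  obtain ⟨e⟩ : Nonempty (ℂ ≃+* PadicComplex 2) :=
    IsAlgClosed.ringEquiv_of_equiv_of_charZero
      (by rw [Cardinal.mk_complex]; exact Cardinal.aleph0_lt_continuum)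
      (Cardinal.eq.1 emb_mk.symm)
  let φ : ℂ →+* PadicComplex 2 := e
  have hβ : ∃ i, 1 < ‖φ (α i)‖ := Fin_big Fin_two φ α P hP
  have hiter : ∀ n, Phi^[n] (fun i => φ (α i)) = fun i => φ (Phi^[n] α i) := fun n =>
    Phi_iter_map φ n α
  have hz : ∀ (g : MvPolynomial (Fin 3) ℂ) (n : ℕ),
      eval (Phi^[n] fun i => φ (α i)) (map φ g) = 0 ↔ eval (Phi^[n] α) g = 0 := by
    intro g n
    rw [hiter, fin_eval]
    exact map_eq_zero_iff φ φ.injective
  have hdeg : (map φ f).totalDegree = f.totalDegree := by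
    unfold totalDegree
    rw [support_map_of_injective f φ.injective]
  obtain ⟨F, hF⟩ := orbit_main Fin_two frob (fun i => φ (α i)) hβ (map φ f)
    (fun i => by
      rw [hdeg, coeff_map]
      exact fun h => hf i ((map_eq_zero_iff φ φ.injective).1 h))
    (map φ '' S)
    (fun n hn => by
      rw [hz]
      refine hS _ fun g hg => ?_
      rw [← hz]
      exact hn _ ⟨g, hg, rfl⟩)
  refine ⟨F, ?_⟩
  rw [← hF]
  ext n
  constructor
  · rintro h _ ⟨g, hg, rfl⟩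
    exact (hz g n).2 (h g hg)
  · intro h g hg
    exact (hz g n).1 (h _ ⟨g, hg, rfl⟩)

end Pool.Agent.GSF
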