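import Pool.Agent.Lib.MP_e9abfe_ag_GSF.EtalePair
import Pool.Agent.Lib.MP_e9abfe_ag.Esc

/-!
# Flat polynomials vanish along the orbit from some point on
-/

set_option autoImplicit false

namespace Pool.Agent.GSF

open MvPolynomial
open Pool.Agent.DMC
open Pool.Agent.MP_e9abfe (Phi pull)

variable {L : Type} [NormedField L]

/-- Smaller than every level on the class `r`. -/
private def FZ_flat (N r : ℕ) (u : ℕ → ℝ) : Prop :=
  ∀ ρ : ℝ, 0 < ρ → ∃ C : ℝ, ∀ n, n % N = r → u n ≤ C * ρ ^ 2 ^ n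

private theorem FZ_not_ge {N r : ℕ} (hr : r < N) {u : ℕ → ℝ} (hu : FZ_flat N r u) {c ρ : ℝ}
    (hc : 0 < c) (hρ : 0 < ρ) {n₀ : ℕ}
    (h : ∀ n, n₀ ≤ n → n % N = r → c * ρ ^ 2 ^ n ≤ u n) : False := by
  obtain ⟨C, hC⟩ := hu (ρ / 2) (half_pos hρ)
  have hlim : Filter.Tendsto (fun n : ℕ => |C| * (1 / 2 : ℝ) ^ n) Filter.atTop (nhds 0) := by
    have h1 := (tendsto_pow_atTop_nhds_zero_of_lt_one (r := (1 / 2 : ℝ)) (by norm_num)
      (by norm_num)).const_mul |C|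
    rwa [mul_zero] at h1
  obtain ⟨n₁, hn₁⟩ := Filter.eventually_atTop.1 (hlim.eventually (gt_mem_nhds hc))
  set n : ℕ := r + N * (n₀ + n₁) with hn
  have hN : 0 < N := by omega
  have hge : n₀ + n₁ ≤ n := by
    have := Nat.le_mul_of_pos_left (n₀ + n₁) hN
    omega
  have hmod : n % N = r := by
    rw [hn, Nat.add_mul_mod_self_left, Nat.mod_eq_of_lt hr]
  have h2 := (h n (by omega) hmod).trans (hC n hmod)
  have h3 := hn₁ n (by omega)
  have h4 : (ρ / 2) ^ 2 ^ n = ρ ^ 2 ^ n * (1 / 2) ^ 2 ^ n := by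
    rw [← mul_pow]
    congr 1
    ring
  have hp : 0 < ρ ^ 2 ^ n := by positivity
  have h5 : c * ρ ^ 2 ^ n ≤ (C * (1 / 2) ^ 2 ^ n) * ρ ^ 2 ^ n := by
    rw [h4] at h2
    calc c * ρ ^ 2 ^ n ≤ C * (ρ ^ 2 ^ n * (1 / 2) ^ 2 ^ n) := h2
      _ = (C * (1 / 2) ^ 2 ^ n) * ρ ^ 2 ^ n := by ring
  have h6 := le_of_mul_le_mul_right h5 hp
  have h7 : (1 / 2 : ℝ) ^ 2 ^ n ≤ (1 / 2) ^ n :=
    pow_le_pow_of_le_one (by norm_num) (by norm_num) Nat.lt_two_pow_self.le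
  have h8 : C * (1 / 2) ^ 2 ^ n ≤ |C| * (1 / 2) ^ n :=
    mul_le_mul (le_abs_self C) h7 (by positivity) (abs_nonneg C)
  linarith

private theorem FZ_bound {v : ℕ → Fin 3 → L} {R : ℝ} (hR : 1 ≤ R)
    (hvR : ∀ n i, ‖v n i‖ ≤ R ^ 2 ^ n) (g : MvPolynomial (Fin 3) L) :
    ∃ C M : ℝ, 0 ≤ C ∧ 1 ≤ M ∧ ∀ n, ‖eval (v n) g‖ ≤ C * M ^ 2 ^ n := by
  induction g using MvPolynomial.induction_on with
  | C a => exact ⟨‖a‖, 1, norm_nonneg _, le_rfl, fun n => by simp⟩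
  | add p q hp hq =>
    obtain ⟨C1, M1, hC1, hM1, h1⟩ := hp
    obtain ⟨C2, M2, hC2, hM2, h2⟩ := hq
    refine ⟨C1 + C2, M1 * M2, add_nonneg hC1 hC2, one_le_mul_of_one_le_of_one_le hM1 hM2,
      fun n => ?_⟩
    rw [map_add, add_mul]
    refine (norm_add_le _ _).trans (add_le_add ((h1 n).trans ?_) ((h2 n).trans ?_))
    · exact mul_le_mul_of_nonneg_left (pow_le_pow_left₀ (by linarith)
        (le_mul_of_one_le_right (by linarith) hM2) _) hC1
    · exact mul_le_mul_of_nonneg_left (pow_le_pow_left₀ (by linarith)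
        (le_mul_of_one_le_left (by linarith) hM1) _) hC2
  | mul_X p i hp =>
    obtain ⟨C1, M1, hC1, hM1, h1⟩ := hp
    refine ⟨C1, M1 * R, hC1, one_le_mul_of_one_le_of_one_le hM1 hR, fun n => ?_⟩
    rw [map_mul, eval_X, norm_mul, mul_pow, ← mul_assoc]
    exact mul_le_mul (h1 n) (hvR n i) (norm_nonneg _) (by positivity)

private theorem FZ_eval_pull {v : ℕ → Fin 3 → L} (hv : ∀ n, v (n + 1) = Phi (v n)) (n : ℕ)
    (g : MvPolynomial (Fin 3) L) : eval (v n) (pull L g) = eval (v (n + 1)) g := by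
  have h1 : (eval (v n)).comp ((pull L : MvPolynomial (Fin 3) L →ₐ[L] MvPolynomial (Fin 3) L) :
      MvPolynomial (Fin 3) L →+* MvPolynomial (Fin 3) L) = eval (v (n + 1)) := by
    apply MvPolynomial.ringHom_ext
    · intro r
      simp [pull]
    · intro i
      simp only [RingHom.comp_apply, RingHom.coe_coe, Pool.Agent.MP_e9abfe.pull_X, eval_X]
      rw [hv, Pool.Agent.MP_e9abfe.Phi_apply, Pool.Agent.MP_e9abfe.Phi_apply]
      simp
  exact congrArg (fun f : MvPolynomial (Fin 3) L →+* L => f g) h1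

/-- The ideal of the polynomials which are flat on the class `r`. -/
private def FZ_B (N : ℕ) (v : ℕ → Fin 3 → L) {R : ℝ} (hR : 1 ≤ R)
    (hvR : ∀ n i, ‖v n i‖ ≤ R ^ 2 ^ n) (r : ℕ) : Ideal (MvPolynomial (Fin 3) L) where
  carrier := {g | FZ_flat N r fun n => ‖eval (v n) g‖}
  zero_mem' := fun ρ _ => ⟨0, fun n _ => by simp⟩
  add_mem' := by
    intro a b ha hb ρ hρ
    obtain ⟨C1, h1⟩ := ha ρ hρ
    obtain ⟨C2, h2⟩ := hb ρ hρ
    refine ⟨C1 + C2, fun n hn => ?_⟩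
    show ‖eval (v n) (a + b)‖ ≤ _
    rw [map_add, add_mul]
    exact (norm_add_le _ _).trans (add_le_add (h1 n hn) (h2 n hn))
  smul_mem' := by
    intro c a ha ρ hρ
    obtain ⟨C, M, hC, hM, hb⟩ := FZ_bound hR hvR c
    obtain ⟨K, h1⟩ := ha (ρ / M) (by positivity)
    refine ⟨C * K, fun n hn => ?_⟩
    show ‖eval (v n) (c * a)‖ ≤ _
    rw [map_mul, norm_mul]
    have h2 := h1 n hn
    calc ‖eval (v n) c‖ * ‖eval (v n) a‖ ≤ (C * M ^ 2 ^ n) * (K * (ρ / M) ^ 2 ^ n) :=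
          mul_le_mul (hb n) h2 (norm_nonneg _) (by positivity)
      _ = C * K * ρ ^ 2 ^ n := by
          rw [div_pow]
          field_simp

section ideal

variable {N : ℕ} {v : ℕ → Fin 3 → L} {R : ℝ} (hR : 1 ≤ R) (hvR : ∀ n i, ‖v n i‖ ≤ R ^ 2 ^ n)

private theorem FZ_mem (r : ℕ) (g : MvPolynomial (Fin 3) L) :
    g ∈ FZ_B N v hR hvR r ↔ FZ_flat N r fun n => ‖eval (v n) g‖ := Iff.rfl

private theorem FZ_lower (hD : ∀ (g : MvPolynomial (Fin 3) L) (r : ℕ),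
    Dich N r fun n => eval (v n) g) (r : ℕ) (g : MvPolynomial (Fin 3) L)
    (hg : g ∉ FZ_B N v hR hvR r) :
    ∃ ρ : ℝ, 0 < ρ ∧ ∃ n₀ : ℕ, ∀ n, n₀ ≤ n → n % N = r → ρ ^ 2 ^ n ≤ ‖eval (v n) g‖ := by
  rw [FZ_mem] at hg
  unfold FZ_flat at hg
  push Not at hg
  obtain ⟨ρ, hρ, h1⟩ := hg
  rcases hD g r ρ hρ with ⟨C, h2⟩ | ⟨ρ', hρ', n₀, h2⟩
  · obtain ⟨n, hn, h3⟩ := h1 C
    exact absurd (h2 n hn) (not_le.2 h3)
  · exact ⟨ρ', hρ.trans hρ', n₀, h2⟩

private theorem FZ_prime (hD : ∀ (g : MvPolynomial (Fin 3) L) (r : ℕ),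
    Dich N r fun n => eval (v n) g) {r : ℕ} (hr : r < N) :
    (FZ_B N v hR hvR r).IsPrime := by
  refine ⟨?_, ?_⟩
  · intro h
    have h1 : (1 : MvPolynomial (Fin 3) L) ∈ FZ_B N v hR hvR r := by
      rw [h]; exact Submodule.mem_top
    refine FZ_not_ge hr h1 one_pos one_pos (n₀ := 0) (fun n _ _ => ?_)
    simp
  · intro a b hab
    by_contra hcon
    push Not at hcon
    obtain ⟨ρ1, hρ1, n1, h1⟩ := FZ_lower hR hvR hD r a hcon.1
    obtain ⟨ρ2, hρ2, n2, h2⟩ := FZ_lower hR hvR hD r b hcon.2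
    refine FZ_not_ge hr hab one_pos (mul_pos hρ1 hρ2) (n₀ := n1 + n2) (fun n hn hr => ?_)
    have h3 := h1 n (by omega) hr
    have h4 := h2 n (by omega) hr
    rw [map_mul, norm_mul, one_mul, mul_pow]
    exact mul_le_mul h3 h4 (by positivity) (norm_nonneg _)

private theorem FZ_comap (hv : ∀ n, v (n + 1) = Phi (v n)) {r : ℕ} (hr : r < N) :
    (FZ_B N v hR hvR r).comap (pull L) = FZ_B N v hR hvR ((r + 1) % N) := by
  ext g
  rw [Ideal.mem_comap, FZ_mem, FZ_mem]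
  have h1 : (fun n => ‖eval (v n) (pull L g)‖) = fun n => ‖eval (v (n + 1)) g‖ := by
    funext n; rw [FZ_eval_pull hv n g]
  rw [h1]
  constructor
  · intro h ρ hρ
    obtain ⟨C, hC⟩ := h (ρ ^ 2) (by positivity)
    refine ⟨max C (‖eval (v 0) g‖ / ρ ^ 2 ^ 0), fun n hn => ?_⟩
    cases n with
    | zero =>
      have h2 : ‖eval (v 0) g‖ = ‖eval (v 0) g‖ / ρ ^ 2 ^ 0 * ρ ^ 2 ^ 0 := by
        field_simp
      show ‖eval (v 0) g‖ ≤ _
      calc ‖eval (v 0) g‖ = ‖eval (v 0) g‖ / ρ ^ 2 ^ 0 * ρ ^ 2 ^ 0 := h2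
        _ ≤ _ := mul_le_mul_of_nonneg_right (le_max_right _ _) (by positivity)
    | succ n =>
      have hmod : n % N = r := by
        have h3 : n + 1 ≡ r + 1 [MOD N] := hn.trans (Nat.mod_mod_of_dvd _ dvd_rfl ▸ rfl)
        have h4 : n ≡ r [MOD N] := Nat.ModEq.add_right_cancel' 1 h3
        have h5 : n % N = r % N := h4
        rwa [Nat.mod_eq_of_lt hr] at h5
      have h2 := hC n hmod
      show ‖eval (v (n + 1)) g‖ ≤ _
      have h3 : (ρ ^ 2) ^ 2 ^ n = ρ ^ 2 ^ (n + 1) := by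
        rw [← pow_mul, ← pow_succ']
      rw [h3] at h2
      exact h2.trans (mul_le_mul_of_nonneg_right (le_max_left _ _) (by positivity))
  · intro h ρ hρ
    obtain ⟨C, hC⟩ := h (√ρ) (Real.sqrt_pos.2 hρ)
    refine ⟨C, fun n hn => ?_⟩
    have hmod : (n + 1) % N = (r + 1) % N := by
      rw [← Nat.mod_add_mod, hn]
    have h2 := hC (n + 1) hmod
    have h3 : (√ρ) ^ 2 ^ (n + 1) = ρ ^ 2 ^ n := by
      rw [pow_succ', pow_mul, Real.sq_sqrt hρ.le]
    rw [h3] at h2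
    exact h2

private theorem FZ_jac {n₁ : ℕ}
    (hJ : ∀ n, n₁ ≤ n → 1 ≤ ‖1 + 8 * (v n 0 * v n 1 * v n 2)‖) {r : ℕ} (hr : r < N) :
    (1 + 8 * (X 0 * X 1 * X 2) : MvPolynomial (Fin 3) L) ∉ FZ_B N v hR hvR r := by
  intro h
  refine FZ_not_ge hr h one_pos one_pos (n₀ := n₁) (fun n hn _ => ?_)
  have h8 : eval (v n) (8 : MvPolynomial (Fin 3) L) = 8 := map_ofNat (eval (v n)) 8
  have h1 : eval (v n) (1 + 8 * (X 0 * X 1 * X 2) : MvPolynomial (Fin 3) L)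
      = 1 + 8 * (v n 0 * v n 1 * v n 2) := by
    rw [map_add, map_mul, h8]
    simp
  show 1 * 1 ^ 2 ^ n ≤ ‖eval (v n) (1 + 8 * (X 0 * X 1 * X 2) : MvPolynomial (Fin 3) L)‖
  rw [h1, one_pow, one_mul]
  exact hJ n hn

/-- Elements of the extended ideal are controlled by the generators at the next time. -/
private theorem FZ_ctrl (hv : ∀ n, v (n + 1) = Phi (v n))
    (G : Finset (MvPolynomial (Fin 3) L)) {r' : ℕ}
    (hG : Ideal.span (G : Set (MvPolynomial (Fin 3) L)) = FZ_B N v hR hvR r') :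
    ∀ f ∈ Ideal.map (pull L) (FZ_B N v hR hvR r'), ∃ C M : ℝ, 0 ≤ C ∧ 1 ≤ M ∧
      ∀ n, ‖eval (v n) f‖ ≤ C * M ^ 2 ^ n * ∑ g ∈ G, ‖eval (v (n + 1)) g‖ := by
  have hm0 : ∀ n, 0 ≤ ∑ g ∈ G, ‖eval (v (n + 1)) g‖ :=
    fun n => Finset.sum_nonneg (fun g _ => norm_nonneg _)
  have hmap : Ideal.map (pull L) (FZ_B N v hR hvR r')
      = Ideal.span ((pull L) '' (G : Set (MvPolynomial (Fin 3) L))) := by
    rw [← Ideal.map_span, hG]
  intro f hf
  rw [hmap] at hf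
  induction hf using Submodule.span_induction with
  | mem x hx =>
    obtain ⟨g, hg, rfl⟩ := hx
    refine ⟨1, 1, zero_le_one, le_rfl, fun n => ?_⟩
    rw [FZ_eval_pull hv, one_pow, one_mul, one_mul]
    exact Finset.single_le_sum (f := fun g => ‖eval (v (n + 1)) g‖)
      (fun g _ => norm_nonneg _) hg
  | zero => exact ⟨0, 1, le_rfl, le_rfl, fun n => by simp⟩
  | add x y _ _ hx hy =>
    obtain ⟨C1, M1, hC1, hM1, h1⟩ := hx
    obtain ⟨C2, M2, hC2, hM2, h2⟩ := hy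
    refine ⟨C1 + C2, M1 * M2, add_nonneg hC1 hC2, one_le_mul_of_one_le_of_one_le hM1 hM2,
      fun n => ?_⟩
    have a1 : M1 ^ 2 ^ n ≤ (M1 * M2) ^ 2 ^ n :=
      pow_le_pow_left₀ (by linarith) (le_mul_of_one_le_right (by linarith) hM2) _
    have a2 : M2 ^ 2 ^ n ≤ (M1 * M2) ^ 2 ^ n :=
      pow_le_pow_left₀ (by linarith) (le_mul_of_one_le_left (by linarith) hM1) _
    rw [map_add, add_mul, add_mul]
    refine (norm_add_le _ _).trans (add_le_add ((h1 n).trans ?_) ((h2 n).trans ?_))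
    · exact mul_le_mul_of_nonneg_right (mul_le_mul_of_nonneg_left a1 hC1) (hm0 n)
    · exact mul_le_mul_of_nonneg_right (mul_le_mul_of_nonneg_left a2 hC2) (hm0 n)
  | smul c x _ hx =>
    obtain ⟨C1, M1, hC1, hM1, h1⟩ := hx
    obtain ⟨C2, M2, hC2, hM2, h2⟩ := FZ_bound hR hvR c
    refine ⟨C2 * C1, M2 * M1, mul_nonneg hC2 hC1, one_le_mul_of_one_le_of_one_le hM2 hM1,
      fun n => ?_⟩
    rw [smul_eq_mul, map_mul, norm_mul, mul_pow]
    calc ‖eval (v n) c‖ * ‖eval (v n) x‖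
        ≤ (C2 * M2 ^ 2 ^ n) * (C1 * M1 ^ 2 ^ n * ∑ g ∈ G, ‖eval (v (n + 1)) g‖) :=
          mul_le_mul (h2 n) (h1 n) (norm_nonneg _) (by positivity)
      _ = _ := by ring

/-- The basic inequality for one class. -/
private theorem FZ_ineq (hN : 0 < N) (hv : ∀ n, v (n + 1) = Phi (v n))
    (hD : ∀ (g : MvPolynomial (Fin 3) L) (r : ℕ), Dich N r fun n => eval (v n) g) {n₁ : ℕ}
    (hJ : ∀ n, n₁ ≤ n → 1 ≤ ‖1 + 8 * (v n 0 * v n 1 * v n 2)‖)
    (G : ℕ → Finset (MvPolynomial (Fin 3) L))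
    (hG : ∀ r, Ideal.span (G r : Set (MvPolynomial (Fin 3) L)) = FZ_B N v hR hvR r)
    (r : ℕ) : ∃ (K : ℝ) (n₀ : ℕ), 1 ≤ K ∧ ∀ n, n₀ ≤ n → n % N = r →
      ∑ g ∈ G (n % N), ‖eval (v n) g‖ ≤
        K ^ 2 ^ n * ∑ g ∈ G ((n + 1) % N), ‖eval (v (n + 1)) g‖ := by
  classical
  by_cases hr : r < N
  swap
  · refine ⟨1, 0, le_rfl, fun n _ hn => ?_⟩
    have := Nat.mod_lt n hN
    omega
  have hr' : (r + 1) % N < N := Nat.mod_lt _ hN
  have := FZ_prime hR hvR hD hr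
  have := FZ_prime hR hvR hD hr'
  obtain ⟨h, hh, hmul⟩ := etale_pair L (FZ_B N v hR hvR r) (FZ_B N v hR hvR ((r + 1) % N))
    (FZ_comap hR hvR hv hr) (FZ_jac hR hvR hJ hr)
  have hGmem : ∀ g ∈ G r, g ∈ FZ_B N v hR hvR r := fun g hg => by
    rw [← hG r]; exact Ideal.subset_span hg
  set m' : ℕ → ℝ := fun n => ∑ g ∈ G ((r + 1) % N), ‖eval (v (n + 1)) g‖ with hm'
  have hm0 : ∀ n, 0 ≤ m' n := fun n => Finset.sum_nonneg (fun g _ => norm_nonneg _)
  have hsum : ∀ G' ⊆ G r, ∃ C M : ℝ, 0 ≤ C ∧ 1 ≤ M ∧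
      ∀ n, ∑ g ∈ G', ‖eval (v n) (h * g)‖ ≤ C * M ^ 2 ^ n * m' n := by
    intro G'
    induction G' using Finset.induction_on with
    | empty => intro _; exact ⟨0, 1, le_rfl, le_rfl, fun n => by simp⟩
    | insert g s hgs ih =>
      intro hsub
      obtain ⟨C1, M1, hC1, hM1, h1⟩ := ih (fun x hx => hsub (Finset.mem_insert_of_mem hx))
      obtain ⟨C2, M2, hC2, hM2, h2⟩ := FZ_ctrl hR hvR hv (G ((r + 1) % N)) (hG _) (h * g)
        (hmul g (hGmem g (hsub (Finset.mem_insert_self g s))))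
      refine ⟨C2 + C1, M2 * M1, add_nonneg hC2 hC1, one_le_mul_of_one_le_of_one_le hM2 hM1,
        fun n => ?_⟩
      rw [Finset.sum_insert hgs, add_mul, add_mul]
      have a1 : M1 ^ 2 ^ n ≤ (M2 * M1) ^ 2 ^ n :=
        pow_le_pow_left₀ (by linarith) (le_mul_of_one_le_left (by linarith) hM2) _
      have a2 : M2 ^ 2 ^ n ≤ (M2 * M1) ^ 2 ^ n :=
        pow_le_pow_left₀ (by linarith) (le_mul_of_one_le_right (by linarith) hM1) _
      refine add_le_add ((h2 n).trans ?_) ((h1 n).trans ?_)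
      · exact mul_le_mul_of_nonneg_right (mul_le_mul_of_nonneg_left a2 hC2) (hm0 n)
      · exact mul_le_mul_of_nonneg_right (mul_le_mul_of_nonneg_left a1 hC1) (hm0 n)
  obtain ⟨C, M, hC, hM, hsum'⟩ := hsum (G r) (Finset.Subset.refl _)
  obtain ⟨ρ, hρ, n₀, hlow⟩ := FZ_lower hR hvR hD r h hh
  refine ⟨max 1 C * max 1 (M / ρ), n₀, ?_, fun n hn hnr => ?_⟩
  · exact one_le_mul_of_one_le_of_one_le (le_max_left _ _) (le_max_left _ _)
  · have hnr' : (n + 1) % N = (r + 1) % N := by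
      rw [← Nat.mod_add_mod, hnr]
    rw [hnr, hnr']
    have h2 : ‖eval (v n) h‖ * ∑ g ∈ G r, ‖eval (v n) g‖ ≤ C * M ^ 2 ^ n * m' n := by
      have h3 := hsum' n
      simp only [map_mul, norm_mul] at h3
      rwa [← Finset.mul_sum] at h3
    have h3 : ρ ^ 2 ^ n * ∑ g ∈ G r, ‖eval (v n) g‖ ≤ C * M ^ 2 ^ n * m' n :=
      (mul_le_mul_of_nonneg_right (hlow n hn hnr)
        (Finset.sum_nonneg (fun g _ => norm_nonneg _))).trans h2
    have h4 : ∑ g ∈ G r, ‖eval (v n) g‖ ≤ C * (M / ρ) ^ 2 ^ n * m' n := by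
      have hp : 0 < ρ ^ 2 ^ n := by positivity
      rw [div_pow]
      have e1 : C * (M ^ 2 ^ n / ρ ^ 2 ^ n) * m' n = (C * M ^ 2 ^ n * m' n) / ρ ^ 2 ^ n := by
        ring
      rw [e1, le_div_iff₀ hp, mul_comm]
      exact h3
    refine h4.trans (mul_le_mul_of_nonneg_right ?_ (hm0 n))
    have h5 : C ≤ (max 1 C) ^ 2 ^ n :=
      (le_max_right 1 C).trans (le_self_pow₀ (le_max_left _ _) (by positivity))
    have h6 : (M / ρ) ^ 2 ^ n ≤ (max 1 (M / ρ)) ^ 2 ^ n :=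
      pow_le_pow_left₀ (by positivity) (le_max_right _ _) _
    rw [mul_pow]
    exact mul_le_mul h5 h6 (by positivity) (by positivity)

end ideal

theorem flat_zero {v : ℕ → Fin 3 → L} {N : ℕ} (hN : 0 < N) (hv : ∀ n, v (n + 1) = Phi (v n))
    {R : ℝ} (hR : 1 ≤ R) (hvR : ∀ n i, ‖v n i‖ ≤ R ^ 2 ^ n)
    (hD : ∀ (g : MvPolynomial (Fin 3) L) (r : ℕ), Dich N r fun n => eval (v n) g) {n₁ : ℕ}
    (hJ : ∀ n, n₁ ≤ n → 1 ≤ ‖1 + 8 * (v n 0 * v n 1 * v n 2)‖) :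
    ∃ n₀ : ℕ, ∀ (g : MvPolynomial (Fin 3) L) (r : ℕ),
      {n | n % N = r ∧ eval (v n) g = 0}.Infinite →
        ∀ n, n₀ ≤ n → n % N = r → eval (v n) g = 0 := by
  classical
  -- generators
  have hGex : ∀ r, ∃ G : Finset (MvPolynomial (Fin 3) L),
      Ideal.span (G : Set (MvPolynomial (Fin 3) L)) = FZ_B N v hR hvR r :=
    fun r => (IsNoetherian.noetherian (FZ_B N v hR hvR r) : (FZ_B N v hR hvR r).FG)
  choose G hG using hGex
  have hGmem : ∀ r, ∀ g ∈ G r, g ∈ FZ_B N v hR hvR r := fun r g hg => by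
    rw [← hG r]; exact Ideal.subset_span hg
  choose K₁ k₁ hK₁ hineq₁ using fun r => FZ_ineq hR hvR hN hv hD hJ G hG r
  set m : ℕ → ℝ := fun n => ∑ g ∈ G (n % N), ‖eval (v n) g‖ with hm
  have hm0 : ∀ n, 0 ≤ m n := fun n => Finset.sum_nonneg (fun g _ => norm_nonneg _)
  set K : ℝ := 1 + ∑ r ∈ Finset.range N, K₁ r with hK
  set n₀ : ℕ := ∑ r ∈ Finset.range N, k₁ r with hn₀
  have hK1 : 1 ≤ K := by
    rw [hK]
    have : 0 ≤ ∑ r ∈ Finset.range N, K₁ r :=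
      Finset.sum_nonneg fun r _ => zero_le_one.trans (hK₁ r)
    linarith
  have hineq : ∀ n, n₀ ≤ n → m n ≤ K ^ 2 ^ n * m (n + 1) := by
    intro n hn
    have hr : n % N ∈ Finset.range N := Finset.mem_range.2 (Nat.mod_lt n hN)
    have h1 : k₁ (n % N) ≤ n₀ := Finset.single_le_sum (f := k₁) (fun _ _ => Nat.zero_le _) hr
    have h2 : K₁ (n % N) ≤ K := by
      have := Finset.single_le_sum (f := K₁) (fun r _ => zero_le_one.trans (hK₁ r)) hr
      linarith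
    refine (hineq₁ (n % N) n (by omega) rfl).trans ?_
    exact mul_le_mul_of_nonneg_right (pow_le_pow_left₀ (zero_le_one.trans (hK₁ _)) h2 _)
      (hm0 (n + 1))
  have hmzero : ∀ n, n₀ ≤ n → m n = 0 := by
    intro n2 hn2
    by_contra hne
    have hpos : 0 < m n2 := lt_of_le_of_ne (hm0 n2) (Ne.symm hne)
    have hchain : ∀ d, m n2 ≤ K ^ 2 ^ (n2 + d) * m (n2 + d) := by
      intro d
      induction d with
      | zero =>
        rw [add_zero]
        exact le_mul_of_one_le_left (hm0 n2) (one_le_pow₀ hK1)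
      | succ d ih =>
        have h1 := hineq (n2 + d) (by omega)
        have h2 : 0 ≤ K ^ 2 ^ (n2 + d) := by positivity
        calc m n2 ≤ K ^ 2 ^ (n2 + d) * m (n2 + d) := ih
          _ ≤ K ^ 2 ^ (n2 + d) * (K ^ 2 ^ (n2 + d) * m (n2 + d + 1)) :=
            mul_le_mul_of_nonneg_left h1 h2
          _ = K ^ 2 ^ (n2 + (d + 1)) * m (n2 + (d + 1)) := by
            rw [← mul_assoc, ← pow_add, ← add_assoc, pow_succ 2 (n2 + d), mul_two]
    -- but `m` is flat on the class `0`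
    have hflat : FZ_flat N 0 m := by
      intro ρ hρ
      have h1 : ∀ G' ⊆ G 0, ∃ C : ℝ, ∀ n, n % N = 0 →
          ∑ g ∈ G', ‖eval (v n) g‖ ≤ C * ρ ^ 2 ^ n := by
        intro G'
        induction G' using Finset.induction_on with
        | empty => intro _; exact ⟨0, fun n _ => by simp⟩
        | insert g s hgs ih =>
          intro hsub
          obtain ⟨C1, h1⟩ := ih (fun x hx => hsub (Finset.mem_insert_of_mem hx))
          obtain ⟨C2, h2⟩ := hGmem 0 g (hsub (Finset.mem_insert_self g s)) ρ hρ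
          refine ⟨C2 + C1, fun n hn => ?_⟩
          rw [Finset.sum_insert hgs, add_mul]
          exact add_le_add (h2 n hn) (h1 n hn)
      obtain ⟨C, hC⟩ := h1 (G 0) (Finset.Subset.refl _)
      refine ⟨C, fun n hn => ?_⟩
      have := hC n hn
      simp only [hm, hn]
      exact this
    refine FZ_not_ge hN hflat hpos (ρ := K⁻¹) (by positivity) (n₀ := n2) (fun n hn _ => ?_)
    obtain ⟨d, rfl⟩ := Nat.exists_eq_add_of_le hn
    have h1 := hchain d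
    have h2 : 0 < K ^ 2 ^ (n2 + d) := by positivity
    rw [inv_pow, ← div_eq_mul_inv, div_le_iff₀ h2, mul_comm]
    exact h1
  refine ⟨n₀, fun g r hinf n hn hnr => ?_⟩
  have hr : r < N := by
    rw [← hnr]; exact Nat.mod_lt n hN
  have hmem : g ∈ FZ_B N v hR hvR r := by
    by_contra hcon
    obtain ⟨ρ, hρ, n2, h2⟩ := FZ_lower hR hvR hD r g hcon
    apply hinf
    apply (Set.finite_Iio n2).subset
    rintro k ⟨hk, hk0⟩
    rw [Set.mem_Iio]
    by_contra hle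
    push Not at hle
    have h1 := h2 k hle hk
    rw [hk0, norm_zero] at h1
    have : 0 < ρ ^ 2 ^ k := by positivity
    linarith
  have h1 : ∀ g' ∈ G r, eval (v n) g' = 0 := by
    intro g' hg'
    have h0 := hmzero n hn
    simp only [hm, hnr] at h0
    have h2 := (Finset.sum_eq_zero_iff_of_nonneg (fun g _ => norm_nonneg (eval (v n) g))).1
      h0 g' hg'
    exact norm_eq_zero.1 h2
  rw [← hG r] at hmem
  clear hinf
  induction hmem using Submodule.span_induction with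
  | mem x hx => exact h1 x hx
  | zero => simp
  | add x y _ _ hx hy => rw [map_add, hx, hy, add_zero]
  | smul c x _ hx => rw [smul_eq_mul, map_mul, hx, mul_zero]

end Pool.Agent.GSF
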