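import Pool.Agent.Lib.MP_e9abfe_ag_GSF.Lattice

/-!
# Project GSF, module G8a: sequences approximated by exact squaring sequences
-/

set_option autoImplicit false

namespace Pool.Agent.GSF

open MvPolynomial
open Pool.Agent.DMC
open Pool.Agent.MP_e9abfe (Phi pull)

variable {L : Type} [NormedField L] [IsUltrametricDist L] [CharZero L]

theorem AA_dich [CompleteSpace L] (h2 : ‖(2 : L)‖ < 1) {a : Fin 3 → L} (ha : ∀ i, a i ≠ 0)
    {N : ℕ} (hN : 0 < N)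
    (hw : ∀ m : Fin 3 → ℤ, ‖chi a m‖ = 1 → ‖chi a m ^ (2 ^ N - 1) - 1‖ < 1) {g : ℕ → L}
    (hg : AA a g) (r : ℕ) : Dich N r g := by
  intro ρ hρ
  obtain ⟨e, he, C, hC⟩ := hg ρ hρ
  rcases EE_dich h2 ha hN hw he r ρ hρ with ⟨C', hC'⟩ | ⟨ρ', hρ', n₀, hn₀⟩
  · left
    refine ⟨C + C', fun n hn => ?_⟩
    calc ‖g n‖ = ‖(g n - e n) + e n‖ := by rw [sub_add_cancel]
      _ ≤ ‖g n - e n‖ + ‖e n‖ := norm_add_le _ _
      _ ≤ C * ρ ^ 2 ^ n + C' * ρ ^ 2 ^ n := add_le_add (hC n) (hC' n hn)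
      _ = (C + C') * ρ ^ 2 ^ n := by ring
  · right
    have h1 : 1 < ρ' / ρ := (one_lt_div hρ).2 hρ'
    have ht : Filter.Tendsto (fun n : ℕ => (ρ' / ρ) ^ 2 ^ n) Filter.atTop Filter.atTop :=
      (tendsto_pow_atTop_atTop_of_one_lt h1).comp
        (tendsto_pow_atTop_atTop_of_one_lt (one_lt_two (α := ℕ)))
    obtain ⟨n₁, hn₁⟩ := Filter.eventually_atTop.1 (ht.eventually_gt_atTop C)
    refine ⟨ρ', hρ', max n₀ n₁, fun n hn hr => ?_⟩
    have h3 := hn₀ n ((le_max_left _ _).trans hn) hr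
    have h4 := hn₁ n ((le_max_right _ _).trans hn)
    rw [div_pow, lt_div_iff₀ (pow_pos hρ _)] at h4
    have h5 : ‖g n - e n‖ < ‖e n‖ := lt_of_le_of_lt (hC n) (lt_of_lt_of_le h4 h3)
    have h6 : ‖g n‖ = ‖e n‖ := by
      have h7 := IsUltrametricDist.norm_add_eq_max_of_norm_ne_norm h5.ne
      rw [sub_add_cancel, max_eq_right h5.le] at h7
      exact h7
    rw [h6]
    exact h3

private theorem FreeAlg_add {a : Fin 3 → L} {f g : ℕ → L} (hf : AA a f) (hg : AA a g) :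
    AA a fun n => f n + g n := by
  intro ρ hρ
  obtain ⟨e, he, C, hC⟩ := hf ρ hρ
  obtain ⟨e', he', C', hC'⟩ := hg ρ hρ
  refine ⟨e + e', add_mem he he', C + C', fun n => ?_⟩
  have h1 : f n + g n - (e + e') n = (f n - e n) + (g n - e' n) := by
    rw [Pi.add_apply]
    ring
  rw [h1, add_mul]
  exact (norm_add_le _ _).trans (add_le_add (hC n) (hC' n))

private theorem FreeAlg_const (a : Fin 3 → L) (c : L) : AA a fun _ => c := by
  intro ρ _
  refine ⟨fun _ => c, EE_const a c, 0, fun n => ?_⟩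
  simp

private theorem FreeAlg_bdd {a : Fin 3 → L} {f : ℕ → L} (hf : AA a f) :
    ∃ C M : ℝ, 1 ≤ M ∧ ∀ n, ‖f n‖ ≤ C * M ^ 2 ^ n := by
  obtain ⟨e, he, C, hC⟩ := hf 1 one_pos
  obtain ⟨C', M, hM, hM'⟩ := EE_bdd he
  refine ⟨C + C', M, hM, fun n => ?_⟩
  have h1 := hC n
  rw [one_pow, mul_one] at h1
  have hC0 : 0 ≤ C := (norm_nonneg _).trans h1
  have h2 : 1 ≤ M ^ 2 ^ n := one_le_pow₀ hM
  calc ‖f n‖ = ‖(f n - e n) + e n‖ := by rw [sub_add_cancel]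
    _ ≤ ‖f n - e n‖ + ‖e n‖ := norm_add_le _ _
    _ ≤ C * 1 + C' * M ^ 2 ^ n := add_le_add (by linarith) (hM' n)
    _ ≤ C * M ^ 2 ^ n + C' * M ^ 2 ^ n := by gcongr
    _ = (C + C') * M ^ 2 ^ n := by ring

private theorem FreeAlg_mul {a : Fin 3 → L} (ha : ∀ i, a i ≠ 0) {f g : ℕ → L} (hf : AA a f)
    (hg : AA a g) : AA a fun n => f n * g n := by
  intro ρ hρ
  obtain ⟨Cf, Mf, hMf, hf'⟩ := FreeAlg_bdd hf
  have hMf0 : 0 < Mf := by linarith
  obtain ⟨e', he', C', hC'⟩ := hg (ρ / Mf) (by positivity)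
  obtain ⟨Cg, Mg, hMg, hg'⟩ := EE_bdd he'
  have hMg0 : 0 < Mg := by linarith
  obtain ⟨e, he, C, hC⟩ := hf (ρ / Mg) (by positivity)
  refine ⟨fun n => e n * e' n, EE_mul ha he he', Cf * C' + C * Cg, fun n => ?_⟩
  have h1 : f n * g n - e n * e' n = f n * (g n - e' n) + (f n - e n) * e' n := by ring
  have h2 : ‖f n * (g n - e' n)‖ ≤ Cf * C' * ρ ^ 2 ^ n := by
    rw [norm_mul]
    calc ‖f n‖ * ‖g n - e' n‖ ≤ (Cf * Mf ^ 2 ^ n) * (C' * (ρ / Mf) ^ 2 ^ n) :=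
          mul_le_mul (hf' n) (hC' n) (norm_nonneg _) ((norm_nonneg _).trans (hf' n))
      _ = Cf * C' * ρ ^ 2 ^ n := by
          rw [div_pow]
          field_simp
  have h3 : ‖(f n - e n) * e' n‖ ≤ C * Cg * ρ ^ 2 ^ n := by
    rw [norm_mul]
    calc ‖f n - e n‖ * ‖e' n‖ ≤ (C * (ρ / Mg) ^ 2 ^ n) * (Cg * Mg ^ 2 ^ n) :=
          mul_le_mul (hC n) (hg' n) (norm_nonneg _) ((norm_nonneg _).trans (hC n))
      _ = C * Cg * ρ ^ 2 ^ n := by
          rw [div_pow]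
          field_simp
  rw [h1, add_mul]
  exact (norm_add_le _ _).trans (add_le_add h2 h3)

theorem AA_poly {a : Fin 3 → L} (ha : ∀ i, a i ≠ 0) {x y z : ℕ → L} (hx : AA a x)
    (hy : AA a y) (hz : AA a z) (P : MvPolynomial (Fin 3) L) :
    AA a fun n => eval ![x n, y n, z n] P := by
  induction P using MvPolynomial.induction_on with
  | C c =>
    simp only [eval_C]
    exact FreeAlg_const a c
  | add p q hp hq =>
    simp only [map_add]
    exact FreeAlg_add hp hq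
  | mul_X p i hp =>
    simp only [map_mul, eval_X]
    refine FreeAlg_mul ha hp ?_
    fin_cases i
    · exact hx
    · exact hy
    · exact hz

end Pool.Agent.GSF
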