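import Pool.Agent.Lib.MP_e9abfe_ag_GSF.Defs
import Pool.Agent.Lib.MP_e9abfe_ag_GSF.ExpDich

/-!
# The module `EE a` of exponential sums along the lattice of exponents
-/

set_option autoImplicit false

namespace Pool.Agent.GSF

open MvPolynomial
open Pool.Agent.DMC
open Pool.Agent.MP_e9abfe (Phi pull)

variable {L : Type} [NormedField L]

theorem Lat_chi_ne {a : Fin 3 → L} (ha : ∀ i, a i ≠ 0) (m : Fin 3 → ℤ) : chi a m ≠ 0 := by
  unfold chi
  exact Finset.prod_ne_zero_iff.2 fun i _ => zpow_ne_zero _ (ha i)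

theorem Lat_chi_add {a : Fin 3 → L} (ha : ∀ i, a i ≠ 0) (m m' : Fin 3 → ℤ) :
    chi a (m + m') = chi a m * chi a m' := by
  unfold chi
  rw [← Finset.prod_mul_distrib]
  exact Finset.prod_congr rfl fun i _ => by rw [Pi.add_apply, zpow_add₀ (ha i)]

theorem Lat_chi_zero (a : Fin 3 → L) : chi a 0 = 1 := by
  unfold chi
  simp

theorem Lat_chi_neg (a : Fin 3 → L) (m : Fin 3 → ℤ) : chi a (-m) = (chi a m)⁻¹ := by
  unfold chi
  rw [← Finset.prod_inv_distrib]
  exact Finset.prod_congr rfl fun i _ => by rw [Pi.neg_apply, zpow_neg]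

theorem Lat_chi_sub {a : Fin 3 → L} (ha : ∀ i, a i ≠ 0) (m m' : Fin 3 → ℤ) :
    chi a (m - m') = chi a m / chi a m' := by
  rw [sub_eq_add_neg, Lat_chi_add ha, Lat_chi_neg, div_eq_mul_inv]

theorem Lat_chi_sq (a : Fin 3 → L) (m : Fin 3 → ℤ) :
    chi a (fun i => m i * 2) = chi a m ^ 2 := by
  unfold chi
  rw [← Finset.prod_pow]
  refine Finset.prod_congr rfl fun i _ => ?_
  rw [zpow_mul]
  norm_cast

section units

variable [IsUltrametricDist L]

theorem Lat_norm_one {u : L} (hu : ‖u - 1‖ < 1) : ‖u‖ = 1 := by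
  have h1 : ‖u - 1‖ < ‖(1 : L)‖ := by rwa [norm_one]
  have h2 := IsUltrametricDist.norm_add_eq_max_of_norm_ne_norm h1.ne
  rw [sub_add_cancel, norm_one, max_eq_right hu.le] at h2
  exact h2

theorem Lat_one_mul {u v : L} (hu : ‖u - 1‖ < 1) (hv : ‖v - 1‖ < 1) : ‖u * v - 1‖ < 1 := by
  have h1 : u * v - 1 = (u - 1) * v + (v - 1) := by ring
  rw [h1]
  refine lt_of_le_of_lt (IsUltrametricDist.norm_add_le_max _ _) (max_lt ?_ hv)
  rw [norm_mul, Lat_norm_one hv, mul_one]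
  exact hu

theorem Lat_one_inv {u : L} (hu : ‖u - 1‖ < 1) : ‖u⁻¹ - 1‖ < 1 := by
  have h0 : u ≠ 0 := by
    rintro rfl
    rw [zero_sub, norm_neg, norm_one] at hu
    exact lt_irrefl _ hu
  have h1 : u⁻¹ - 1 = -((u - 1) * u⁻¹) := by
    field_simp
    ring
  rw [h1, norm_neg, norm_mul, norm_inv, Lat_norm_one hu, inv_one, mul_one]
  exact hu

theorem Lat_one_pow {u : L} (hu : ‖u - 1‖ < 1) (n : ℕ) : ‖u ^ n - 1‖ < 1 := by
  induction n with
  | zero => rw [pow_zero, sub_self, norm_zero]; exact one_pos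
  | succ n ih => rw [pow_succ]; exact Lat_one_mul ih hu

theorem Lat_pow_dvd {u : L} {f N : ℕ} (h : f ∣ N) (hu : ‖u ^ (2 ^ f - 1) - 1‖ < 1) :
    ‖u ^ (2 ^ N - 1) - 1‖ < 1 := by
  obtain ⟨c, rfl⟩ := h
  have h1 : 2 ^ f - 1 ∣ 2 ^ (f * c) - 1 := by
    have h2 := Nat.sub_dvd_pow_sub_pow (2 ^ f) 1 c
    rwa [one_pow, ← pow_mul] at h2
  obtain ⟨d, hd⟩ := h1
  rw [hd, pow_mul]
  exact Lat_one_pow hu d

theorem exists_modulus (hfr : ∀ u : L, ‖u‖ = 1 → ∃ f : ℕ, 0 < f ∧ ‖u ^ (2 ^ f - 1) - 1‖ < 1)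
    (a : Fin 3 → L) (ha : ∀ i, a i ≠ 0) :
    ∃ N : ℕ, 0 < N ∧ ∀ m : Fin 3 → ℤ, ‖chi a m‖ = 1 → ‖chi a m ^ (2 ^ N - 1) - 1‖ < 1 := by
  classical
  let Λ : Submodule ℤ (Fin 3 → ℤ) := AddSubgroup.toIntSubmodule
    { carrier := {m | ‖chi a m‖ = 1}
      add_mem' := by
        intro m m' h h'
        change ‖chi a (m + m')‖ = 1
        have h1 : ‖chi a m‖ = 1 := h
        have h2 : ‖chi a m'‖ = 1 := h'
        rw [Lat_chi_add ha, norm_mul, h1, h2, one_mul]
      zero_mem' := by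
        change ‖chi a 0‖ = 1
        rw [Lat_chi_zero, norm_one]
      neg_mem' := by
        intro m h
        change ‖chi a (-m)‖ = 1
        have h1 : ‖chi a m‖ = 1 := h
        rw [Lat_chi_neg, norm_inv, h1, inv_one] }
  have hΛ : ∀ m, m ∈ Λ ↔ ‖chi a m‖ = 1 := fun m => Iff.rfl
  obtain ⟨S, hS⟩ := (IsNoetherian.noetherian Λ : Λ.FG)
  have hf : ∀ m : Fin 3 → ℤ, ∃ f : ℕ, 0 < f ∧
      (‖chi a m‖ = 1 → ‖chi a m ^ (2 ^ f - 1) - 1‖ < 1) := by
    intro m
    by_cases h : ‖chi a m‖ = 1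
    · obtain ⟨f, hf0, hf1⟩ := hfr _ h
      exact ⟨f, hf0, fun _ => hf1⟩
    · exact ⟨1, one_pos, fun h' => absurd h' h⟩
  choose f hf0 hf1 using hf
  refine ⟨∏ m ∈ S, f m, Finset.prod_pos fun m _ => hf0 m, ?_⟩
  intro m hm
  have hm' : m ∈ Submodule.span ℤ (S : Set (Fin 3 → ℤ)) := by
    rw [hS]
    exact hm
  induction hm' using Submodule.span_induction with
  | mem x hx =>
    have hx' : ‖chi a x‖ = 1 := by
      rw [← hΛ, ← hS]
      exact Submodule.subset_span hx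
    exact Lat_pow_dvd (Finset.dvd_prod_of_mem f hx) (hf1 x hx')
  | zero =>
    rw [Lat_chi_zero, one_pow, sub_self, norm_zero]
    exact one_pos
  | add x y hx hy ihx ihy =>
    rw [hS] at hx hy
    rw [Lat_chi_add ha, mul_pow]
    exact Lat_one_mul (ihx hx) (ihy hy)
  | smul c x hx ihx =>
    rw [hS] at hx
    have h1 := ihx hx
    have hn : ∀ n : ℕ, ‖chi a ((n : ℤ) • x) ^ (2 ^ (∏ m ∈ S, f m) - 1) - 1‖ < 1 := by
      intro n
      induction n with
      | zero =>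
        rw [Nat.cast_zero, zero_smul, Lat_chi_zero, one_pow, sub_self, norm_zero]
        exact one_pos
      | succ n ih =>
        rw [Nat.cast_succ, add_smul, one_smul, Lat_chi_add ha, mul_pow]
        exact Lat_one_mul ih h1
    rcases Int.eq_nat_or_neg c with ⟨n, rfl | rfl⟩
    · exact hn n
    · rw [neg_smul, Lat_chi_neg, inv_pow]
      exact Lat_one_inv (hn n)

end units

theorem EE_mono (a : Fin 3 → L) (c : L) (m : Fin 3 → ℤ) :
    (fun n => c * chi a m ^ 2 ^ n) ∈ EE a :=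
  (EE a).smul_mem c (Submodule.subset_span ⟨m, rfl⟩)

theorem EE_const (a : Fin 3 → L) (c : L) : (fun _ => c) ∈ EE a := by
  have h := EE_mono a c 0
  simpa [Lat_chi_zero] using h

theorem EE_mul {a : Fin 3 → L} (ha : ∀ i, a i ≠ 0) {f g : ℕ → L} (hf : f ∈ EE a)
    (hg : g ∈ EE a) : (fun n => f n * g n) ∈ EE a := by
  unfold EE at hf
  induction hf using Submodule.span_induction with
  | mem f hf =>
    obtain ⟨m, rfl⟩ := hf
    unfold EE at hg
    induction hg using Submodule.span_induction with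
    | mem g hg =>
      obtain ⟨m', rfl⟩ := hg
      refine Submodule.subset_span ⟨m + m', ?_⟩
      funext n
      change chi a (m + m') ^ 2 ^ n = _
      rw [Lat_chi_add ha, mul_pow]
    | zero =>
      have : (fun n => chi a m ^ 2 ^ n * (0 : ℕ → L) n) = 0 := by
        funext n
        simp
      rw [this]
      exact (EE a).zero_mem
    | add g g' _ _ ih ih' =>
      have : (fun n => chi a m ^ 2 ^ n * (g + g') n) =
          (fun n => chi a m ^ 2 ^ n * g n) + (fun n => chi a m ^ 2 ^ n * g' n) := by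
        funext n
        simp [mul_add]
      rw [this]
      exact (EE a).add_mem ih ih'
    | smul c g _ ih =>
      have : (fun n => chi a m ^ 2 ^ n * (c • g) n) =
          c • (fun n => chi a m ^ 2 ^ n * g n) := by
        funext n
        simp [mul_left_comm]
      rw [this]
      exact (EE a).smul_mem c ih
  | zero =>
    have : (fun n => (0 : ℕ → L) n * g n) = 0 := by
      funext n
      simp
    rw [this]
    exact (EE a).zero_mem
  | add f f' _ _ ih ih' =>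
    have : (fun n => (f + f') n * g n) = (fun n => f n * g n) + (fun n => f' n * g n) := by
      funext n
      simp [add_mul]
    rw [this]
    exact (EE a).add_mem ih ih'
  | smul c f _ ih =>
    have : (fun n => (c • f) n * g n) = c • (fun n => f n * g n) := by
      funext n
      simp [mul_assoc]
    rw [this]
    exact (EE a).smul_mem c ih

theorem EE_shift {a : Fin 3 → L} {f : ℕ → L} (hf : f ∈ EE a) : (fun n => f (n + 1)) ∈ EE a := by
  unfold EE at hf
  induction hf using Submodule.span_induction with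
  | mem f hf =>
    obtain ⟨m, rfl⟩ := hf
    refine Submodule.subset_span ⟨fun i => m i * 2, ?_⟩
    funext n
    change chi a (fun i => m i * 2) ^ 2 ^ n = chi a m ^ 2 ^ (n + 1)
    rw [Lat_chi_sq, ← pow_mul, ← pow_succ']
  | zero => exact (EE a).zero_mem
  | add f f' _ _ ih ih' => exact (EE a).add_mem ih ih'
  | smul c f _ ih => exact (EE a).smul_mem c ih

theorem Lat_bdd {a : Fin 3 → L} {f : ℕ → L} (hf : f ∈ EE a) :
    ∃ C M : ℝ, 0 ≤ C ∧ 1 ≤ M ∧ ∀ n, ‖f n‖ ≤ C * M ^ 2 ^ n := by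
  unfold EE at hf
  induction hf using Submodule.span_induction with
  | mem f hf =>
    obtain ⟨m, rfl⟩ := hf
    refine ⟨1, max 1 ‖chi a m‖, zero_le_one, le_max_left _ _, fun n => ?_⟩
    rw [norm_pow, one_mul]
    exact pow_le_pow_left₀ (norm_nonneg _) (le_max_right _ _) _
  | zero => exact ⟨0, 1, le_rfl, le_rfl, fun n => by simp⟩
  | add f f' _ _ ih ih' =>
    obtain ⟨C, M, hC, hM, h⟩ := ih
    obtain ⟨C', M', hC', hM', h'⟩ := ih'
    refine ⟨C + C', max M M', add_nonneg hC hC', hM.trans (le_max_left _ _), fun n => ?_⟩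
    rw [add_mul]
    refine (norm_add_le _ _).trans (add_le_add ((h n).trans ?_) ((h' n).trans ?_))
    · exact mul_le_mul_of_nonneg_left
        (pow_le_pow_left₀ (zero_le_one.trans hM) (le_max_left _ _) _) hC
    · exact mul_le_mul_of_nonneg_left
        (pow_le_pow_left₀ (zero_le_one.trans hM') (le_max_right _ _) _) hC'
  | smul c f _ ih =>
    obtain ⟨C, M, hC, hM, h⟩ := ih
    refine ⟨‖c‖ * C, M, mul_nonneg (norm_nonneg _) hC, hM, fun n => ?_⟩
    rw [Pi.smul_apply, smul_eq_mul, norm_mul, mul_assoc]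
    exact mul_le_mul_of_nonneg_left (h n) (norm_nonneg _)

theorem EE_bdd {a : Fin 3 → L} {f : ℕ → L} (hf : f ∈ EE a) :
    ∃ C M : ℝ, 1 ≤ M ∧ ∀ n, ‖f n‖ ≤ C * M ^ 2 ^ n := by
  obtain ⟨C, M, -, hM, h⟩ := Lat_bdd hf
  exact ⟨C, M, hM, h⟩

theorem EE_dich [IsUltrametricDist L] [CharZero L] [CompleteSpace L] (h2 : ‖(2 : L)‖ < 1)
    {a : Fin 3 → L} (ha : ∀ i, a i ≠ 0)
    {N : ℕ} (hN : 0 < N)
    (hw : ∀ m : Fin 3 → ℤ, ‖chi a m‖ = 1 → ‖chi a m ^ (2 ^ N - 1) - 1‖ < 1) {f : ℕ → L}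
    (hf : f ∈ EE a) (r : ℕ) : Dich N r f := by
  unfold EE at hf
  obtain ⟨c, hc⟩ := Finsupp.mem_span_range_iff_exists_finsupp.1 hf
  have h1 : f = fun n => ∑ m ∈ c.support, c m * chi a m ^ 2 ^ n := by
    rw [← hc]
    funext n
    rw [Finsupp.sum, Finset.sum_apply]
    rfl
  rw [h1]
  refine expSum_dich h2 c.support c (chi a) hN (fun m _ => Lat_chi_ne ha m) ?_ r
  intro m _ m' _ hm
  rw [← Lat_chi_sub ha]
  apply hw
  rw [Lat_chi_sub ha, norm_div, hm, div_self]
  exact norm_ne_zero_iff.2 (Lat_chi_ne ha m')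

end Pool.Agent.GSF
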