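import Pool.Agent.Lib.MP_e9abfe_ag_GSF.Defs
import Pool.Agent.Lib.MP_e9abfe_ag_GSF.Lattice
import Pool.Agent.Lib.MP_e9abfe_ag_GSF.FreeAlg
import Pool.Agent.Lib.MP_e9abfe_ag_DMC.Boe

/-!
# GSF, module G8b: free orbits are approximated by exact squaring sequences
-/

set_option autoImplicit false

namespace Pool.Agent.GSF

open MvPolynomial
open Pool.Agent.DMC
open Pool.Agent.MP_e9abfe (Phi pull)

variable {L : Type} [NormedField L] [IsUltrametricDist L] [CharZero L]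

omit [CharZero L] in
private theorem FA_add {a b : L} (h : ‖b‖ < ‖a‖) : ‖a + b‖ = ‖a‖ := by
  rw [IsUltrametricDist.norm_add_eq_max_of_norm_ne_norm h.ne', max_eq_left h.le]

omit [CharZero L] in
private theorem FA_succ {p q : ℕ → L} {n : ℕ} (hrec : p (n + 1) = p n ^ 2 + q n)
    (hp : ‖p n‖ = ‖p 0‖ ^ 2 ^ n) (hq : ‖q n‖ = ‖q 0‖ ^ 2 ^ n) (h : ‖q 0‖ < ‖p 0‖ ^ 2) :
    ‖p (n + 1)‖ = ‖p 0‖ ^ 2 ^ (n + 1) := by
  have h1 : ‖q n‖ < ‖p n ^ 2‖ := by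
    rw [norm_pow, hp, hq, ← pow_mul, mul_comm (2 ^ n) 2, pow_mul]
    exact pow_lt_pow_left₀ h (norm_nonneg _) (by positivity)
  rw [hrec, FA_add h1, norm_pow, hp, ← pow_mul, pow_succ 2 n]

omit [CharZero L] in
private theorem FA_size {x y z : ℕ → L} (h : Free x y z) (n : ℕ) :
    ‖x n‖ = ‖x 0‖ ^ 2 ^ n ∧ ‖y n‖ = ‖y 0‖ ^ 2 ^ n ∧ ‖z n‖ = ‖z 0‖ ^ 2 ^ n := by
  induction n with
  | zero => simp
  | succ n ih =>
    obtain ⟨h1, h2, h3⟩ := ih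
    exact ⟨FA_succ (h.x_succ n) h1 h2 h.hx, FA_succ (h.y_succ n) h2 h3 h.hy,
      FA_succ (h.z_succ n) h3 h1 h.hz⟩

private theorem FA_ne {p : ℕ → L} (hp : ∀ n, ‖p n‖ = ‖p 0‖ ^ 2 ^ n) (h0 : 1 < ‖p 0‖) (n : ℕ) :
    p n ≠ 0 := by
  intro h
  have h1 := hp n
  rw [h, norm_zero] at h1
  have h2 : 0 < ‖p 0‖ ^ 2 ^ n := pow_pos (zero_lt_one.trans h0) _
  linarith

/-- the Boettcher coordinate of one coordinate of a free orbit -/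
private theorem FA_coord [CompleteSpace L] [IsAlgClosed L] (h2 : ‖(2 : L)‖ < 1) {p q : ℕ → L}
    (hrec : ∀ n, p (n + 1) = p n ^ 2 + q n) (hp : ∀ n, ‖p n‖ = ‖p 0‖ ^ 2 ^ n)
    (hq : ∀ n, ‖q n‖ = ‖q 0‖ ^ 2 ^ n) (h : ‖q 0‖ < ‖p 0‖ ^ 2) (hp1 : 1 < ‖p 0‖)
    (hq1 : 1 < ‖q 0‖) : ∃ X : ℕ → L, (∀ n, X n ≠ 0) ∧ (∀ n, X n = X 0 ^ 2 ^ n) ∧
      ‖X 0‖ = ‖p 0‖ ∧ Ses fun n => p n / X n - 1 := by
  have hp0 : 0 < ‖p 0‖ := zero_lt_one.trans hp1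
  have hq0 : 0 < ‖q 0‖ := zero_lt_one.trans hq1
  have hpn := FA_ne hp hp1
  obtain ⟨X, hX0, hX, hs⟩ := boettcher h2 (x := p) (e := fun n => q n / p n ^ 2) hpn
    (fun n => by
      have := hpn n
      rw [hrec]
      field_simp)
    ⟨1, ‖q 0‖ / ‖p 0‖ ^ 2, one_pos, by positivity, (div_lt_one (by positivity)).2 h, fun n => by
      rw [norm_div, norm_pow, hp, hq, one_mul, div_pow, ← pow_mul, ← pow_mul,
        mul_comm (2 ^ n) 2]⟩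
  have hXn : ∀ n, X n = X 0 ^ 2 ^ n := by
    intro n
    induction n with
    | zero => simp
    | succ n ih => rw [hX, ih, ← pow_mul, pow_succ 2 n]
  refine ⟨X, hX0, hXn, ?_, hs⟩
  obtain ⟨n₀, hn₀⟩ := hs.lt one_pos
  have h3 := hn₀ n₀ le_rfl
  have h4 : ‖p n₀ / X n₀‖ = 1 := by
    have h5 : p n₀ / X n₀ = 1 + (p n₀ / X n₀ - 1) := by ring
    rw [h5, FA_add (by rw [norm_one]; exact h3), norm_one]
  rw [norm_div, div_eq_one_iff_eq (norm_ne_zero_iff.2 (hX0 n₀)), hp, hXn n₀, norm_pow] at h4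
  exact ((pow_left_inj₀ (norm_nonneg _) (norm_nonneg _) (by positivity)).1 h4).symm

/-- `ξ` is approximated by elements of `EE a` to order `r` -/
private def Ap (a : Fin 3 → L) (r : ℝ) (ξ : ℕ → L) : Prop :=
  ∃ e ∈ EE a, ∃ C : ℝ, 0 ≤ C ∧ ∀ n, ‖ξ n - e n‖ ≤ C * r ^ 2 ^ n

private theorem FA_step {a : Fin 3 → L} (ha : ∀ i, a i ≠ 0) {ρ θ C₀ : ℝ} (hρ : 0 < ρ)
    (hρθ : ρ ≤ θ) (hθ1 : θ ≤ 1) (hC₀ : 0 ≤ C₀) {ξ η : ℕ → L} (m : Fin 3 → ℤ)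
    (hm : ‖chi a m‖ ≤ θ) (hrec : ∀ n, ξ n ^ 2 = ξ (n + 1) - chi a m ^ 2 ^ n * η n)
    (hξ : ∀ n, ‖ξ n - 1‖ ≤ C₀ * ρ ^ 2 ^ n) (k : ℕ) (h1 : Ap a (ρ * θ ^ k) ξ)
    (h2 : Ap a (ρ * θ ^ k) η) : Ap a (ρ * θ ^ (k + 1)) ξ := by
  obtain ⟨e, he, C₁, hC₁, hb1⟩ := h1
  obtain ⟨f, hf, C₂, hC₂, hb2⟩ := h2
  have hθ0 : 0 < θ := hρ.trans_le hρθ
  have hθk : θ ^ k ≤ 1 := pow_le_one₀ hθ0.le hθ1
  have hw : 0 < ρ * θ ^ (k + 1) := by positivity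
  obtain ⟨E, hE⟩ : ∃ E : ℕ → L, E = fun n => e (n + 1) - 1 * chi a m ^ 2 ^ n * f n := ⟨_, rfl⟩
  have hEm : E ∈ EE a := by
    rw [hE]
    exact Submodule.sub_mem _ (EE_shift he) (EE_mul ha (EE_mono a 1 m) hf)
  -- the sizes
  have s1 : (ρ * θ ^ k) ^ 2 ≤ ρ * θ ^ (k + 1) := by
    calc (ρ * θ ^ k) ^ 2 = ρ * θ ^ k * (ρ * θ ^ k) := by ring
      _ ≤ ρ * θ ^ k * (θ * 1) := by gcongr
      _ = ρ * θ ^ (k + 1) := by ring
  have s2 : θ * (ρ * θ ^ k) = ρ * θ ^ (k + 1) := by ring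
  have s3 : ρ * (ρ * θ ^ k) ≤ ρ * θ ^ (k + 1) := by
    calc ρ * (ρ * θ ^ k) ≤ θ * (ρ * θ ^ k) := by gcongr
      _ = _ := s2
  have s4 : ρ * θ ^ k ≤ ρ := mul_le_of_le_one_right hρ.le hθk
  -- `E` approximates the square
  have hEb : ∀ n, ‖ξ n ^ 2 - E n‖ ≤ (C₁ + C₂) * (ρ * θ ^ (k + 1)) ^ 2 ^ n := by
    intro n
    have e1 : ξ n ^ 2 - E n = (ξ (n + 1) - e (n + 1)) - chi a m ^ 2 ^ n * (η n - f n) := by
      rw [hrec, hE]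
      ring
    rw [e1]
    refine (norm_sub_le _ _).trans ?_
    rw [add_mul]
    refine add_le_add ((hb1 (n + 1)).trans ?_) ?_
    · rw [show (2 : ℕ) ^ (n + 1) = 2 * 2 ^ n by ring, pow_mul]
      gcongr
    · rw [norm_mul, norm_pow]
      calc ‖chi a m‖ ^ 2 ^ n * ‖η n - f n‖ ≤ θ ^ 2 ^ n * (C₂ * (ρ * θ ^ k) ^ 2 ^ n) := by
            gcongr
            exact hb2 n
        _ = C₂ * (θ * (ρ * θ ^ k)) ^ 2 ^ n := by
            rw [mul_pow θ]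
            ring
        _ = C₂ * (ρ * θ ^ (k + 1)) ^ 2 ^ n := by rw [s2]
  have h2inv : (2 : L) ≠ 0 := two_ne_zero
  refine ⟨fun n => e n + (2 : L)⁻¹ * (E n - e n * e n), ?_,
    (C₁ * (2 * C₀ + C₁) + (C₁ + C₂)) * ‖(2 : L)⁻¹‖, by positivity, fun n => ?_⟩
  · refine Submodule.add_mem _ he ?_
    have h3 : (fun n => E n - e n * e n) ∈ EE a := Submodule.sub_mem _ hEm (EE_mul ha he he)
    exact Submodule.smul_mem _ (2 : L)⁻¹ h3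
  · have e1 : ξ n - (e n + (2 : L)⁻¹ * (E n - e n * e n)) =
        (2 : L)⁻¹ * ((ξ n - e n) * ((ξ n - e n) - 2 * (ξ n - 1)) + (ξ n ^ 2 - E n)) := by
      field_simp
      ring
    rw [e1, norm_mul, mul_comm ‖(2 : L)⁻¹‖, mul_right_comm _ ‖(2 : L)⁻¹‖]
    refine mul_le_mul_of_nonneg_right ?_ (norm_nonneg _)
    refine (norm_add_le _ _).trans ?_
    rw [add_mul]
    refine add_le_add ?_ (hEb n)
    rw [norm_mul]
    have hρn : (ρ * θ ^ k) ^ 2 ^ n ≤ ρ ^ 2 ^ n := pow_le_pow_left₀ (by positivity) s4 _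
    have h3 : ‖(ξ n - e n) - 2 * (ξ n - 1)‖ ≤ (2 * C₀ + C₁) * ρ ^ 2 ^ n := by
      refine (norm_sub_le _ _).trans ?_
      rw [norm_mul]
      have h4 : ‖(2 : L)‖ ≤ 2 := by
        have h5 := norm_add_le (1 : L) 1
        rw [norm_one, one_add_one_eq_two, one_add_one_eq_two] at h5
        exact h5
      calc ‖ξ n - e n‖ + ‖(2 : L)‖ * ‖ξ n - 1‖
          ≤ C₁ * (ρ * θ ^ k) ^ 2 ^ n + 2 * (C₀ * ρ ^ 2 ^ n) := by
            gcongr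
            · exact hb1 n
            · exact hξ n
        _ ≤ C₁ * ρ ^ 2 ^ n + 2 * (C₀ * ρ ^ 2 ^ n) := by gcongr
        _ = (2 * C₀ + C₁) * ρ ^ 2 ^ n := by ring
    calc ‖ξ n - e n‖ * ‖(ξ n - e n) - 2 * (ξ n - 1)‖
        ≤ (C₁ * (ρ * θ ^ k) ^ 2 ^ n) * ((2 * C₀ + C₁) * ρ ^ 2 ^ n) := by
          gcongr
          exact hb1 n
      _ = C₁ * (2 * C₀ + C₁) * (ρ * (ρ * θ ^ k)) ^ 2 ^ n := by
          rw [mul_pow ρ]
          ring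
      _ ≤ C₁ * (2 * C₀ + C₁) * (ρ * θ ^ (k + 1)) ^ 2 ^ n := by gcongr

/-- from the normalized sequence back to the sequence -/
private theorem FA_back {a : Fin 3 → L} (ha : ∀ i, a i ≠ 0) {ρ θ : ℝ} (hρ : 0 < ρ)
    (hθ0 : 0 < θ) (hθ1 : θ < 1) {p ξ : ℕ → L} (m : Fin 3 → ℤ)
    (hp : ∀ n, p n = 1 * chi a m ^ 2 ^ n * ξ n) (h : ∀ k : ℕ, Ap a (ρ * θ ^ k) ξ) : AA a p := by
  intro σ hσ
  have hm0 : 0 ≤ ‖chi a m‖ := norm_nonneg _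
  obtain ⟨k, hk⟩ : ∃ k : ℕ, ‖chi a m‖ * (ρ * θ ^ k) ≤ σ := by
    obtain ⟨k, hk⟩ := exists_pow_lt_of_lt_one
      (show 0 < σ / (‖chi a m‖ * ρ + 1) by positivity) hθ1
    refine ⟨k, ?_⟩
    rw [lt_div_iff₀ (by positivity)] at hk
    have h1 : 0 < θ ^ k := by positivity
    nlinarith
  obtain ⟨e, he, C, hC, hb⟩ := h k
  refine ⟨fun n => 1 * chi a m ^ 2 ^ n * e n, EE_mul ha (EE_mono a 1 m) he, C, fun n => ?_⟩
  have e1 : p n - 1 * chi a m ^ 2 ^ n * e n = chi a m ^ 2 ^ n * (ξ n - e n) := by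
    rw [hp]
    ring
  rw [e1, norm_mul, norm_pow]
  calc ‖chi a m‖ ^ 2 ^ n * ‖ξ n - e n‖ ≤ ‖chi a m‖ ^ 2 ^ n * (C * (ρ * θ ^ k) ^ 2 ^ n) := by
        gcongr
        exact hb n
    _ = C * (‖chi a m‖ * (ρ * θ ^ k)) ^ 2 ^ n := by
        rw [mul_pow ‖chi a m‖]
        ring
    _ ≤ C * σ ^ 2 ^ n := by gcongr

/-- the coordinates of a free orbit are approximated by exact squaring sequences -/
theorem free_app [CompleteSpace L] [IsAlgClosed L] (h2 : ‖(2 : L)‖ < 1) {x y z : ℕ → L}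
    (h : Free x y z) : ∃ a : Fin 3 → L, (∀ i, a i ≠ 0) ∧ AA a x ∧ AA a y ∧ AA a z := by
  have hx1 : 1 < ‖x 0‖ := h.one_lt
  have hz1 : 1 < ‖z 0‖ := by
    by_contra hcon
    push Not at hcon
    have h1 := h.hz
    have h3 : ‖z 0‖ ^ 2 ≤ 1 := pow_le_one₀ (norm_nonneg _) hcon
    linarith
  have hy1 : 1 < ‖y 0‖ := by
    by_contra hcon
    push Not at hcon
    have h1 := h.hy
    have h3 : ‖y 0‖ ^ 2 ≤ 1 := pow_le_one₀ (norm_nonneg _) hcon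
    linarith
  have nx := fun n => (FA_size h n).1
  have ny := fun n => (FA_size h n).2.1
  have nz := fun n => (FA_size h n).2.2
  obtain ⟨X, hX0, hX, hXn, Cx, ρx, hCx, hρx, hρx1, hbx⟩ :=
    FA_coord h2 h.x_succ nx ny h.hx hx1 hy1
  obtain ⟨Y, hY0, hY, hYn, Cy, ρy, hCy, hρy, hρy1, hby⟩ :=
    FA_coord h2 h.y_succ ny nz h.hy hy1 hz1
  obtain ⟨Z, hZ0, hZ, hZn, Cz, ρz, hCz, hρz, hρz1, hbz⟩ :=
    FA_coord h2 h.z_succ nz nx h.hz hz1 hx1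
  obtain ⟨a, haa⟩ : ∃ a : Fin 3 → L, a = ![X 0, Y 0, Z 0] := ⟨_, rfl⟩
  have ha : ∀ i, a i ≠ 0 := by
    intro i
    rw [haa]
    fin_cases i
    · exact hX0 0
    · exact hY0 0
    · exact hZ0 0
  have hx0 : 0 < ‖x 0‖ := zero_lt_one.trans hx1
  have hy0 : 0 < ‖y 0‖ := zero_lt_one.trans hy1
  have hz0 : 0 < ‖z 0‖ := zero_lt_one.trans hz1
  -- the characters
  have c1 : chi a ![1, 0, 0] = X 0 := by
    simp [chi, haa, Fin.prod_univ_three]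
  have c2 : chi a ![0, 1, 0] = Y 0 := by
    simp [chi, haa, Fin.prod_univ_three]
  have c3 : chi a ![0, 0, 1] = Z 0 := by
    simp [chi, haa, Fin.prod_univ_three]
  have d1 : chi a ![-2, 1, 0] = Y 0 / X 0 ^ 2 := by
    simp [chi, haa, Fin.prod_univ_three, zpow_neg]
    field_simp
  have d2 : chi a ![0, -2, 1] = Z 0 / Y 0 ^ 2 := by
    simp [chi, haa, Fin.prod_univ_three, zpow_neg]
    field_simp
  have d3 : chi a ![1, 0, -2] = X 0 / Z 0 ^ 2 := by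
    simp [chi, haa, Fin.prod_univ_three, zpow_neg]
    field_simp
  have n1 : ‖chi a ![-2, 1, 0]‖ < 1 := by
    rw [d1, norm_div, norm_pow, hXn, hYn, div_lt_one (by positivity)]
    exact h.hx
  have n2 : ‖chi a ![0, -2, 1]‖ < 1 := by
    rw [d2, norm_div, norm_pow, hYn, hZn, div_lt_one (by positivity)]
    exact h.hy
  have n3 : ‖chi a ![1, 0, -2]‖ < 1 := by
    rw [d3, norm_div, norm_pow, hZn, hXn, div_lt_one (by positivity)]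
    exact h.hz
  obtain ⟨ρ, hρdef⟩ : ∃ ρ : ℝ, ρ = max ρx (max ρy ρz) := ⟨_, rfl⟩
  have hρ : 0 < ρ := by
    rw [hρdef]
    exact lt_max_of_lt_left hρx
  have hρ1 : ρ < 1 := by
    rw [hρdef]
    exact max_lt hρx1 (max_lt hρy1 hρz1)
  obtain ⟨θ, hθdef⟩ : ∃ θ : ℝ, θ = max ρ (max ‖chi a ![-2, 1, 0]‖
    (max ‖chi a ![0, -2, 1]‖ ‖chi a ![1, 0, -2]‖)) := ⟨_, rfl⟩
  have hρθ : ρ ≤ θ := by
    rw [hθdef]
    exact le_max_left _ _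
  have hθ1 : θ < 1 := by
    rw [hθdef]
    exact max_lt hρ1 (max_lt n1 (max_lt n2 n3))
  have m1 : ‖chi a ![-2, 1, 0]‖ ≤ θ := by
    rw [hθdef]
    exact (le_max_left _ _).trans (le_max_right _ _)
  have m2 : ‖chi a ![0, -2, 1]‖ ≤ θ := by
    rw [hθdef]
    exact ((le_max_left _ _).trans (le_max_right _ _)).trans (le_max_right _ _)
  have m3 : ‖chi a ![1, 0, -2]‖ ≤ θ := by
    rw [hθdef]
    exact ((le_max_right _ _).trans (le_max_right _ _)).trans (le_max_right _ _)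
  have hθ0 : 0 < θ := hρ.trans_le hρθ
  obtain ⟨ξ, hξ⟩ : ∃ ξ : ℕ → L, ξ = fun n => x n / X n := ⟨_, rfl⟩
  obtain ⟨η, hη⟩ : ∃ η : ℕ → L, η = fun n => y n / Y n := ⟨_, rfl⟩
  obtain ⟨ζ, hζ⟩ : ∃ ζ : ℕ → L, ζ = fun n => z n / Z n := ⟨_, rfl⟩
  have bx : ∀ n, ‖ξ n - 1‖ ≤ Cx * ρ ^ 2 ^ n := by
    intro n
    rw [hξ]
    refine (hbx n).trans ?_
    have : ρx ≤ ρ := by rw [hρdef]; exact le_max_left _ _
    gcongr
  have by' : ∀ n, ‖η n - 1‖ ≤ Cy * ρ ^ 2 ^ n := by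
    intro n
    rw [hη]
    refine (hby n).trans ?_
    have : ρy ≤ ρ := by rw [hρdef]; exact (le_max_left _ _).trans (le_max_right _ _)
    gcongr
  have bz : ∀ n, ‖ζ n - 1‖ ≤ Cz * ρ ^ 2 ^ n := by
    intro n
    rw [hζ]
    refine (hbz n).trans ?_
    have : ρz ≤ ρ := by rw [hρdef]; exact (le_max_right _ _).trans (le_max_right _ _)
    gcongr
  have hXs : ∀ n, X (n + 1) = X n ^ 2 := by
    intro n
    rw [hX (n + 1), hX n, ← pow_mul, pow_succ 2 n]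
  have hYs : ∀ n, Y (n + 1) = Y n ^ 2 := by
    intro n
    rw [hY (n + 1), hY n, ← pow_mul, pow_succ 2 n]
  have hZs : ∀ n, Z (n + 1) = Z n ^ 2 := by
    intro n
    rw [hZ (n + 1), hZ n, ← pow_mul, pow_succ 2 n]
  have r1 : ∀ n, ξ n ^ 2 = ξ (n + 1) - chi a ![-2, 1, 0] ^ 2 ^ n * η n := by
    intro n
    have e1 : chi a ![-2, 1, 0] ^ 2 ^ n = Y n / X n ^ 2 := by
      rw [d1, div_pow, hY n, hX n, ← pow_mul, ← pow_mul, mul_comm (2 ^ n) 2]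
    rw [e1, hξ, hη]
    simp only
    rw [hXs, h.x_succ]
    have := hX0 n
    have := hY0 n
    field_simp
    ring
  have r2 : ∀ n, η n ^ 2 = η (n + 1) - chi a ![0, -2, 1] ^ 2 ^ n * ζ n := by
    intro n
    have e1 : chi a ![0, -2, 1] ^ 2 ^ n = Z n / Y n ^ 2 := by
      rw [d2, div_pow, hZ n, hY n, ← pow_mul, ← pow_mul, mul_comm (2 ^ n) 2]
    rw [e1, hη, hζ]
    simp only
    rw [hYs, h.y_succ]
    have := hY0 n
    have := hZ0 n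
    field_simp
    ring
  have r3 : ∀ n, ζ n ^ 2 = ζ (n + 1) - chi a ![1, 0, -2] ^ 2 ^ n * ξ n := by
    intro n
    have e1 : chi a ![1, 0, -2] ^ 2 ^ n = X n / Z n ^ 2 := by
      rw [d3, div_pow, hX n, hZ n, ← pow_mul, ← pow_mul, mul_comm (2 ^ n) 2]
    rw [e1, hζ, hξ]
    simp only
    rw [hZs, h.z_succ]
    have := hZ0 n
    have := hX0 n
    field_simp
    ring
  have key : ∀ k : ℕ, Ap a (ρ * θ ^ k) ξ ∧ Ap a (ρ * θ ^ k) η ∧ Ap a (ρ * θ ^ k) ζ := by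
    intro k
    induction k with
    | zero =>
      rw [pow_zero, mul_one]
      exact ⟨⟨fun _ => 1, EE_const a 1, Cx, hCx.le, bx⟩, ⟨fun _ => 1, EE_const a 1, Cy, hCy.le, by'⟩,
        ⟨fun _ => 1, EE_const a 1, Cz, hCz.le, bz⟩⟩
    | succ k ih =>
      obtain ⟨i1, i2, i3⟩ := ih
      exact ⟨FA_step ha hρ hρθ hθ1.le hCx.le _ m1 r1 bx k i1 i2,
        FA_step ha hρ hρθ hθ1.le hCy.le _ m2 r2 by' k i2 i3,
        FA_step ha hρ hρθ hθ1.le hCz.le _ m3 r3 bz k i3 i1⟩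
  refine ⟨a, ha, FA_back ha hρ hθ0 hθ1 ![1, 0, 0] (fun n => ?_) fun k => (key k).1,
    FA_back ha hρ hθ0 hθ1 ![0, 1, 0] (fun n => ?_) fun k => (key k).2.1,
    FA_back ha hρ hθ0 hθ1 ![0, 0, 1] (fun n => ?_) fun k => (key k).2.2⟩
  · rw [c1, ← hX n, hξ]
    have := hX0 n
    field_simp
  · rw [c2, ← hY n, hη]
    have := hY0 n
    field_simp
  · rw [c3, ← hZ n, hζ]
    have := hZ0 n
    field_simp

theorem free_dich [CompleteSpace L] [IsAlgClosed L] (h2 : ‖(2 : L)‖ < 1)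
    (hfr : ∀ u : L, ‖u‖ = 1 → ∃ f : ℕ, 0 < f ∧ ‖u ^ (2 ^ f - 1) - 1‖ < 1) {x y z : ℕ → L}
    (h : Free x y z) : ∃ N : ℕ, 0 < N ∧ ∀ (P : MvPolynomial (Fin 3) L) (r : ℕ),
      Dich N r fun n => eval ![x n, y n, z n] P := by
  obtain ⟨a, ha, hx, hy, hz⟩ := free_app h2 h
  obtain ⟨N, hN, hw⟩ := exists_modulus hfr a ha
  exact ⟨N, hN, fun P r => AA_dich h2 ha hN hw (AA_poly ha hx hy hz P) r⟩

end Pool.Agent.GSF
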