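import Pool.Agent.Lib.MP_e9abfe_ag_GSF.Types
import Pool.Agent.Lib.MP_e9abfe_ag_DMC.Fin

set_option autoImplicit false

/-!
# GSF module G14: the orbit theorem
-/

namespace Pool.Agent.GSF

open MvPolynomial
open Pool.Agent.DMC
open Pool.Agent.MP_e9abfe (Phi pull progressions)

variable {L : Type} [NormedField L] [IsUltrametricDist L] [CharZero L]

private theorem Orbit_orb (β : Fin 3 → L) (i : Fin 3) (h1 : 1 < ‖β i‖)
    (hy : ‖β (i + 1)‖ ≤ ‖β i‖) (hz : ‖β (i + 2)‖ ≤ ‖β i‖) :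
    Orb (fun n => Phi^[n] β i) (fun n => Phi^[n] β (i + 1)) (fun n => Phi^[n] β (i + 2)) := by
  have e1 : i + 1 + 1 = i + 2 := by fin_cases i <;> rfl
  have e2 : i + 2 + 1 = i := by fin_cases i <;> rfl
  exact
    { x_succ := fun n => by
        show Phi^[n + 1] β i = _
        rw [Function.iterate_succ_apply', Fin_Phi_apply]
      y_succ := fun n => by
        show Phi^[n + 1] β (i + 1) = _
        rw [Function.iterate_succ_apply', Fin_Phi_apply, e1]
      z_succ := fun n => by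
        show Phi^[n + 1] β (i + 2) = _
        rw [Function.iterate_succ_apply', Fin_Phi_apply, e2]
      one_lt := h1
      y_le := hy
      z_le := hz }

private theorem Orbit_inj (i : Fin 3) : Function.Injective fun j : Fin 3 => j - i := fun a b h =>
  sub_left_injective h

private theorem Orbit_coeff (i : Fin 3) (f : MvPolynomial (Fin 3) L)
    (hf : ∀ i, coeff (Finsupp.single i f.totalDegree) f ≠ 0) (k : Fin 3) :
    coeff (Finsupp.single k (rename (fun j => j - i) f).totalDegree)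
      (rename (fun j => j - i) f) ≠ 0 := by
  have hd : (rename (fun j => j - i) f).totalDegree = f.totalDegree := by
    have h1 := totalDegree_rename_le (fun j : Fin 3 => j - i) f
    have h2 : coeff (Finsupp.mapDomain (fun j : Fin 3 => j - i)
        (Finsupp.single (0 : Fin 3) f.totalDegree)) (rename (fun j => j - i) f) ≠ 0 := by
      rw [coeff_rename_mapDomain _ (Orbit_inj i)]
      exact hf 0
    rw [Finsupp.mapDomain_single] at h2
    have h3 := le_totalDegree (mem_support_iff.2 h2)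
    rw [Finsupp.sum_single_index rfl] at h3
    exact le_antisymm h1 h3
  rw [hd]
  have h4 : Finsupp.single k f.totalDegree =
      Finsupp.mapDomain (fun j : Fin 3 => j - i) (Finsupp.single (k + i) f.totalDegree) := by
    rw [Finsupp.mapDomain_single, add_sub_cancel_right]
  rw [h4, coeff_rename_mapDomain _ (Orbit_inj i)]
  exact hf _

private theorem Orbit_eval (β : Fin 3 → L) (i : Fin 3) (n : ℕ) (g : MvPolynomial (Fin 3) L) :
    eval ![Phi^[n] β i, Phi^[n] β (i + 1), Phi^[n] β (i + 2)] (rename (fun j => j - i) g) =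
      eval (Phi^[n] β) g := by
  have hvec : (![Phi^[n] β i, Phi^[n] β (i + 1), Phi^[n] β (i + 2)] : Fin 3 → L) ∘
      (fun j => j - i) = Phi^[n] β := by
    funext j
    have h3 : ∀ i j : Fin 3, (![Phi^[n] β i, Phi^[n] β (i + 1), Phi^[n] β (i + 2)] : Fin 3 → L)
        (j - i) = Phi^[n] β j := by
      intro i j
      fin_cases i <;> fin_cases j <;> rfl
    exact h3 i j
  rw [eval_rename, hvec]

theorem orbit_main [CompleteSpace L] [IsAlgClosed L] (h2 : ‖(2 : L)‖ < 1)
    (hfr : ∀ u : L, ‖u‖ = 1 → ∃ f : ℕ, 0 < f ∧ ‖u ^ (2 ^ f - 1) - 1‖ < 1) (β : Fin 3 → L)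
    (hβ : ∃ i, 1 < ‖β i‖) (f : MvPolynomial (Fin 3) L)
    (hf : ∀ i, coeff (Finsupp.single i f.totalDegree) f ≠ 0)
    (T : Set (MvPolynomial (Fin 3) L))
    (hT : ∀ n, (∀ g ∈ T, eval (Phi^[n] β) g = 0) → eval (Phi^[n] β) f = 0) :
    ∃ F : Finset (ℕ × ℕ), {n : ℕ | ∀ g ∈ T, eval (Phi^[n] β) g = 0} =
      {m | ∃ q ∈ F, ∃ j : ℕ, m = q.1 + q.2 * j} := by
  classical
  set S : Set ℕ := {n : ℕ | ∀ g ∈ T, eval (Phi^[n] β) g = 0} with hSdef
  by_cases hfin : S.Finite
  · exact Fin_finite hfin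
  have hS : S.Infinite := hfin
  obtain ⟨i₀, hi₀⟩ := Finite.exists_max fun i => ‖β i‖
  have hone : 1 < ‖β i₀‖ := by
    obtain ⟨i, hi⟩ := hβ
    exact lt_of_lt_of_le hi (hi₀ i)
  have hzero : ∀ i : Fin 3, {n | eval ![Phi^[n] β i, Phi^[n] β (i + 1), Phi^[n] β (i + 2)]
      (rename (fun j => j - i) f) = 0}.Infinite := by
    intro i
    refine hS.mono fun n hn => ?_
    show eval ![Phi^[n] β i, Phi^[n] β (i + 1), Phi^[n] β (i + 2)]
      (rename (fun j => j - i) f) = 0
    rw [Orbit_eval]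
    exact hT n hn
  -- a base index with a tie
  have htie : ∃ i : Fin 3, 1 < ‖β i‖ ∧ ‖β (i + 1)‖ = ‖β i‖ ∧ ‖β (i + 2)‖ ≤ ‖β i‖ := by
    by_cases h1 : ‖β (i₀ + 1)‖ = ‖β i₀‖
    · exact ⟨i₀, hone, h1, hi₀ _⟩
    · by_cases h3 : ‖β (i₀ + 2)‖ = ‖β i₀‖
      · have e1 : i₀ + 2 + 1 = i₀ := by fin_cases i₀ <;> rfl
        refine ⟨i₀ + 2, by rw [h3]; exact hone, by rw [e1, h3], by rw [h3]; exact hi₀ _⟩
      · exfalso
        have hlt1 : ‖β (i₀ + 1)‖ < ‖β i₀‖ := lt_of_le_of_ne (hi₀ _) h1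
        have hlt2 : ‖β (i₀ + 2)‖ < ‖β i₀‖ := lt_of_le_of_ne (hi₀ _) h3
        exact hzero i₀ (strict_ne (Orbit_orb β i₀ hone (hi₀ _) (hi₀ _)) hlt1 hlt2 _
          (Orbit_coeff i₀ f hf))
  obtain ⟨i, hi1, hi2, hi3⟩ := htie
  obtain ⟨N, n₀, hN, hmain⟩ := orbit_xy h2 hfr (Orbit_orb β i hi1 hi2.le hi3) hi2 _
    (Orbit_coeff i f hf) (hzero i)
  refine progressions S n₀ N hN fun n hn => ?_
  by_cases hinf : {t | n + N * t ∈ S}.Finite
  · exact Or.inl hinf
  · right
    intro t g hg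
    have h3 := hmain (rename (fun j => j - i) g) (n % N) (by
      intro hf3
      apply hinf
      refine Set.Finite.of_finite_image (f := fun t => n + N * t) (hf3.subset ?_) ?_
      · rintro k ⟨t, ht, rfl⟩
        refine ⟨by rw [Nat.add_mul_mod_self_left], ?_⟩
        show eval ![Phi^[n + N * t] β i, Phi^[n + N * t] β (i + 1), Phi^[n + N * t] β (i + 2)]
          (rename (fun j => j - i) g) = 0
        rw [Orbit_eval]
        exact ht g hg
      · intro a _ b _ hab
        have h4 : n + N * a = n + N * b := hab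
        have h5 : N * a = N * b := by omega
        exact Nat.eq_of_mul_eq_mul_left hN h5) (n + N * t) (by omega)
      (by rw [Nat.add_mul_mod_self_left])
    have h4 : eval ![Phi^[n + N * t] β i, Phi^[n + N * t] β (i + 1), Phi^[n + N * t] β (i + 2)]
        (rename (fun j => j - i) g) = 0 := h3
    rw [Orbit_eval] at h4
    exact h4

end Pool.Agent.GSF
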