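import Pool.Agent.Lib.MP_e9abfe_ag_GSF.Defs
import Pool.Agent.Lib.MP_e9abfe_ag_GSF.FlatZero
import Pool.Agent.Lib.MP_e9abfe_ag_GSF.FreeApp
import Pool.Agent.Lib.MP_e9abfe_ag_GSF.BdDich
import Pool.Agent.Lib.MP_e9abfe_ag_DMC.SesL
import Pool.Agent.Lib.MP_e9abfe_ag_DMC.Boe
import Pool.Agent.Lib.MP_e9abfe_ag_DMC.Per

/-!
# GSF, module G13: the types of orbits
-/

set_option autoImplicit false

namespace Pool.Agent.GSF

open MvPolynomial
open Pool.Agent.DMC
open Pool.Agent.MP_e9abfe (Phi pull)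

section poly

variable {L : Type} [NormedField L]

open Classical in
/-- the top part of `f` for `z = 0`, dehomogenized -/
noncomputable def TypH (f : MvPolynomial (Fin 3) L) : Polynomial L :=
  ∑ s ∈ f.support, if s 0 + s 1 = f.totalDegree ∧ s 2 = 0 then
    Polynomial.C (coeff s f) * Polynomial.X ^ s 1 else 0

theorem Typ_deg {f : MvPolynomial (Fin 3) L} {s : Fin 3 →₀ ℕ} (hs : s ∈ f.support) :
    s 0 + s 1 + s 2 ≤ f.totalDegree := by
  have h := le_totalDegree hs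
  rw [Finsupp.sum_fintype _ _ (fun _ => rfl), Fin.sum_univ_three] at h
  exact h

theorem TypH_coeff_zero (f : MvPolynomial (Fin 3) L)
    (hf : coeff (Finsupp.single 0 f.totalDegree) f ≠ 0) :
    (TypH f).coeff 0 = coeff (Finsupp.single 0 f.totalDegree) f := by
  classical
  unfold TypH
  rw [Polynomial.finsetSum_coeff, Finset.sum_eq_single (Finsupp.single 0 f.totalDegree)]
  · rw [if_pos (by simp)]
    simp
  · intro s _ hne
    split_ifs with h
    · rw [Polynomial.coeff_C_mul, Polynomial.coeff_X_pow]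
      rw [if_neg, mul_zero]
      intro h1
      apply hne
      ext i
      fin_cases i
      · simp
        omega
      · simp [← h1]
      · simp [h.2]
    · simp
  · intro h
    exact absurd (mem_support_iff.2 hf) h

variable [IsUltrametricDist L]

theorem Typ_poly (f : MvPolynomial (Fin 3) L) : ∃ C : ℝ, 0 < C ∧ ∀ (x y z : L) (δ : ℝ),
    1 ≤ ‖x‖ → ‖y‖ ≤ ‖x‖ → ‖z‖ ≤ ‖x‖ → ‖x‖⁻¹ ≤ δ → ‖z‖ / ‖x‖ ≤ δ →
      ‖eval ![x, y, z] f / x ^ f.totalDegree - (TypH f).eval (y / x)‖ ≤ C * δ := by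
  classical
  refine ⟨(∑ s ∈ f.support, ‖coeff s f‖) + 1, ?_, ?_⟩
  · have := Finset.sum_nonneg (s := f.support) (fun s _ => norm_nonneg (coeff s f))
    linarith
  intro x y z δ hx hy hz h1 h2
  have hx0 : 0 < ‖x‖ := by linarith
  have hxne : x ≠ 0 := norm_pos_iff.1 hx0
  have hδ : 0 < δ := lt_of_lt_of_le (inv_pos.2 hx0) h1
  have hC : ∀ s ∈ f.support, ‖coeff s f‖ ≤ (∑ s ∈ f.support, ‖coeff s f‖) + 1 := by
    intro s hs
    have h3 : ‖coeff s f‖ ≤ ∑ s ∈ f.support, ‖coeff s f‖ :=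
      Finset.single_le_sum (f := fun s => ‖coeff s f‖) (fun i _ => norm_nonneg _) hs
    linarith
  have e : eval ![x, y, z] f / x ^ f.totalDegree - (TypH f).eval (y / x) =
      ∑ s ∈ f.support, (coeff s f * (x ^ s 0 * y ^ s 1 * z ^ s 2) / x ^ f.totalDegree -
        if s 0 + s 1 = f.totalDegree ∧ s 2 = 0 then coeff s f * (y / x) ^ s 1 else 0) := by
    rw [Finset.sum_sub_distrib, eval_eq', Finset.sum_div]
    congr 1
    · refine Finset.sum_congr rfl fun s _ => ?_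
      rw [Fin.prod_univ_three]
      simp
    · unfold TypH
      rw [Polynomial.eval_finsetSum]
      refine Finset.sum_congr rfl fun s _ => ?_
      split_ifs <;> simp
  rw [e]
  refine IsUltrametricDist.norm_sum_le_of_forall_le_of_nonneg ?_ fun s hs => ?_
  · have := Finset.sum_nonneg (s := f.support) (fun s _ => norm_nonneg (coeff s f))
    positivity
  · have hd := Typ_deg hs
    split_ifs with h
    · have h3 : coeff s f * (x ^ s 0 * y ^ s 1 * z ^ s 2) / x ^ f.totalDegree -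
          coeff s f * (y / x) ^ s 1 = 0 := by
        rw [h.2, ← h.1, pow_zero, mul_one, pow_add, div_pow]
        field_simp
        ring
      rw [h3, norm_zero]
      have := Finset.sum_nonneg (s := f.support) (fun s _ => norm_nonneg (coeff s f))
      positivity
    · rw [sub_zero, norm_div, norm_mul, norm_mul, norm_mul, norm_pow, norm_pow, norm_pow, norm_pow,
        mul_div_assoc]
      refine mul_le_mul (hC s hs) ?_ (by positivity)
        ((norm_nonneg _).trans (hC s hs))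
      rw [div_le_iff₀ (pow_pos hx0 _)]
      have hy' : ‖y‖ ^ s 1 ≤ ‖x‖ ^ s 1 := pow_le_pow_left₀ (norm_nonneg _) hy _
      rcases Nat.eq_zero_or_pos (s 2) with h3 | h3
      · have h4 : s 0 + s 1 + 1 ≤ f.totalDegree := by
          rcases Nat.lt_or_ge (s 0 + s 1) f.totalDegree with h5 | h5
          · exact h5
          · exact absurd ⟨by omega, h3⟩ h
        rw [h3, pow_zero, mul_one]
        calc ‖x‖ ^ s 0 * ‖y‖ ^ s 1 ≤ ‖x‖ ^ s 0 * ‖x‖ ^ s 1 :=
              mul_le_mul_of_nonneg_left hy' (by positivity)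
          _ = ‖x‖⁻¹ * ‖x‖ ^ (s 0 + s 1 + 1) := by
              rw [pow_succ, pow_add]
              field_simp
          _ ≤ δ * ‖x‖ ^ f.totalDegree :=
              mul_le_mul h1 (pow_le_pow_right₀ hx h4) (by positivity) hδ.le
      · obtain ⟨k, hk⟩ : ∃ k, s 2 = k + 1 := ⟨s 2 - 1, by omega⟩
        rw [div_le_iff₀ hx0] at h2
        have hz' : ‖z‖ ^ k ≤ ‖x‖ ^ k := pow_le_pow_left₀ (norm_nonneg _) hz _
        calc ‖x‖ ^ s 0 * ‖y‖ ^ s 1 * ‖z‖ ^ s 2
            ≤ ‖x‖ ^ s 0 * ‖x‖ ^ s 1 * (‖x‖ ^ k * (δ * ‖x‖)) := by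
              rw [hk, pow_succ]
              gcongr
          _ = δ * ‖x‖ ^ (s 0 + s 1 + s 2) := by
              rw [hk]
              ring
          _ ≤ δ * ‖x‖ ^ f.totalDegree :=
              mul_le_mul_of_nonneg_left (pow_le_pow_right₀ hx hd) hδ.le

end poly

variable {L : Type} [NormedField L] [IsUltrametricDist L] [CharZero L]

theorem Typ_one_lt {x y z : ℕ → L} (h : Orb x y z) (n : ℕ) : 1 < ‖x n‖ := (SesL_orb h n).2.2.2

/-- the norm of `y n` if there is a tie -/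
theorem Typ_tie {x y z : ℕ → L} (h : Orb x y z) (hxy : ‖y 0‖ = ‖x 0‖) (n : ℕ) :
    ‖y n‖ = ‖x n‖ := by
  induction n with
  | zero => exact hxy
  | succ n ih =>
    have h1 := Typ_one_lt h n
    have h2 : ‖x n‖ < ‖x n‖ ^ 2 := by nlinarith
    have h3 : ‖y (n + 1)‖ = ‖y n‖ ^ 2 := by
      rw [h.y_succ]
      have hne : ‖y n ^ 2‖ ≠ ‖z n‖ := by
        rw [norm_pow, ih]
        exact ((h.norm_z n).trans_lt h2).ne'
      rw [IsUltrametricDist.norm_add_eq_max_of_norm_ne_norm hne, norm_pow, ih]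
      exact max_eq_left ((h.norm_z n).trans h2.le)
    rw [h3, ih, h.norm_x (n + 1), h.norm_x n, ← pow_mul, pow_succ]

/-- if `x` dominates strictly, the polynomial does not vanish -/
theorem strict_ne {x y z : ℕ → L} (h : Orb x y z) (hy : ‖y 0‖ < ‖x 0‖) (hz : ‖z 0‖ < ‖x 0‖)
    (f : MvPolynomial (Fin 3) L)
    (hf : ∀ i, coeff (Finsupp.single i f.totalDegree) f ≠ 0) :
    {n | eval ![x n, y n, z n] f = 0}.Finite := by
  have hx0 : 0 < ‖x 0‖ := one_pos.trans h.one_lt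
  obtain ⟨θ, hθ0, hθ1, ha, hc, hi⟩ : ∃ θ : ℝ, 0 < θ ∧ θ < 1 ∧ ‖y 0‖ ≤ θ * ‖x 0‖ ∧
      ‖z 0‖ ≤ θ * ‖x 0‖ ∧ ‖x 0‖⁻¹ ≤ θ ^ 2 := by
    have h1 : (‖x 0‖⁻¹) < 1 := inv_lt_one_of_one_lt₀ h.one_lt
    have h0 : 0 < ‖x 0‖⁻¹ := inv_pos.2 hx0
    refine ⟨max (max (‖y 0‖ / ‖x 0‖) (‖z 0‖ / ‖x 0‖)) (Real.sqrt ‖x 0‖⁻¹), ?_, ?_, ?_, ?_, ?_⟩
    · exact lt_max_of_lt_right (Real.sqrt_pos.2 h0)
    · refine max_lt (max_lt ((div_lt_one hx0).2 hy) ((div_lt_one hx0).2 hz)) ?_
      rw [Real.sqrt_lt' one_pos]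
      simpa using h1
    · rw [← div_le_iff₀ hx0]
      exact (le_max_left _ _).trans (le_max_left _ _)
    · rw [← div_le_iff₀ hx0]
      exact (le_max_right _ _).trans (le_max_left _ _)
    · have h3 := le_max_right (max (‖y 0‖ / ‖x 0‖) (‖z 0‖ / ‖x 0‖)) (Real.sqrt ‖x 0‖⁻¹)
      calc ‖x 0‖⁻¹ = Real.sqrt ‖x 0‖⁻¹ ^ 2 := (Real.sq_sqrt h0.le).symm
        _ ≤ _ := pow_le_pow_left₀ (Real.sqrt_nonneg _) h3 2
  have hinv : ∀ n, ‖x n‖⁻¹ ≤ θ ^ 2 ^ (n + 1) := by
    intro n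
    rw [h.norm_x n, ← inv_pow, pow_succ, mul_comm (2 ^ n) 2, pow_mul θ]
    exact pow_le_pow_left₀ (inv_pos.2 hx0).le hi _
  have hxn : ∀ n, ‖x (n + 1)‖ = ‖x n‖ ^ 2 := by
    intro n
    rw [h.norm_x (n + 1), h.norm_x n, ← pow_mul, pow_succ]
  have key : ∀ n, ‖y n‖ ≤ θ ^ 2 ^ n * ‖x n‖ ∧ ‖z n‖ ≤ θ ^ 2 ^ n * ‖x n‖ := by
    intro n
    induction n with
    | zero => simpa using ⟨ha, hc⟩
    | succ n ih =>
      have hx := Typ_one_lt h n
      have hxp : 0 < ‖x n‖ := one_pos.trans hx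
      have hin : ‖x n‖ ≤ θ ^ 2 ^ (n + 1) * ‖x n‖ ^ 2 := by
        have := mul_le_mul_of_nonneg_right (hinv n) (sq_nonneg ‖x n‖)
        calc ‖x n‖ = ‖x n‖⁻¹ * ‖x n‖ ^ 2 := by field_simp
          _ ≤ _ := this
      have hsq : ∀ w : ℝ, 0 ≤ w → w ≤ θ ^ 2 ^ n * ‖x n‖ → w ^ 2 ≤ θ ^ 2 ^ (n + 1) * ‖x n‖ ^ 2 := by
        intro w hw0 hw
        calc w ^ 2 ≤ (θ ^ 2 ^ n * ‖x n‖) ^ 2 := pow_le_pow_left₀ hw0 hw 2
          _ = θ ^ 2 ^ (n + 1) * ‖x n‖ ^ 2 := by rw [mul_pow, ← pow_mul, ← pow_succ]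
      constructor
      · rw [hxn, h.y_succ]
        refine (IsUltrametricDist.norm_add_le_max _ _).trans (max_le ?_ ((h.norm_z n).trans hin))
        rw [norm_pow]
        exact hsq _ (norm_nonneg _) ih.1
      · rw [hxn, h.z_succ]
        refine (IsUltrametricDist.norm_add_le_max _ _).trans (max_le ?_ hin)
        rw [norm_pow]
        exact hsq _ (norm_nonneg _) ih.2
  obtain ⟨C, hC, hP⟩ := Typ_poly f
  set c := coeff (Finsupp.single 0 f.totalDegree) f with hcdef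
  have hcne : c ≠ 0 := hf 0
  have hcpos : 0 < ‖c‖ := norm_pos_iff.2 hcne
  -- continuity of `h` at zero
  have hcont : Filter.Tendsto (fun n => (TypH f).eval (y n / x n)) Filter.atTop
      (nhds ((TypH f).eval 0)) := by
    refine ((TypH f).continuous.tendsto 0).comp ?_
    rw [tendsto_zero_iff_norm_tendsto_zero]
    refine squeeze_zero (fun _ => norm_nonneg _) (g := fun n : ℕ => θ ^ 2 ^ n) (fun n => ?_) ?_
    · rw [norm_div, div_le_iff₀ (one_pos.trans (Typ_one_lt h n))]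
      exact (key n).1
    · exact (tendsto_pow_atTop_nhds_zero_of_lt_one hθ0.le hθ1).comp
        (tendsto_pow_atTop_atTop_of_one_lt (by norm_num : (1 : ℕ) < 2))
  have hz2 : Filter.Tendsto (fun n : ℕ => C * θ ^ 2 ^ n) Filter.atTop (nhds (C * 0)) := by
    refine Filter.Tendsto.const_mul C ?_
    exact (tendsto_pow_atTop_nhds_zero_of_lt_one hθ0.le hθ1).comp
      (tendsto_pow_atTop_atTop_of_one_lt (by norm_num : (1 : ℕ) < 2))
  rw [mul_zero] at hz2
  have h0 : (TypH f).eval 0 = c := by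
    rw [← Polynomial.coeff_zero_eq_eval_zero, TypH_coeff_zero f (hf 0)]
  rw [h0] at hcont
  have hnorm := hcont.norm
  obtain ⟨n₁, hn₁⟩ := Filter.eventually_atTop.1
    (hnorm.eventually (lt_mem_nhds (show ‖c‖ / 2 < ‖c‖ by linarith)))
  obtain ⟨n₂, hn₂⟩ := Filter.eventually_atTop.1
    (hz2.eventually (gt_mem_nhds (show (0 : ℝ) < ‖c‖ / 2 by linarith)))
  refine (Set.finite_Iio (max n₁ n₂)).subset ?_
  intro n hn
  change eval ![x n, y n, z n] f = 0 at hn
  rw [Set.mem_Iio]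
  by_contra hcon
  push Not at hcon
  have h3 := hn₁ n ((le_max_left _ _).trans hcon)
  have h4 := hn₂ n ((le_max_right _ _).trans hcon)
  have hxp := Typ_one_lt h n
  have h5 := hP (x n) (y n) (z n) (θ ^ 2 ^ n) hxp.le (h.norm_y n) (h.norm_z n) (by
    refine (hinv n).trans ?_
    exact pow_le_pow_of_le_one hθ0.le hθ1.le (Nat.pow_le_pow_right (by norm_num) (by omega))) (by
    rw [div_le_iff₀ (one_pos.trans hxp)]
    exact (key n).2)
  rw [hn, zero_div, zero_sub, norm_neg] at h5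
  linarith

/-- if `x` and `y` tie and `z` is not free, then a relation forces the structure `Bd` -/
theorem exists_bd [CompleteSpace L] [IsAlgClosed L] (h2 : ‖(2 : L)‖ < 1) {x y z : ℕ → L}
    (h : Orb x y z) (hxy : ‖y 0‖ = ‖x 0‖) (hz : ∀ n, ‖z n‖ ^ 2 ≤ ‖x n‖)
    (f : MvPolynomial (Fin 3) L)
    (hf : ∀ i, coeff (Finsupp.single i f.totalDegree) f ≠ 0)
    (hinf : {n | eval ![x n, y n, z n] f = 0}.Infinite) :
    ∃ (m t N : ℕ) (V b : ℕ → L),
      Bd (fun n => x (n + m)) (fun n => y (n + m)) (fun n => z (n + m)) V b t N := by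
  have hx1 := Typ_one_lt h
  have hxp : ∀ n, 0 < ‖x n‖ := fun n => one_pos.trans (hx1 n)
  have hxne : ∀ n, x n ≠ 0 := fun n => norm_pos_iff.1 (hxp n)
  have hyx := Typ_tie h hxy
  have hxsq : ∀ n, ‖x (n + 1)‖ = ‖x n‖ ^ 2 := by
    intro n
    rw [h.norm_x (n + 1), h.norm_x n, ← pow_mul, pow_succ]
  obtain ⟨X, hX, hXn, hXs⟩ := orb_boettcher h2 h
  have hT1 : ∀ n, ‖y n / x n‖ = 1 := by
    intro n
    rw [norm_div, hyx, div_self (hxp n).ne']
  -- the recursion
  have hrec : Ses fun n => (fun n => y n / x n) (n + 1) -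
      ((fun n => y n / x n) n ^ 2 + (fun _ => (0 : L)) n) := by
    refine ⟨1, ‖x 0‖⁻¹, one_pos, inv_pos.2 (hxp 0), inv_lt_one_of_one_lt₀ h.one_lt, fun n => ?_⟩
    have e : y (n + 1) / x (n + 1) - ((y n / x n) ^ 2 + 0) =
        (x n ^ 2 * z n - y n ^ 3) / (x n ^ 2 * x (n + 1)) := by
      have h3 := hxne (n + 1)
      have h4 := hxne n
      rw [h.y_succ, add_zero]
      field_simp
      rw [h.x_succ]
      ring
    change ‖y (n + 1) / x (n + 1) - ((y n / x n) ^ 2 + 0)‖ ≤ _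
    rw [e, norm_div, norm_mul, norm_pow, hxsq, one_mul, inv_pow, ← h.norm_x n,
      div_le_iff₀ (by have := hxp n; positivity)]
    have h5 : ‖x n ^ 2 * z n - y n ^ 3‖ ≤ ‖x n‖ ^ 3 := by
      rw [sub_eq_add_neg]
      refine (IsUltrametricDist.norm_add_le_max _ _).trans (max_le ?_ ?_)
      · rw [norm_mul, norm_pow]
        calc ‖x n‖ ^ 2 * ‖z n‖ ≤ ‖x n‖ ^ 2 * ‖x n‖ :=
              mul_le_mul_of_nonneg_left (h.norm_z n) (by positivity)
          _ = ‖x n‖ ^ 3 := by ring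
      · rw [norm_neg, norm_pow, hyx]
    refine h5.trans (le_of_eq ?_)
    have := (hxp n).ne'
    field_simp
  -- the relation
  obtain ⟨C, hC, hP⟩ := Typ_poly f
  set S : Set ℕ := {n | eval ![x n, y n, z n] f = 0} with hSdef
  have hSQ : SesOn S fun n => (TypH f).eval ((fun n => y n / x n) n) := by
    refine SesOn.root (d := 2) (by norm_num) ?_
    refine ⟨C ^ 2, ‖x 0‖⁻¹, by positivity, inv_pos.2 (hxp 0), inv_lt_one_of_one_lt₀ h.one_lt,
      fun n hn => ?_⟩
    have hn' : eval ![x n, y n, z n] f = 0 := hn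
    have hsq : Real.sqrt ‖x n‖⁻¹ ^ 2 = ‖x n‖⁻¹ := Real.sq_sqrt (inv_pos.2 (hxp n)).le
    have hs0 : 0 ≤ Real.sqrt ‖x n‖⁻¹ := Real.sqrt_nonneg _
    have hinv1 : ‖x n‖⁻¹ ≤ 1 := (inv_lt_one_of_one_lt₀ (hx1 n)).le
    have h3 := hP (x n) (y n) (z n) (Real.sqrt ‖x n‖⁻¹) (hx1 n).le (h.norm_y n) (h.norm_z n) (by
      apply Real.le_sqrt_of_sq_le
      have := (inv_pos.2 (hxp n)).le
      nlinarith) (by
      apply Real.le_sqrt_of_sq_le
      rw [div_pow, div_le_iff₀ (pow_pos (hxp n) 2)]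
      refine (hz n).trans (le_of_eq ?_)
      have := (hxp n).ne'
      field_simp)
    rw [hn', zero_div, zero_sub, norm_neg] at h3
    change ‖(TypH f).eval (y n / x n) ^ 2‖ ≤ _
    rw [norm_pow, inv_pow, ← h.norm_x n, ← hsq, ← mul_pow]
    exact pow_le_pow_left₀ (norm_nonneg _) h3 2
  have hQ : TypH f ≠ 0 := by
    intro h0
    have h3 := TypH_coeff_zero f (hf 0)
    rw [h0, Polynomial.coeff_zero] at h3
    exact hf 0 h3.symm
  obtain ⟨N, b, hN, -, hbper, hbsucc, hb1, hblim, hbses⟩ :=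
    periodic_of_rel h2 (t := fun n => y n / x n) (κ := fun _ => 0) (N₀ := 1) one_pos
      (fun _ => rfl) (fun _ => by simp) (fun n => (hT1 n).le) hrec hQ hinf hSQ
  have hbnorm : ∀ n, ‖b n‖ = 1 := by
    obtain ⟨n₀, hn₀⟩ := hblim 1 one_pos
    have hlarge : ∀ n, n₀ ≤ n → ‖b n‖ = 1 := by
      intro n hn
      have h3 := hn₀ n hn
      have e : b n = y n / x n + -(y n / x n - b n) := by ring
      rw [e, IsUltrametricDist.norm_add_eq_max_of_norm_ne_norm
        (by rw [hT1, norm_neg]; exact h3.ne'), hT1, norm_neg, max_eq_left h3.le]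
    intro n
    have hper : Function.Periodic b N := hbper
    have h3 : b (n + n₀ * N) = b n := hper.nat_mul n₀ n
    rw [← h3]
    exact hlarge _ (by nlinarith)
  have hbne : ∀ n, b n ≠ 0 := by
    intro n
    rw [← norm_ne_zero_iff, hbnorm]
    exact one_ne_zero
  have hses := hbses hbne
  have hXne : ∀ n, X n ≠ 0 := hX.ne
  have hxX : ∀ n, ‖x n / X n‖ = 1 := by
    intro n
    rw [norm_div, hXn, div_self (hxp n).ne']
  have hyX : Ses fun n => y n / X n - b n := by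
    have h3 : Ses fun n => (y n / x n - b n) + (x n / X n - 1) := hses.add hXs
    have h4 : Ses fun n => (y n / x n - b n) * (x n / X n) :=
      hses.mono fun n => by rw [norm_mul, hxX, mul_one]
    have h5 : Ses fun n => b n * (x n / X n - 1) :=
      hXs.mono fun n => by rw [norm_mul, hbnorm, one_mul]
    have h6 := h4.add h5
    refine h6.mono fun n => le_of_eq ?_
    congr 1
    have h7 := hxne n
    have h8 := hXne n
    field_simp
    ring
  obtain ⟨C₁, ρ₁, hC₁, hρ₁, hρ₁1, hb₁⟩ := hXs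
  obtain ⟨C₂, ρ₂, hC₂, hρ₂, hρ₂1, hb₂⟩ := hyX
  set ρ := max ρ₁ ρ₂ with hρdef
  have hρ0 : 0 < ρ := lt_max_of_lt_left hρ₁
  have hρ1 : ρ < 1 := max_lt hρ₁1 hρ₂1
  obtain ⟨t, ht⟩ := pow_unbounded_of_one_lt ‖X 0‖ (one_lt_inv_iff₀.2 ⟨hρ0, hρ1⟩)
  obtain ⟨V, hV, hVX⟩ := hX.root (d := 2 * (t + 1)) (by omega)
  have hV0 : ‖V 0‖ ≤ ρ⁻¹ := by
    have h3 : ‖V 0‖ ^ (2 * (t + 1)) ≤ ρ⁻¹ ^ (2 * (t + 1)) := by
      rw [← norm_pow, hVX]
      refine ht.le.trans ?_
      exact pow_le_pow_right₀ (one_lt_inv_iff₀.2 ⟨hρ0, hρ1⟩).le (by omega)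
    exact (pow_le_pow_iff_left₀ (norm_nonneg _) (inv_pos.2 hρ0).le (by omega)).1 h3
  have hVn : ∀ n, ρ ^ 2 ^ n ≤ ‖V n‖⁻¹ := by
    intro n
    rw [hV.norm n, ← inv_pow]
    refine pow_le_pow_left₀ hρ0.le ?_ _
    have hVp : 0 < ‖V 0‖ := one_pos.trans hV.one_lt
    rw [le_inv_comm₀ hρ0 hVp]
    exact hV0
  refine ⟨0, t + 1, N, V, b, ?_⟩
  change Bd x y z V b (t + 1) N
  exact
    { orb := h
      sq := hV
      t_pos := by omega
      N_pos := hN
      b_per := hbper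
      b_succ := fun n => by rw [hbsucc, add_zero]
      b_norm := hbnorm
      hx := ⟨C₁, fun n => by
        rw [hVX, div_eq_mul_inv C₁]
        refine (hb₁ n).trans (mul_le_mul_of_nonneg_left ?_ hC₁.le)
        exact (pow_le_pow_left₀ hρ₁.le (le_max_left _ _) _).trans (hVn n)⟩
      hy := ⟨C₂, fun n => by
        rw [hVX, div_eq_mul_inv C₂]
        refine (hb₂ n).trans (mul_le_mul_of_nonneg_left ?_ hC₂.le)
        exact (pow_le_pow_left₀ hρ₂.le (le_max_right _ _) _).trans (hVn n)⟩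
      hz := fun n => by
        have h3 : ‖z n‖ ^ 2 ≤ (‖V n‖ ^ (t + 1)) ^ 2 := by
          have e : ‖V n‖ ^ (2 * (t + 1)) = ‖x n‖ := by rw [← norm_pow, hVX, hXn]
          rw [← pow_mul, mul_comm (t + 1) 2, e]
          exact hz n
        exact (pow_le_pow_iff_left₀ (norm_nonneg _) (by positivity) (by norm_num)).1 h3 }

omit [IsUltrametricDist L] [CharZero L] in
/-- translation of the conclusion back to the original indices -/
theorem Typ_back {x y z : ℕ → L} {m M n₀ : ℕ}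
    (h : ∀ (g : MvPolynomial (Fin 3) L) (r : ℕ),
      {n | n % M = r ∧ eval ![x (n + m), y (n + m), z (n + m)] g = 0}.Infinite →
        ∀ n, n₀ ≤ n → n % M = r → eval ![x (n + m), y (n + m), z (n + m)] g = 0) :
    ∀ (g : MvPolynomial (Fin 3) L) (r : ℕ),
      {n | n % M = r ∧ eval ![x n, y n, z n] g = 0}.Infinite →
        ∀ n, n₀ + m ≤ n → n % M = r → eval ![x n, y n, z n] g = 0 := by
  intro g r hinf n hn hnr
  obtain ⟨k, rfl⟩ : ∃ k, n = k + m := ⟨n - m, by omega⟩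
  refine h g (k % M) ?_ k (by omega) rfl
  by_contra hfin
  rw [Set.not_infinite] at hfin
  apply hinf
  refine ((Set.finite_Iio m).union (hfin.image fun j => j + m)).subset ?_
  rintro j ⟨hj1, hj2⟩
  rcases Nat.lt_or_ge j m with hjm | hjm
  · exact Or.inl hjm
  · right
    obtain ⟨i, rfl⟩ : ∃ i, j = i + m := ⟨j - m, by omega⟩
    refine ⟨i, ⟨?_, hj2⟩, rfl⟩
    rw [← hnr] at hj1
    exact (Nat.ModEq.add_right_cancel' m hj1)

theorem orbit_xy [CompleteSpace L] [IsAlgClosed L] (h2 : ‖(2 : L)‖ < 1)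
    (hfr : ∀ u : L, ‖u‖ = 1 → ∃ f : ℕ, 0 < f ∧ ‖u ^ (2 ^ f - 1) - 1‖ < 1) {x y z : ℕ → L}
    (h : Orb x y z) (hxy : ‖y 0‖ = ‖x 0‖) (f : MvPolynomial (Fin 3) L)
    (hf : ∀ i, coeff (Finsupp.single i f.totalDegree) f ≠ 0)
    (hinf : {n | eval ![x n, y n, z n] f = 0}.Infinite) :
    ∃ (N n₀ : ℕ), 0 < N ∧ ∀ (g : MvPolynomial (Fin 3) L) (r : ℕ),
      {n | n % N = r ∧ eval ![x n, y n, z n] g = 0}.Infinite →
        ∀ n, n₀ ≤ n → n % N = r → eval ![x n, y n, z n] g = 0 := by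
  have hyx := Typ_tie h hxy
  have hx1 := Typ_one_lt h
  obtain ⟨m, M, n₁, hM, hD, hJ⟩ : ∃ m M n₁ : ℕ, 0 < M ∧ (∀ (P : MvPolynomial (Fin 3) L) (r : ℕ),
      Dich M r fun n => eval ![x (n + m), y (n + m), z (n + m)] P) ∧
      ∀ n, n₁ ≤ n → 1 ≤ ‖1 + 8 * (x (n + m) * y (n + m) * z (n + m))‖ := by
    by_cases hcase : ∀ n, ‖z n‖ ^ 2 ≤ ‖x n‖
    · obtain ⟨m, t, N, V, b, hBd⟩ := exists_bd h2 h hxy hcase f hf hinf
      obtain ⟨M, hM, hD⟩ := bd_dich h2 hfr hBd
      obtain ⟨n₁, hJ⟩ := bd_jac h2 hfr hBd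
      exact ⟨m, M, n₁, hM, hD, hJ⟩
    · push Not at hcase
      obtain ⟨m, hm⟩ := hcase
      have hs := h.shift m
      have hfree : Free (fun n => x (n + m)) (fun n => y (n + m)) (fun n => z (n + m)) :=
        { x_succ := hs.x_succ
          y_succ := hs.y_succ
          z_succ := hs.z_succ
          one_lt := hs.one_lt
          hx := by
            rw [hyx]
            have := hx1 (0 + m)
            nlinarith
          hy := by
            rw [hyx]
            have := hx1 (0 + m)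
            have := h.norm_z (0 + m)
            nlinarith
          hz := by
            rw [Nat.zero_add]
            exact hm }
      obtain ⟨M, hM, hD⟩ := free_dich h2 hfr hfree
      have hzn : ∀ n, ‖x (n + m)‖ < ‖z (n + m)‖ ^ 2 := by
        intro n
        induction n with
        | zero => rw [Nat.zero_add]; exact hm
        | succ n ih =>
          have e : n + 1 + m = n + m + 1 := by omega
          have hxp := hx1 (n + m)
          have h3 : ‖z (n + m + 1)‖ = ‖z (n + m)‖ ^ 2 := by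
            rw [h.z_succ, IsUltrametricDist.norm_add_eq_max_of_norm_ne_norm
              (by rw [norm_pow]; exact ih.ne'), norm_pow]
            exact max_eq_left ih.le
          have h4 : ‖x (n + m + 1)‖ = ‖x (n + m)‖ ^ 2 := by
            rw [h.norm_x (n + m + 1), h.norm_x (n + m), ← pow_mul, pow_succ]
          rw [e, h3, h4]
          exact pow_lt_pow_left₀ ih (norm_nonneg _) (by norm_num)
      have h8 : (0 : ℝ) < ‖(8 : L)‖ := norm_pos_iff.2 (by norm_num)
      have htend : Filter.Tendsto (fun n : ℕ => ‖x 0‖ ^ 2 ^ n) Filter.atTop Filter.atTop :=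
        (tendsto_pow_atTop_atTop_of_one_lt h.one_lt).comp
          (tendsto_pow_atTop_atTop_of_one_lt (by norm_num : (1 : ℕ) < 2))
      obtain ⟨n₁, hn₁⟩ := Filter.eventually_atTop.1
        (htend.eventually (Filter.eventually_gt_atTop (‖(8 : L)‖⁻¹)))
      refine ⟨m, M, n₁, hM, hD, fun n hn => ?_⟩
      have h9 := hn₁ (n + m) (by omega)
      rw [← h.norm_x] at h9
      have hxp := hx1 (n + m)
      have hz1 : 1 < ‖z (n + m)‖ := by
        by_contra hcon
        push Not at hcon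
        have := hzn n
        have := norm_nonneg (z (n + m))
        nlinarith
      have hbig : 1 < ‖8 * (x (n + m) * y (n + m) * z (n + m))‖ := by
        rw [norm_mul, norm_mul, norm_mul, hyx]
        have h10 : 1 < ‖(8 : L)‖ * ‖x (n + m)‖ := by
          rw [inv_lt_iff_one_lt_mul₀ h8, mul_comm] at h9
          linarith
        have h11 : 1 < ‖x (n + m)‖ * ‖z (n + m)‖ := by nlinarith
        calc (1 : ℝ) = 1 * 1 := by ring
          _ < (‖(8 : L)‖ * ‖x (n + m)‖) * (‖x (n + m)‖ * ‖z (n + m)‖) :=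
              mul_lt_mul'' h10 h11 zero_le_one zero_le_one
          _ = _ := by ring
      rw [IsUltrametricDist.norm_add_eq_max_of_norm_ne_norm (by rw [norm_one]; exact hbig.ne)]
      exact le_max_of_le_left (by rw [norm_one])
  have hs := h.shift m
  obtain ⟨n₀, hn₀⟩ := flat_zero (v := fun n => ![x (n + m), y (n + m), z (n + m)]) hM
    (fun n => by
      funext i
      fin_cases i
      · exact hs.x_succ n
      · exact hs.y_succ n
      · exact hs.z_succ n)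
    (R := ‖x (0 + m)‖) (hx1 (0 + m)).le
    (fun n i => by
      have e : ‖x (0 + m)‖ ^ 2 ^ n = ‖x (n + m)‖ := (hs.norm_x n).symm
      rw [e]
      fin_cases i
      · exact le_rfl
      · exact h.norm_y (n + m)
      · exact h.norm_z (n + m))
    hD (n₁ := n₁) (fun n hn => hJ n hn)
  exact ⟨M, n₀ + m, hM, Typ_back hn₀⟩

end Pool.Agent.GSF
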